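import Pool.Agent.Lib.MP_0bc52e_nt.K.Dead
import Pool.Agent.Lib.MP_0bc52e_nt.LC.StmB
import Pool.Agent.Lib.MP_0bc52e_nt.LC.StmC
import Pool.Agent.Lib.MP_0bc52e_nt.T.StmH

/-!
# The theorem on three-dimensional faces of sails (MP_0bc52e_nt)

An integer polytope that meets all classes modulo `2` and satisfies the criterion for a prime
`p ≥ 13` is in the family `P(c; s, t)`.
-/

open scoped Pointwise

namespace Pool.Agent.Lib.MP_0bc52e_nt.K

open Pool.Agent.Lib.MP_0bc52e_nt.LC Pool.Agent.Lib.MP_0bc52e_nt.T Pool.Agent.Lib.MP_0bc52e_nt.R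

/-- A prime between `13` and `162` is at most `157`. -/
lemma prime_le_157 {p : ℕ} (hp : p.Prime) (h : p < 163) : p ≤ 157 := by
  by_contra hlt
  push Not at hlt
  interval_cases p <;> exact absurd hp (by norm_num)

/-- A polytope with all classes modulo `2` that satisfies the criterion for a prime `p ≥ 13` has no
inner integer point. -/
theorem hollow13 (P : Set (ℝ × ℝ × ℝ)) (p : ℕ) (hP : IsLP3 P) (hpc : PC3 P) (hp : p.Prime)
    (h13 : 13 ≤ p) (hC : Cr P p) : T.Hollow P := by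
  by_cases h : 163 ≤ p
  · exact T.q_N P p hP hp h hC
  · by_contra hH
    exact q_fin p (dead_all p hp h13 (prime_le_157 hp (by omega))) P hP hpc hH hC

/-- Theorem (T13). -/
theorem thm13 (P : Set (ℝ × ℝ × ℝ)) (p : ℕ) (hP : IsLP3 P) (hpc : PC3 P) (hp : p.Prime)
    (h13 : 13 ≤ p) (hC : Cr P p) :
    ∃ C s t : ℤ, Odd C ∧ (p : ℤ) ∣ C ∧ s ≤ t ∧ ZEq P (fam C s t) :=
  T.q_TH P p hP hpc (hollow13 P p hP hpc hp h13 hC) hp h13 hC

/-- The faces at distance greater than one: the criterion for a prime at most `11`, or the family. -/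
theorem main13 (P : Set (Fin 3 → ℝ)) (hP : IsIntegerPolytope P) (hfull : IsFullDimensional P) :
    (∃ h : ℕ, 1 < h ∧ OccursAt P h) ↔ (∃ q : ℕ, q.Prime ∧ q ≤ 11 ∧ Criterion P q) ∨ InFam P := by
  constructor
  · rintro ⟨h, hh, hocc⟩
    by_contra hcon
    push Not at hcon
    obtain ⟨nq, nF⟩ := hcon
    have hcr := hocc.weak.criterion hfull
    obtain ⟨p, hp, hph⟩ := Nat.exists_prime_and_dvd (show h ≠ 1 by omega)
    obtain ⟨k, rfl⟩ := hph
    have hk : 0 < k := Nat.pos_of_ne_zero (by rintro rfl; simp at hh)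
    have hcp : Criterion P p := hcr.of_mul hk
    have hp12 : 11 < p := by
      by_contra hlt
      exact nq p hp (by omega) hcp
    have hp13 : 13 ≤ p := by
      rcases Nat.lt_or_ge p 13 with h | h
      · have : p = 12 := by omega
        subst this
        exact absurd hp (by norm_num)
      · exact h
    have nm : ¬ Miss2 P := fun hm => nq 2 Nat.prime_two (by norm_num) (criterion_two_iff.2 hm)
    obtain ⟨C, s, t, r1, r2, r3, r4⟩ := thm13 (T3 P) p (LC.q_T3lp P hP) (LC.q_T3pc P nm) hp hp13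
      (LC.q_T3crit P p hcp)
    apply nF
    refine ⟨C, s, t, r1, ?_, r3, LC.q_T3zeq P C s t r4⟩
    have hC0 : C ≠ 0 := by
      rintro rfl
      simp at r1
    have h1 : (p : ℤ) ≤ |C| := Int.le_of_dvd (abs_pos.2 hC0) ((dvd_abs _ _).2 r2)
    have h2 : (13 : ℤ) ≤ p := by exact_mod_cast hp13
    linarith
  · rintro (⟨q, hq, _, hC⟩ | hF)
    · exact ⟨q, hq.one_lt, hC.occursAt hq.pos hP hfull⟩
    · obtain ⟨c, s, t, _, hc3, _, heq⟩ := hF
      have hn : 3 ≤ c.natAbs := by
        have : (3 : ℤ) ≤ (c.natAbs : ℤ) := by rwa [Int.natCast_natAbs]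
        exact_mod_cast this
      refine ⟨c.natAbs, by omega, ?_⟩
      obtain ⟨f1, f2⟩ := LC.q_famint c s t
      exact LC.q_occ 3 P _ _ heq ((LC.q_famcrit c s t c.natAbs (Int.natAbs_dvd.2 dvd_rfl)).occursAt
        (by omega) f1 f2)

end Pool.Agent.Lib.MP_0bc52e_nt.K
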