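import Pool.Agent.Lib.MP_0bc52e_nt.R.All
import Pool.Agent.Lib.MP_0bc52e_nt.K.P.Afin
import Pool.Agent.Lib.MP_0bc52e_nt.K.P.GOs
import Pool.Agent.Lib.MP_0bc52e_nt.K.P.alO
import Pool.Agent.Lib.MP_0bc52e_nt.K.P.alX
import Pool.Agent.Lib.MP_0bc52e_nt.K.P.alv
import Pool.Agent.Lib.MP_0bc52e_nt.K.P.cell4
import Pool.Agent.Lib.MP_0bc52e_nt.K.P.clf
import Pool.Agent.Lib.MP_0bc52e_nt.K.P.cls
import Pool.Agent.Lib.MP_0bc52e_nt.K.P.coreP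
import Pool.Agent.Lib.MP_0bc52e_nt.K.P.coreU
import Pool.Agent.Lib.MP_0bc52e_nt.K.P.cov
import Pool.Agent.Lib.MP_0bc52e_nt.K.P.fam
import Pool.Agent.Lib.MP_0bc52e_nt.K.P.fin
import Pool.Agent.Lib.MP_0bc52e_nt.K.P.frH
import Pool.Agent.Lib.MP_0bc52e_nt.K.P.frQ
import Pool.Agent.Lib.MP_0bc52e_nt.K.P.frU
import Pool.Agent.Lib.MP_0bc52e_nt.K.P.klP
import Pool.Agent.Lib.MP_0bc52e_nt.K.P.klU
import Pool.Agent.Lib.MP_0bc52e_nt.K.P.klX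
import Pool.Agent.Lib.MP_0bc52e_nt.K.P.loop
import Pool.Agent.Lib.MP_0bc52e_nt.K.P.loopU
import Pool.Agent.Lib.MP_0bc52e_nt.K.P.mnle
import Pool.Agent.Lib.MP_0bc52e_nt.K.P.nth
import Pool.Agent.Lib.MP_0bc52e_nt.K.P.okG
import Pool.Agent.Lib.MP_0bc52e_nt.K.P.okS
import Pool.Agent.Lib.MP_0bc52e_nt.K.P.op1
import Pool.Agent.Lib.MP_0bc52e_nt.K.P.op2
import Pool.Agent.Lib.MP_0bc52e_nt.K.P.orig
import Pool.Agent.Lib.MP_0bc52e_nt.K.P.per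
import Pool.Agent.Lib.MP_0bc52e_nt.K.P.pushF
import Pool.Agent.Lib.MP_0bc52e_nt.K.P.pushL
import Pool.Agent.Lib.MP_0bc52e_nt.K.P.sd
import Pool.Agent.Lib.MP_0bc52e_nt.K.P.sdA
import Pool.Agent.Lib.MP_0bc52e_nt.K.P.sdU
import Pool.Agent.Lib.MP_0bc52e_nt.K.P.sh
import Pool.Agent.Lib.MP_0bc52e_nt.K.P.spO
import Pool.Agent.Lib.MP_0bc52e_nt.K.P.spX
import Pool.Agent.Lib.MP_0bc52e_nt.K.P.stP
import Pool.Agent.Lib.MP_0bc52e_nt.K.P.stU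
import Pool.Agent.Lib.MP_0bc52e_nt.K.P.stX
import Pool.Agent.Lib.MP_0bc52e_nt.K.P.syO
import Pool.Agent.Lib.MP_0bc52e_nt.K.P.sym0
import Pool.Agent.Lib.MP_0bc52e_nt.K.P.sym1
import Pool.Agent.Lib.MP_0bc52e_nt.K.P.symI

/-!
Assembly: soundness of the certificates (MP_0bc52e_nt).
-/

namespace Pool.Agent.Lib.MP_0bc52e_nt.K

open Pool.Agent.Lib.MP_0bc52e_nt.LC Pool.Agent.Lib.MP_0bc52e_nt.T Pool.Agent.Lib.MP_0bc52e_nt.R

lemma q_frQ : S_frQ := p_frQ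
lemma q_frH : S_frH := p_frH
lemma q_frU : S_frU := p_frU
lemma q_Afin : S_Afin := p_Afin q_frQ q_frH q_frU
lemma q_GOs : S_GOs := p_GOs
lemma q_op1 : S_op1 := p_op1
lemma q_op2 : S_op2 := p_op2 q_op1
lemma q_nth : S_nth := p_nth
lemma q_pushF : S_pushF := p_pushF q_op1
lemma q_pushL : S_pushL := p_pushL q_pushF
lemma q_alO : S_alO := p_alO q_op1 q_op2 q_nth q_pushL
lemma q_clf : S_clf := p_clf
lemma q_alX : S_alX := p_alX q_op1 q_op2 q_pushF q_clf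
lemma q_alv : S_alv := p_alv
lemma q_cell4 : S_cell4 := p_cell4
lemma q_cls : S_cls := p_cls
lemma q_mnle : S_mnle := p_mnle q_op2
lemma q_okS : S_okS := p_okS q_op1 q_op2
lemma q_klP : S_klP := p_klP q_op1 q_op2 q_nth q_mnle q_okS
lemma q_spO : S_spO := p_spO q_op2 q_GOs
lemma q_per : S_per := p_per
lemma q_syO : S_syO := p_syO q_op1 q_op2 q_nth q_per
lemma q_stP : S_stP := p_stP q_op1 q_op2 q_klP q_spO q_alO q_syO
lemma q_sh : S_sh := p_sh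
lemma q_okG : S_okG := p_okG q_op1 q_op2 q_mnle
lemma q_klX : S_klX := p_klX q_op1 q_op2 q_nth q_sh q_okG
lemma q_spX : S_spX := p_spX q_op2
lemma q_stX : S_stX := p_stX q_op1 q_op2 q_klX q_spX q_alX
lemma q_loop : S_loop := p_loop q_op1
lemma q_coreP : S_coreP := p_coreP q_stP q_stX q_loop
lemma q_klU : S_klU := p_klU q_op1 q_op2 q_nth q_mnle q_okS
lemma q_stU : S_stU := p_stU q_op1 q_op2 q_klU q_spO
lemma q_loopU : S_loopU := p_loopU q_op1 q_op2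
lemma q_coreU : S_coreU := p_coreU q_stU q_loopU
lemma q_cov : S_cov := p_cov q_per
lemma q_fam : S_fam := p_fam
lemma q_orig : S_orig := p_orig
lemma q_fin : S_fin := p_fin q_alv q_Afin q_orig R.q_roots
lemma q_sd : S_sd := p_sd q_op2 q_per
lemma q_sdA : S_sdA := p_sdA q_sd q_per
lemma q_sdU : S_sdU := p_sdU q_op2 q_per
lemma q_sym0 : S_sym0 := p_sym0 q_frQ
lemma q_sym1 : S_sym1 := p_sym1 q_frQ
lemma q_symI : S_symI := p_symI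

end Pool.Agent.Lib.MP_0bc52e_nt.K
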