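import Pool.Agent.Lib.MP_0bc52e_nt.K.Chk

/-!
The roots of the certificates (MP_0bc52e_nt): points `V`, cells `C`, symmetries `S`, families `F`.
-/

namespace Pool.Agent.Lib.MP_0bc52e_nt.K

/-- The classes modulo `2`. -/
def F_0 : List (List Fam) := [[.mk 2 2 2 0 0 0 1], [.mk 2 2 2 1 0 0 1], [.mk 2 2 2 0 1 0 1], [.mk 2 2 2 1 1 0 1],
  [.mk 2 2 2 0 0 1 1], [.mk 2 2 2 1 0 1 1], [.mk 2 2 2 0 1 1 1], [.mk 2 2 2 1 1 1 1]]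

/-- The level `-1`. -/
def F_1 : List (List Fam) := [[.mk 1 1 0 0 0 (-1) 0]]

/-- The hole families for `W`, `T`, `D`. -/
def F_hW : List (List Fam) := [[.mk 3 3 0 1 (-1) (-3) 0, .mk 3 3 0 (-1) 1 (-3) 0]]
@[inherit_doc F_hW] def F_hT : List (List Fam) := [[.mk 2 2 0 1 0 (-2) 0]]
@[inherit_doc F_hW] def F_hD : List (List Fam) := [[.mk 2 2 0 1 1 (-2) 0]]

/-- The boxes of a list of intervals of last coordinates. -/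
noncomputable def bxs (p : Int) (L : List (Int × Int)) : G := List.rec G.nil (fun e _ ih => G.o 0 (p - 1) 0 (p - 1) e.1 e.2 ih) L

/-- Points of the root `th4`. -/
def V_th4 : List P3 := [.mk (-1) (-1) (-1), .mk 1 0 0, .mk 0 1 0, .mk 0 0 1]
/-- Cells of the root `th4`. -/
def C_th4 : List (List F4) := [[.mk (-1) (-1) (-1) 1, .mk 3 (-1) (-1) 1, .mk (-1) 3 (-1) 1, .mk (-1) (-1) 3 1]]
/-- Symmetries of the root `th4`. -/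
def S_th4 : List M3 := [.mk 1 0 0 0 1 0 0 0 1,
  .mk 1 0 0 0 0 1 0 1 0,
  .mk 0 1 0 1 0 0 0 0 1,
  .mk 0 0 1 1 0 0 0 1 0,
  .mk 0 1 0 0 0 1 1 0 0,
  .mk 0 0 1 0 1 0 1 0 0,
  .mk (-1) 0 0 (-1) 1 0 (-1) 0 1,
  .mk (-1) 0 0 (-1) 0 1 (-1) 1 0,
  .mk 0 (-1) 0 1 (-1) 0 0 (-1) 1,
  .mk 0 0 (-1) 1 0 (-1) 0 1 (-1),
  .mk 0 (-1) 0 0 (-1) 1 1 (-1) 0,
  .mk 0 0 (-1) 0 1 (-1) 1 0 (-1),
  .mk (-1) 1 0 (-1) 0 0 (-1) 0 1,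
  .mk (-1) 0 1 (-1) 0 0 (-1) 1 0,
  .mk 1 (-1) 0 0 (-1) 0 0 (-1) 1,
  .mk 1 0 (-1) 0 0 (-1) 0 1 (-1),
  .mk 0 (-1) 1 0 (-1) 0 1 (-1) 0,
  .mk 0 1 (-1) 0 0 (-1) 1 0 (-1),
  .mk (-1) 1 0 (-1) 0 1 (-1) 0 0,
  .mk (-1) 0 1 (-1) 1 0 (-1) 0 0,
  .mk 1 (-1) 0 0 (-1) 1 0 (-1) 0,
  .mk 1 0 (-1) 0 1 (-1) 0 0 (-1),
  .mk 0 (-1) 1 1 (-1) 0 0 (-1) 0,
  .mk 0 1 (-1) 1 0 (-1) 0 0 (-1)]

/-- Points of the root `th5`. -/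
def V_th5 : List P3 := [.mk (-1) (-1) (-2), .mk 1 0 0, .mk 0 1 0, .mk 0 0 1]
/-- Cells of the root `th5`. -/
def C_th5 : List (List F4) := [[.mk (-1) (-1) (-1) 1, .mk 4 (-1) (-1) 1, .mk (-1) 4 (-1) 1, .mk (-2) (-2) 3 2]]
/-- Symmetries of the root `th5`. -/
def S_th5 : List M3 := [.mk 1 0 0 0 1 0 0 0 1,
  .mk 0 1 0 1 0 0 0 0 1,
  .mk (-1) 0 0 (-1) 1 0 (-2) 0 1,
  .mk 0 (-1) 0 1 (-1) 0 0 (-2) 1,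
  .mk (-1) 1 0 (-1) 0 0 (-2) 0 1,
  .mk 1 (-1) 0 0 (-1) 0 0 (-2) 1]

/-- Points of the root `th7`. -/
def V_th7 : List P3 := [.mk (-1) (-2) (-3), .mk 1 0 0, .mk 0 1 0, .mk 0 0 1]
/-- Cells of the root `th7`. -/
def C_th7 : List (List F4) := [[.mk (-1) (-1) (-1) 1, .mk 6 (-1) (-1) 1, .mk (-2) 5 (-2) 2, .mk (-3) (-3) 4 3]]
/-- Symmetries of the root `th7`. -/
def S_th7 : List M3 := [.mk 1 0 0 0 1 0 0 0 1,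
  .mk (-1) 0 0 (-2) 1 0 (-3) 0 1]

/-- Points of the root `th11`. -/
def V_th11 : List P3 := [.mk (-2) (-3) (-5), .mk 1 0 0, .mk 0 1 0, .mk 0 0 1]
/-- Cells of the root `th11`. -/
def C_th11 : List (List F4) := [[.mk (-1) (-1) (-1) 1, .mk 9 (-2) (-2) 2, .mk (-3) 8 (-3) 3, .mk (-5) (-5) 6 5]]
/-- Symmetries of the root `th11`. -/
def S_th11 : List M3 := [.mk 1 0 0 0 1 0 0 0 1]

/-- Points of the root `th13`. -/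
def V_th13 : List P3 := [.mk (-3) (-4) (-5), .mk 1 0 0, .mk 0 1 0, .mk 0 0 1]
/-- Cells of the root `th13`. -/
def C_th13 : List (List F4) := [[.mk (-1) (-1) (-1) 1, .mk 10 (-3) (-3) 3, .mk (-4) 9 (-4) 4, .mk (-5) (-5) 8 5]]
/-- Symmetries of the root `th13`. -/
def S_th13 : List M3 := [.mk 1 0 0 0 1 0 0 0 1]

/-- Points of the root `th17`. -/
def V_th17 : List P3 := [.mk (-4) (-5) 3, .mk 1 1 (-2), .mk 1 0 0, .mk 0 1 0]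
/-- Cells of the root `th17`. -/
def C_th17 : List (List F4) := [[.mk (-2) (-2) (-1) 2, .mk (-3) (-3) (-10) 3, .mk 12 (-5) 6 5, .mk (-7) 10 5 7]]
/-- Symmetries of the root `th17`. -/
def S_th17 : List M3 := [.mk 1 0 0 0 1 0 0 0 1]

/-- Points of the root `th19`. -/
def V_th19 : List P3 := [.mk 1 (-1) 4, .mk (-2) (-1) (-3), .mk 1 0 0, .mk 0 1 0]
/-- Cells of the root `th19`. -/
def C_th19 : List (List F4) := [[.mk (-3) (-3) 4 3, .mk (-4) (-4) (-1) 4, .mk 14 (-5) (-6) 5, .mk (-7) 12 3 7]]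
/-- Symmetries of the root `th19`. -/
def S_th19 : List M3 := [.mk 1 0 0 0 1 0 0 0 1]

/-- Points of the root `th20`. -/
def V_th20 : List P3 := [.mk (-5) 1 2, .mk 5 (-2) (-3), .mk 0 1 0, .mk 0 0 1]
/-- Cells of the root `th20`. -/
def C_th20 : List (List F4) := [[.mk (-6) (-5) (-5) 5, .mk (-2) (-5) (-5) 5, .mk 2 15 (-5) 5, .mk 6 (-5) 15 5]]
/-- Symmetries of the root `th20`. -/
def S_th20 : List M3 := [.mk 1 0 0 0 1 0 0 0 1,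
  .mk (-2) (-5) 0 1 1 1 1 2 0,
  .mk 2 0 5 (-1) 0 (-2) (-1) 1 (-3),
  .mk (-1) 5 (-5) 0 (-2) 1 0 (-3) 2]

/-- Points of the root `b11`. -/
def V_b11 : List P3 := [.mk 0 0 1, .mk 0 0 (-1), .mk 1 0 0, .mk 0 1 0, .mk (-1) (-1) 1]
/-- Cells of the root `b11`. -/
def C_b11 : List (List F4) := [[.mk (-1) (-1) 1 1, .mk (-1) (-1) (-1) 1, .mk 1 0 0 0, .mk 0 1 0 0],
  [.mk (-1) 3 1 1, .mk (-1) 1 (-1) 1, .mk 1 (-1) 0 0, .mk 0 (-1) 0 0],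
  [.mk 3 (-1) 1 1, .mk 1 (-1) (-1) 1, .mk (-1) 1 0 0, .mk (-1) 0 0 0],
  [.mk 1 1 3 (-1), .mk 1 (-1) (-1) 1, .mk (-1) 1 (-1) 1, .mk (-1) (-1) (-1) 1],
  [.mk (-1) (-1) (-3) 1, .mk 3 (-1) 1 1, .mk (-1) 3 1 1, .mk (-1) (-1) 1 1]]
/-- Symmetries of the root `b11`. -/
def S_b11 : List M3 := [.mk 1 0 0 0 1 0 0 0 1,
  .mk 1 (-1) 0 0 (-1) 0 0 1 1,
  .mk 0 1 0 1 0 0 0 0 1,
  .mk 0 (-1) 0 1 (-1) 0 0 1 1,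
  .mk (-1) 1 0 (-1) 0 0 1 0 1,
  .mk (-1) 0 0 (-1) 1 0 1 0 1]

/-- Points of the root `b12`. -/
def V_b12 : List P3 := [.mk 0 0 1, .mk 0 0 (-1), .mk 1 0 0, .mk 0 1 0, .mk (-1) (-1) 2]
/-- Cells of the root `b12`. -/
def C_b12 : List (List F4) := [[.mk (-1) (-1) 1 1, .mk (-1) (-1) (-1) 1, .mk 1 0 0 0, .mk 0 1 0 0],
  [.mk (-1) 4 1 1, .mk (-1) 0 (-1) 1, .mk 1 (-1) 0 0, .mk 0 (-1) 0 0],
  [.mk 4 (-1) 1 1, .mk 0 (-1) (-1) 1, .mk (-1) 1 0 0, .mk (-1) 0 0 0],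
  [.mk 2 2 3 (-2), .mk 0 (-1) (-1) 1, .mk (-1) 0 (-1) 1, .mk (-1) (-1) (-1) 1],
  [.mk (-2) (-2) (-3) 2, .mk 4 (-1) 1 1, .mk (-1) 4 1 1, .mk (-1) (-1) 1 1]]
/-- Symmetries of the root `b12`. -/
def S_b12 : List M3 := [.mk 1 0 0 0 1 0 0 0 1,
  .mk 1 (-1) 0 0 (-1) 0 0 2 1,
  .mk 0 1 0 1 0 0 0 0 1,
  .mk 0 (-1) 0 1 (-1) 0 0 2 1,
  .mk (-1) 1 0 (-1) 0 0 2 0 1,
  .mk (-1) 0 0 (-1) 1 0 2 0 1]

/-- Points of the root `b13`. -/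
def V_b13 : List P3 := [.mk 0 0 1, .mk 0 0 (-1), .mk 1 0 0, .mk 0 1 0, .mk (-1) (-1) 3]
/-- Cells of the root `b13`. -/
def C_b13 : List (List F4) := [[.mk (-1) (-1) 1 1, .mk (-1) (-1) (-1) 1, .mk 1 0 0 0, .mk 0 1 0 0],
  [.mk (-1) 5 1 1, .mk (-1) (-1) (-1) 1, .mk 1 (-1) 0 0, .mk 0 (-1) 0 0],
  [.mk 5 (-1) 1 1, .mk (-1) (-1) (-1) 1, .mk (-1) 1 0 0, .mk (-1) 0 0 0],
  [.mk (-1) (-1) (-1) 1, .mk 5 (-1) 1 1, .mk (-1) 5 1 1, .mk (-1) (-1) 1 1]]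
/-- Symmetries of the root `b13`. -/
def S_b13 : List M3 := [.mk 1 0 0 0 1 0 0 0 1,
  .mk 1 (-1) 0 0 (-1) 0 0 3 1,
  .mk 0 1 0 1 0 0 0 0 1,
  .mk 0 (-1) 0 1 (-1) 0 0 3 1,
  .mk (-1) 1 0 (-1) 0 0 3 0 1,
  .mk (-1) 0 0 (-1) 1 0 3 0 1]

/-- Points of the root `b14`. -/
def V_b14 : List P3 := [.mk 0 0 1, .mk 0 0 (-1), .mk 1 0 0, .mk 0 1 0, .mk (-1) (-1) 4]
/-- Cells of the root `b14`. -/
def C_b14 : List (List F4) := [[.mk (-1) (-1) 1 1, .mk (-1) (-1) (-1) 1, .mk 1 0 0 0, .mk 0 1 0 0],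
  [.mk (-1) 6 1 1, .mk (-1) (-2) (-1) 1, .mk 1 (-1) 0 0, .mk 0 (-1) 0 0],
  [.mk 6 (-1) 1 1, .mk (-2) (-1) (-1) 1, .mk (-1) 1 0 0, .mk (-1) 0 0 0],
  [.mk (-4) (-4) (-3) 4, .mk 2 1 1 (-1), .mk 1 2 1 (-1), .mk 1 1 1 (-1)],
  [.mk (-4) (-4) (-3) 4, .mk 6 (-1) 1 1, .mk (-1) 6 1 1, .mk (-1) (-1) 1 1]]
/-- Symmetries of the root `b14`. -/
def S_b14 : List M3 := [.mk 1 0 0 0 1 0 0 0 1,
  .mk 1 (-1) 0 0 (-1) 0 0 4 1,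
  .mk 0 1 0 1 0 0 0 0 1,
  .mk 0 (-1) 0 1 (-1) 0 0 4 1,
  .mk (-1) 1 0 (-1) 0 0 4 0 1,
  .mk (-1) 0 0 (-1) 1 0 4 0 1]

/-- Points of the root `b15`. -/
def V_b15 : List P3 := [.mk 0 0 1, .mk 0 0 (-1), .mk 1 0 0, .mk 0 1 0, .mk (-1) (-1) 5]
/-- Cells of the root `b15`. -/
def C_b15 : List (List F4) := [[.mk (-1) (-1) 1 1, .mk (-1) (-1) (-1) 1, .mk 1 0 0 0, .mk 0 1 0 0],
  [.mk (-1) 7 1 1, .mk (-1) (-3) (-1) 1, .mk 1 (-1) 0 0, .mk 0 (-1) 0 0],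
  [.mk 7 (-1) 1 1, .mk (-3) (-1) (-1) 1, .mk (-1) 1 0 0, .mk (-1) 0 0 0],
  [.mk (-5) (-5) (-3) 5, .mk 3 1 1 (-1), .mk 1 3 1 (-1), .mk 1 1 1 (-1)],
  [.mk (-5) (-5) (-3) 5, .mk 7 (-1) 1 1, .mk (-1) 7 1 1, .mk (-1) (-1) 1 1]]
/-- Symmetries of the root `b15`. -/
def S_b15 : List M3 := [.mk 1 0 0 0 1 0 0 0 1,
  .mk 1 (-1) 0 0 (-1) 0 0 5 1,
  .mk 0 1 0 1 0 0 0 0 1,
  .mk 0 (-1) 0 1 (-1) 0 0 5 1,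
  .mk (-1) 1 0 (-1) 0 0 5 0 1,
  .mk (-1) 0 0 (-1) 1 0 5 0 1]

/-- Points of the root `b21`. -/
def V_b21 : List P3 := [.mk 0 0 1, .mk 0 0 (-1), .mk 1 0 0, .mk 0 1 0, .mk (-2) (-1) 1]
/-- Cells of the root `b21`. -/
def C_b21 : List (List F4) := [[.mk (-1) (-1) 1 1, .mk (-1) (-1) (-1) 1, .mk 1 0 0 0, .mk 0 1 0 0],
  [.mk (-1) 4 1 1, .mk (-1) 2 (-1) 1, .mk 1 (-2) 0 0, .mk 0 (-1) 0 0],
  [.mk 3 (-2) 2 2, .mk 1 (-2) (-2) 2, .mk (-1) 2 0 0, .mk (-1) 0 0 0],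
  [.mk 1 1 4 (-1), .mk 1 (-2) (-2) 2, .mk (-1) 2 (-1) 1, .mk (-1) (-1) (-1) 1],
  [.mk (-1) (-1) (-4) 1, .mk 3 (-2) 2 2, .mk (-1) 4 1 1, .mk (-1) (-1) 1 1]]
/-- Symmetries of the root `b21`. -/
def S_b21 : List M3 := [.mk 1 0 0 0 1 0 0 0 1,
  .mk 1 (-2) 0 0 (-1) 0 0 1 1]

/-- Points of the root `b23`. -/
def V_b23 : List P3 := [.mk 0 0 1, .mk 0 0 (-1), .mk 1 0 0, .mk 0 1 0, .mk (-2) (-1) 3]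
/-- Cells of the root `b23`. -/
def C_b23 : List (List F4) := [[.mk (-1) (-1) 1 1, .mk (-1) (-1) (-1) 1, .mk 1 0 0 0, .mk 0 1 0 0],
  [.mk (-1) 6 1 1, .mk (-1) 0 (-1) 1, .mk 1 (-2) 0 0, .mk 0 (-1) 0 0],
  [.mk 5 (-2) 2 2, .mk (-1) (-2) (-2) 2, .mk (-1) 2 0 0, .mk (-1) 0 0 0],
  [.mk 3 3 4 (-3), .mk (-1) (-2) (-2) 2, .mk (-1) 0 (-1) 1, .mk (-1) (-1) (-1) 1],
  [.mk (-3) (-3) (-4) 3, .mk 5 (-2) 2 2, .mk (-1) 6 1 1, .mk (-1) (-1) 1 1]]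
/-- Symmetries of the root `b23`. -/
def S_b23 : List M3 := [.mk 1 0 0 0 1 0 0 0 1,
  .mk 1 (-2) 0 0 (-1) 0 0 3 1]

/-- Points of the root `b25`. -/
def V_b25 : List P3 := [.mk 0 0 1, .mk 0 0 (-1), .mk 1 0 0, .mk 0 1 0, .mk (-2) (-1) 5]
/-- Cells of the root `b25`. -/
def C_b25 : List (List F4) := [[.mk (-1) (-1) 1 1, .mk (-1) (-1) (-1) 1, .mk 1 0 0 0, .mk 0 1 0 0],
  [.mk (-1) 8 1 1, .mk (-1) (-2) (-1) 1, .mk 1 (-2) 0 0, .mk 0 (-1) 0 0],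
  [.mk 7 (-2) 2 2, .mk (-3) (-2) (-2) 2, .mk (-1) 2 0 0, .mk (-1) 0 0 0],
  [.mk (-5) (-5) (-4) 5, .mk 3 2 2 (-2), .mk 1 2 1 (-1), .mk 1 1 1 (-1)],
  [.mk (-5) (-5) (-4) 5, .mk 7 (-2) 2 2, .mk (-1) 8 1 1, .mk (-1) (-1) 1 1]]
/-- Symmetries of the root `b25`. -/
def S_b25 : List M3 := [.mk 1 0 0 0 1 0 0 0 1,
  .mk 1 (-2) 0 0 (-1) 0 0 5 1]

/-- Points of the root `b27`. -/
def V_b27 : List P3 := [.mk 0 0 1, .mk 0 0 (-1), .mk 1 0 0, .mk 0 1 0, .mk (-2) (-1) 7]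
/-- Cells of the root `b27`. -/
def C_b27 : List (List F4) := [[.mk (-1) (-1) 1 1, .mk (-1) (-1) (-1) 1, .mk 1 0 0 0, .mk 0 1 0 0],
  [.mk (-1) 10 1 1, .mk (-1) (-4) (-1) 1, .mk 1 (-2) 0 0, .mk 0 (-1) 0 0],
  [.mk 9 (-2) 2 2, .mk (-5) (-2) (-2) 2, .mk (-1) 2 0 0, .mk (-1) 0 0 0],
  [.mk (-7) (-7) (-4) 7, .mk 5 2 2 (-2), .mk 1 4 1 (-1), .mk 1 1 1 (-1)],
  [.mk (-7) (-7) (-4) 7, .mk 9 (-2) 2 2, .mk (-1) 10 1 1, .mk (-1) (-1) 1 1]]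
/-- Symmetries of the root `b27`. -/
def S_b27 : List M3 := [.mk 1 0 0 0 1 0 0 0 1,
  .mk 1 (-2) 0 0 (-1) 0 0 7 1]

/-- Points of the root `b31`. -/
def V_b31 : List P3 := [.mk 0 0 1, .mk 0 0 (-1), .mk 1 0 0, .mk 0 1 0, .mk (-3) (-2) 1]
/-- Cells of the root `b31`. -/
def C_b31 : List (List F4) := [[.mk (-1) (-1) 1 1, .mk (-1) (-1) (-1) 1, .mk 1 0 0 0, .mk 0 1 0 0],
  [.mk (-2) 5 2 2, .mk (-2) 3 (-2) 2, .mk 2 (-3) 0 0, .mk 0 (-1) 0 0],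
  [.mk 4 (-3) 3 3, .mk 2 (-3) (-3) 3, .mk (-2) 3 0 0, .mk (-1) 0 0 0],
  [.mk 1 1 6 (-1), .mk 2 (-3) (-3) 3, .mk (-2) 3 (-2) 2, .mk (-1) (-1) (-1) 1],
  [.mk (-1) (-1) (-6) 1, .mk 4 (-3) 3 3, .mk (-2) 5 2 2, .mk (-1) (-1) 1 1]]
/-- Symmetries of the root `b31`. -/
def S_b31 : List M3 := [.mk 1 0 0 0 1 0 0 0 1]

/-- Points of the root `b35`. -/
def V_b35 : List P3 := [.mk 0 0 1, .mk 0 0 (-1), .mk 1 0 0, .mk 0 1 0, .mk (-3) (-2) 5]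
/-- Cells of the root `b35`. -/
def C_b35 : List (List F4) := [[.mk (-1) (-1) 1 1, .mk (-1) (-1) (-1) 1, .mk 1 0 0 0, .mk 0 1 0 0],
  [.mk (-2) 9 2 2, .mk (-2) (-1) (-2) 2, .mk 2 (-3) 0 0, .mk 0 (-1) 0 0],
  [.mk 8 (-3) 3 3, .mk (-2) (-3) (-3) 3, .mk (-2) 3 0 0, .mk (-1) 0 0 0],
  [.mk 5 5 6 (-5), .mk (-2) (-3) (-3) 3, .mk (-2) (-1) (-2) 2, .mk (-1) (-1) (-1) 1],
  [.mk (-5) (-5) (-6) 5, .mk 8 (-3) 3 3, .mk (-2) 9 2 2, .mk (-1) (-1) 1 1]]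
/-- Symmetries of the root `b35`. -/
def S_b35 : List M3 := [.mk 1 0 0 0 1 0 0 0 1]

/-- Points of the root `b37`. -/
def V_b37 : List P3 := [.mk 0 0 1, .mk 0 0 (-1), .mk 1 0 0, .mk 0 1 0, .mk (-3) (-2) 7]
/-- Cells of the root `b37`. -/
def C_b37 : List (List F4) := [[.mk (-1) (-1) 1 1, .mk (-1) (-1) (-1) 1, .mk 1 0 0 0, .mk 0 1 0 0],
  [.mk (-2) 11 2 2, .mk (-2) (-3) (-2) 2, .mk 2 (-3) 0 0, .mk 0 (-1) 0 0],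
  [.mk 10 (-3) 3 3, .mk (-4) (-3) (-3) 3, .mk (-2) 3 0 0, .mk (-1) 0 0 0],
  [.mk (-7) (-7) (-6) 7, .mk 4 3 3 (-3), .mk 2 3 2 (-2), .mk 1 1 1 (-1)],
  [.mk (-7) (-7) (-6) 7, .mk 10 (-3) 3 3, .mk (-2) 11 2 2, .mk (-1) (-1) 1 1]]
/-- Symmetries of the root `b37`. -/
def S_b37 : List M3 := [.mk 1 0 0 0 1 0 0 0 1]

/-- Points of the root `b311`. -/
def V_b311 : List P3 := [.mk 0 0 1, .mk 0 0 (-1), .mk 1 0 0, .mk 0 1 0, .mk (-3) (-2) 11]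
/-- Cells of the root `b311`. -/
def C_b311 : List (List F4) := [[.mk (-1) (-1) 1 1, .mk (-1) (-1) (-1) 1, .mk 1 0 0 0, .mk 0 1 0 0],
  [.mk (-2) 15 2 2, .mk (-2) (-7) (-2) 2, .mk 2 (-3) 0 0, .mk 0 (-1) 0 0],
  [.mk 14 (-3) 3 3, .mk (-8) (-3) (-3) 3, .mk (-2) 3 0 0, .mk (-1) 0 0 0],
  [.mk (-11) (-11) (-6) 11, .mk 8 3 3 (-3), .mk 2 7 2 (-2), .mk 1 1 1 (-1)],
  [.mk (-11) (-11) (-6) 11, .mk 14 (-3) 3 3, .mk (-2) 15 2 2, .mk (-1) (-1) 1 1]]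
/-- Symmetries of the root `b311`. -/
def S_b311 : List M3 := [.mk 1 0 0 0 1 0 0 0 1]

/-- Points of the root `bi3`. -/
def V_bi3 : List P3 := [.mk 0 0 1, .mk 0 0 (-1), .mk 1 0 0, .mk 1 3 1, .mk (-2) (-3) 2]
/-- Cells of the root `bi3`. -/
def C_bi3 : List (List F4) := [[.mk (-3) (-1) 3 3, .mk (-3) 1 (-3) 3, .mk 3 (-1) 0 0, .mk 0 1 0 0],
  [.mk (-3) 5 3 3, .mk (-3) 1 (-3) 3, .mk 3 (-2) 0 0, .mk 0 (-1) 0 0],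
  [.mk 15 (-7) 3 3, .mk (-3) 1 (-3) 3, .mk (-3) 2 0 0, .mk (-3) 1 0 0],
  [.mk (-3) 1 (-3) 3, .mk 15 (-7) 3 3, .mk (-3) 5 3 3, .mk (-3) (-1) 3 3]]
/-- Symmetries of the root `bi3`. -/
def S_bi3 : List M3 := [.mk 1 0 0 0 1 0 0 0 1,
  .mk 1 (-1) 0 3 (-2) 0 1 0 1,
  .mk (-2) 1 0 (-3) 1 0 2 (-1) 1]

/-- Points of the root `WU1`. -/
def V_WU1 : List P3 := [.mk 1 0 0, .mk 0 1 0, .mk (-1) (-1) 0, .mk 0 0 1]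
/-- Cells of the root `WU1`. -/
def C_WU1 : List (List F4) := [[.mk 2 (-1) (-1) 1, .mk (-1) 2 (-1) 1, .mk (-1) (-1) (-1) 1, .mk 0 0 1 0]]
/-- Symmetries of the root `WU1`. -/
def S_WU1 : List M3 := [.mk 1 0 0 0 1 0 0 0 1,
  .mk 1 (-1) 0 0 (-1) 0 0 0 1,
  .mk 0 1 0 1 0 0 0 0 1,
  .mk 0 (-1) 0 1 (-1) 0 0 0 1,
  .mk (-1) 1 0 (-1) 0 0 0 0 1,
  .mk (-1) 0 0 (-1) 1 0 0 0 1]

/-- Points of the root `WUh`. -/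
def V_WUh : List P3 := [.mk 1 0 0, .mk 0 1 0, .mk (-1) (-1) 0, .mk 0 0 1]
/-- Cells of the root `WUh`. -/
def C_WUh : List (List F4) := [[.mk 2 (-1) (-1) 1, .mk (-1) 2 (-1) 1, .mk (-1) (-1) (-1) 1, .mk 0 0 1 0]]
/-- Symmetries of the root `WUh`. -/
def S_WUh : List M3 := [.mk 1 0 0 0 1 0 0 0 1]

/-- Points of the root `WH1`. -/
def V_WH1 : List P3 := [.mk 1 0 0, .mk 0 1 0, .mk (-1) (-1) 0, .mk 1 (-1) 3]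
/-- Cells of the root `WH1`. -/
def C_WH1 : List (List F4) := [[.mk 6 (-3) (-4) 3, .mk (-3) 6 2 3, .mk (-3) (-3) (-1) 3, .mk 0 0 1 0]]
/-- Symmetries of the root `WH1`. -/
def S_WH1 : List M3 := [.mk 1 0 0 0 1 0 0 0 1]

/-- Points of the root `WHh`. -/
def V_WHh : List P3 := [.mk 1 0 0, .mk 0 1 0, .mk (-1) (-1) 0, .mk 1 (-1) 3]
/-- Cells of the root `WHh`. -/
def C_WHh : List (List F4) := [[.mk 6 (-3) (-4) 3, .mk (-3) 6 2 3, .mk (-3) (-3) (-1) 3, .mk 0 0 1 0]]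
/-- Symmetries of the root `WHh`. -/
def S_WHh : List M3 := [.mk 1 0 0 0 1 0 0 0 1]

/-- Points of the root `TU1`. -/
def V_TU1 : List P3 := [.mk 1 1 0, .mk (-1) 1 0, .mk 0 (-1) 0, .mk 0 0 1]
/-- Cells of the root `TU1`. -/
def C_TU1 : List (List F4) := [[.mk 2 1 (-1) 1, .mk (-2) 1 (-1) 1, .mk 0 (-1) (-1) 1, .mk 0 0 1 0]]
/-- Symmetries of the root `TU1`. -/
def S_TU1 : List M3 := [.mk 1 0 0 0 1 0 0 0 1,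
  .mk (-1) 0 0 0 1 0 0 0 1]

/-- Points of the root `TUh`. -/
def V_TUh : List P3 := [.mk 1 1 0, .mk (-1) 1 0, .mk 0 (-1) 0, .mk 0 0 1]
/-- Cells of the root `TUh`. -/
def C_TUh : List (List F4) := [[.mk 2 1 (-1) 1, .mk (-2) 1 (-1) 1, .mk 0 (-1) (-1) 1, .mk 0 0 1 0]]
/-- Symmetries of the root `TUh`. -/
def S_TUh : List M3 := [.mk 1 0 0 0 1 0 0 0 1]

/-- Points of the root `TH1`. -/
def V_TH1 : List P3 := [.mk 1 1 0, .mk (-1) 1 0, .mk 0 (-1) 0, .mk 1 0 2]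
/-- Cells of the root `TH1`. -/
def C_TH1 : List (List F4) := [[.mk 4 2 (-3) 2, .mk (-4) 2 1 2, .mk 0 (-2) (-1) 2, .mk 0 0 1 0]]
/-- Symmetries of the root `TH1`. -/
def S_TH1 : List M3 := [.mk 1 0 0 0 1 0 0 0 1]

/-- Points of the root `THh`. -/
def V_THh : List P3 := [.mk 1 1 0, .mk (-1) 1 0, .mk 0 (-1) 0, .mk 1 0 2]
/-- Cells of the root `THh`. -/
def C_THh : List (List F4) := [[.mk 4 2 (-3) 2, .mk (-4) 2 1 2, .mk 0 (-2) (-1) 2, .mk 0 0 1 0]]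
/-- Symmetries of the root `THh`. -/
def S_THh : List M3 := [.mk 1 0 0 0 1 0 0 0 1]

/-- Points of the root `DU1`. -/
def V_DU1 : List P3 := [.mk 1 0 0, .mk (-1) 0 0, .mk 0 1 0, .mk 0 (-1) 0, .mk 0 0 1]
/-- Cells of the root `DU1`. -/
def C_DU1 : List (List F4) := [[.mk 1 (-1) (-1) 1, .mk (-1) (-1) (-1) 1, .mk 0 1 0 0, .mk 0 0 1 0],
  [.mk 1 1 (-1) 1, .mk (-1) 1 (-1) 1, .mk 0 (-1) 0 0, .mk 0 0 1 0],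
  [.mk 1 0 0 0, .mk (-1) 1 (-1) 1, .mk (-1) (-1) (-1) 1, .mk 0 0 1 0],
  [.mk (-1) 0 0 0, .mk 1 1 (-1) 1, .mk 1 (-1) (-1) 1, .mk 0 0 1 0]]
/-- Symmetries of the root `DU1`. -/
def S_DU1 : List M3 := [.mk 1 0 0 0 1 0 0 0 1,
  .mk 1 0 0 0 (-1) 0 0 0 1,
  .mk (-1) 0 0 0 1 0 0 0 1,
  .mk (-1) 0 0 0 (-1) 0 0 0 1,
  .mk 0 1 0 1 0 0 0 0 1,
  .mk 0 (-1) 0 1 0 0 0 0 1,
  .mk 0 1 0 (-1) 0 0 0 0 1,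
  .mk 0 (-1) 0 (-1) 0 0 0 0 1]

/-- Points of the root `DUh`. -/
def V_DUh : List P3 := [.mk 1 0 0, .mk (-1) 0 0, .mk 0 1 0, .mk 0 (-1) 0, .mk 0 0 1]
/-- Cells of the root `DUh`. -/
def C_DUh : List (List F4) := [[.mk 1 (-1) (-1) 1, .mk (-1) (-1) (-1) 1, .mk 0 1 0 0, .mk 0 0 1 0],
  [.mk 1 1 (-1) 1, .mk (-1) 1 (-1) 1, .mk 0 (-1) 0 0, .mk 0 0 1 0],
  [.mk 1 0 0 0, .mk (-1) 1 (-1) 1, .mk (-1) (-1) (-1) 1, .mk 0 0 1 0],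
  [.mk (-1) 0 0 0, .mk 1 1 (-1) 1, .mk 1 (-1) (-1) 1, .mk 0 0 1 0]]
/-- Symmetries of the root `DUh`. -/
def S_DUh : List M3 := [.mk 1 0 0 0 1 0 0 0 1]

/-- Points of the root `DH1`. -/
def V_DH1 : List P3 := [.mk 1 0 0, .mk (-1) 0 0, .mk 0 1 0, .mk 0 (-1) 0, .mk 1 1 2]
/-- Cells of the root `DH1`. -/
def C_DH1 : List (List F4) := [[.mk 2 (-2) (-1) 2, .mk (-2) (-2) 1 2, .mk 0 2 (-1) 0, .mk 0 0 1 0],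
  [.mk 2 2 (-3) 2, .mk (-2) 2 (-1) 2, .mk 0 (-2) 1 0, .mk 0 0 1 0],
  [.mk 2 0 (-1) 0, .mk (-2) 2 (-1) 2, .mk (-2) (-2) 1 2, .mk 0 0 1 0],
  [.mk (-2) 0 1 0, .mk 2 2 (-3) 2, .mk 2 (-2) (-1) 2, .mk 0 0 1 0]]
/-- Symmetries of the root `DH1`. -/
def S_DH1 : List M3 := [.mk 1 0 0 0 1 0 0 0 1]

/-- Points of the root `DHh`. -/
def V_DHh : List P3 := [.mk 1 0 0, .mk (-1) 0 0, .mk 0 1 0, .mk 0 (-1) 0, .mk 1 1 2]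
/-- Cells of the root `DHh`. -/
def C_DHh : List (List F4) := [[.mk 2 (-2) (-1) 2, .mk (-2) (-2) 1 2, .mk 0 2 (-1) 0, .mk 0 0 1 0],
  [.mk 2 2 (-3) 2, .mk (-2) 2 (-1) 2, .mk 0 (-2) 1 0, .mk 0 0 1 0],
  [.mk 2 0 (-1) 0, .mk (-2) 2 (-1) 2, .mk (-2) (-2) 1 2, .mk 0 0 1 0],
  [.mk (-2) 0 1 0, .mk 2 2 (-3) 2, .mk 2 (-2) (-1) 2, .mk 0 0 1 0]]
/-- Symmetries of the root `DHh`. -/
def S_DHh : List M3 := [.mk 1 0 0 0 1 0 0 0 1]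

end Pool.Agent.Lib.MP_0bc52e_nt.K
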