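import Pool.Agent.Lib.MP_0bc52e_nt.K.All
import Pool.Agent.Lib.MP_0bc52e_nt.K.Data

/-!
Lemmas for the assembly of the certificates (MP_0bc52e_nt).
-/

noncomputable section

namespace Pool.Agent.Lib.MP_0bc52e_nt.K

open Pool.Agent.Lib.MP_0bc52e_nt.LC Pool.Agent.Lib.MP_0bc52e_nt.T Pool.Agent.Lib.MP_0bc52e_nt.R

lemma cellOK_cons {PP : Set (ℝ × ℝ × ℝ) → Prop} {V : List P3} {F : List F4} {l : List (List F4)}
    (h : CellOK PP V [F]) (h' : CellOK PP V l) : CellOK PP V (F :: l) := by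
  intro G hG
  rcases List.mem_cons.1 hG with rfl | hG
  · exact h G (List.mem_singleton.2 rfl)
  · exact h' G hG

lemma all_bxs {PP : Set (ℝ × ℝ × ℝ) → Prop} {p : ℤ} {D : ℤ × ℤ × ℤ → Prop} {V : List P3} :
    ∀ {L : List (ℤ × ℤ)}, All PP p 1 1 D V (bxs p L) →
      ∀ e ∈ L, GO PP p 1 1 D V 0 (p - 1) 0 (p - 1) e.1 e.2 := by
  intro L
  induction L with
  | nil => intro _ e he; exact absurd he (List.not_mem_nil)
  | cons a L ih =>
    intro h e he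
    have h' : GO PP p 1 1 D V 0 (p - 1) 0 (p - 1) a.1 a.2 ∧ All PP p 1 1 D V (bxs p L) := h
    rcases List.mem_cons.1 he with rfl | he
    · exact h'.1
    · exact ih h'.2 e he

lemma deadA {PP : Set (ℝ × ℝ × ℝ) → Prop} {p : ℤ} {L : List (ℤ × ℤ)} {V : List P3} {cells : List (List F4)}
    {fs : List (List Fam)} {syms : List M3} {fuel : ℕ} {cs : List ℕ} (hp : 0 < p) (hcls : Cls PP)
    (hc : CellOK PP V cells) (hf : FamOK PP fs) (hs : SymOK PP p (DA p L) V (I3 :: syms))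
    (hk : loop 1 1 p p 1 cells V fs syms fuel 0 cs (bxs p L) = true) :
    ∀ r : ℤ, 0 ≤ r → r < p → inl L r = true → Sd PP p V r :=
  q_sd PP p V L hp (all_bxs (q_coreP PP p (DA p L) V cells fs syms hp hcls hc hf hs fuel 0 cs _ hk))

lemma dead0 {p T : ℤ} {V : List P3} {cells : List (List F4)} {syms : List M3} {fuel : ℕ} {cs : List ℕ}
    (hp : 0 < p) (hT : T = p - 1) (hc : CellOK PP0 V cells) (hs : ckL V syms = true)
    (hk : loop 1 1 p p 1 cells V F_0 syms fuel 0 cs (bxs p [(0, T)]) = true) :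
    ∀ u, Dd PP0 p V u := by
  subst hT
  refine q_sdA PP0 p V hp ?_
  exact all_bxs (q_coreP PP0 p (DA p [(0, p - 1)]) V cells F_0 syms hp q_cls.1 hc q_fam.1
    (q_sym0 V syms p hp hs) fuel 0 cs _ hk) (0, p - 1) (List.mem_singleton.2 rfl)

/-- The domain of the uniform trees. -/
def DU (p : ℤ) (u : ℤ × ℤ × ℤ) : Prop :=
  (0 ≤ u.1 ∧ u.1 ≤ p) ∧ (0 ≤ u.2.1 ∧ u.2.1 ≤ p) ∧ (0 ≤ u.2.2 ∧ u.2.2 ≤ p)

lemma goU {P0 M p : ℤ} {V : List P3} {cells : List (List F4)} {fuel : ℕ} {cs : List ℕ} {c d : ℤ}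
    (hc : CellOK PP0 V cells) (hM : 0 < M) (hp : P0 ≤ p)
    (hk : loop P0 M (P0 * M) P0 0 cells V [] [] fuel 0 cs (.o c d 0 M 0 M .nil) = true) :
    GO PP0 p p M (DU p) V c d 0 M 0 M :=
  (q_coreU PP0 P0 M p (DU p) V cells [] [] q_cls.1 hc hM hp fuel 0 cs _ trivial hk).1

lemma goJ {p M c m d : ℤ} {V : List P3} (h : GO PP0 p p M (DU p) V c m 0 M 0 M)
    (h' : GO PP0 p p M (DU p) V m d 0 M 0 M) : GO PP0 p p M (DU p) V c d 0 M 0 M := by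
  refine (q_GOs PP0 p p M (DU p) V c d 0 M 0 M m 0 (Or.inl rfl)).1 h ?_
  simpa using h'

lemma endU {p M : ℤ} {V : List P3} (hp : 0 < p) (hM : 0 < M) (h : GO PP0 p p M (DU p) V 0 M 0 M 0 M) :
    ∀ u, Dd PP0 p V u := q_sdU PP0 p M V hp hM h

lemma covq {PP PP' : Set (ℝ × ℝ × ℝ) → Prop} (p : ℕ) {q : ℤ} {V V' : List P3} {L L' : List (ℤ × ℤ)}
    (hq : (p : ℤ) = q) (hp : 0 < p) (hc : cov p L L' = true)
    (h : ∀ r : ℤ, 0 ≤ r → r < q → inl L r = true → Sd PP q V r)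
    (h' : ∀ r : ℤ, 0 ≤ r → r < q → inl L' r = true → Sd PP' q V' r) :
    ∀ r : ℤ, Sd PP q V r ∨ Sd PP' q V' (-r) := by
  subst hq
  exact q_cov PP PP' p V V' L L' hp hc h h'

lemma theta_all {P : List P3 → Prop} (h1 : P V_th4) (h2 : P V_th5) (h3 : P V_th7) (h4 : P V_th11)
    (h5 : P V_th13) (h6 : P V_th17) (h7 : P V_th19) (h8 : P V_th20) : ∀ R ∈ Theta, P (R.map toP) := by
  intro R hR
  simp only [Theta, List.mem_cons, List.not_mem_nil, or_false] at hR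
  rcases hR with rfl | rfl | rfl | rfl | rfl | rfl | rfl | rfl
  exacts [h1, h2, h3, h4, h5, h6, h7, h8]

lemma beta_all {P : List P3 → Prop} (h1 : P V_b11) (h2 : P V_b12) (h3 : P V_b13) (h4 : P V_b14)
    (h5 : P V_b15) (h6 : P V_b21) (h7 : P V_b23) (h8 : P V_b25) (h9 : P V_b27) (h10 : P V_b31)
    (h11 : P V_b35) (h12 : P V_b37) (h13 : P V_b311) (h14 : P V_bi3) : ∀ R ∈ Beta, P (R.map toP) := by
  intro R hR
  simp only [Beta, List.mem_cons, List.not_mem_nil, or_false] at hR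
  rcases hR with rfl | rfl | rfl | rfl | rfl | rfl | rfl | rfl | rfl | rfl | rfl | rfl | rfl | rfl
  exacts [h1, h2, h3, h4, h5, h6, h7, h8, h9, h10, h11, h12, h13, h14]

/-- The planar part of `DeadAll` for one base. -/
def PA (q : ℤ) (b : Fin 3) : Prop :=
  (∀ r, Sd PP1 q (VU b) r ∨ Sd PP1 q (VU b) (-r)) ∧
    (∀ r, Sd (PPh b) q (VU b) r ∨ Sd PP1 q (VH b) (-r)) ∧ (∀ r, Sd (PPh b) q (VH b) r ∨ Sd (PPh b) q (VH b) (-r))

lemma mkDead (p : ℕ) {q : ℤ} (hq : (p : ℤ) = q) (ht : ∀ R ∈ Theta, ∀ u, Dd PP0 q (R.map toP) u)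
    (hb : ∀ R ∈ Beta, ∀ u, Dd PP0 q (R.map toP) u) (h0 : PA q 0) (h1 : PA q 1) (h2 : PA q 2) : DeadAll p := by
  subst hq
  refine ⟨ht, hb, fun b => ?_⟩
  fin_cases b
  exacts [h0, h1, h2]

end Pool.Agent.Lib.MP_0bc52e_nt.K

end
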