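import Pool.Agent.Lib.MP_0bc52e_nt.K.C.c000
import Pool.Agent.Lib.MP_0bc52e_nt.K.C.c001
import Pool.Agent.Lib.MP_0bc52e_nt.K.C.c002
import Pool.Agent.Lib.MP_0bc52e_nt.K.C.c003
import Pool.Agent.Lib.MP_0bc52e_nt.K.C.c004
import Pool.Agent.Lib.MP_0bc52e_nt.K.C.c005
import Pool.Agent.Lib.MP_0bc52e_nt.K.C.c006
import Pool.Agent.Lib.MP_0bc52e_nt.K.C.c007
import Pool.Agent.Lib.MP_0bc52e_nt.K.C.c008
import Pool.Agent.Lib.MP_0bc52e_nt.K.C.c009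
import Pool.Agent.Lib.MP_0bc52e_nt.K.C.c010
import Pool.Agent.Lib.MP_0bc52e_nt.K.C.c011
import Pool.Agent.Lib.MP_0bc52e_nt.K.C.c012
import Pool.Agent.Lib.MP_0bc52e_nt.K.C.c013
import Pool.Agent.Lib.MP_0bc52e_nt.K.C.c014
import Pool.Agent.Lib.MP_0bc52e_nt.K.C.c015
import Pool.Agent.Lib.MP_0bc52e_nt.K.C.c016
import Pool.Agent.Lib.MP_0bc52e_nt.K.C.c017
import Pool.Agent.Lib.MP_0bc52e_nt.K.C.c018
import Pool.Agent.Lib.MP_0bc52e_nt.K.C.c019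
import Pool.Agent.Lib.MP_0bc52e_nt.K.C.c020
import Pool.Agent.Lib.MP_0bc52e_nt.K.C.c021
import Pool.Agent.Lib.MP_0bc52e_nt.K.C.c022
import Pool.Agent.Lib.MP_0bc52e_nt.K.C.c023
import Pool.Agent.Lib.MP_0bc52e_nt.K.C.c024
import Pool.Agent.Lib.MP_0bc52e_nt.K.C.c025
import Pool.Agent.Lib.MP_0bc52e_nt.K.C.c026
import Pool.Agent.Lib.MP_0bc52e_nt.K.C.c027
import Pool.Agent.Lib.MP_0bc52e_nt.K.C.c028
import Pool.Agent.Lib.MP_0bc52e_nt.K.C.c029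
import Pool.Agent.Lib.MP_0bc52e_nt.K.C.c030
import Pool.Agent.Lib.MP_0bc52e_nt.K.C.c031
import Pool.Agent.Lib.MP_0bc52e_nt.K.C.c032
import Pool.Agent.Lib.MP_0bc52e_nt.K.C.c033
import Pool.Agent.Lib.MP_0bc52e_nt.K.C.c034
import Pool.Agent.Lib.MP_0bc52e_nt.K.C.c035
import Pool.Agent.Lib.MP_0bc52e_nt.K.C.c036
import Pool.Agent.Lib.MP_0bc52e_nt.K.C.c037
import Pool.Agent.Lib.MP_0bc52e_nt.K.C.c038
import Pool.Agent.Lib.MP_0bc52e_nt.K.C.c039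
import Pool.Agent.Lib.MP_0bc52e_nt.K.C.c040
import Pool.Agent.Lib.MP_0bc52e_nt.K.C.c041
import Pool.Agent.Lib.MP_0bc52e_nt.K.C.c042
import Pool.Agent.Lib.MP_0bc52e_nt.K.C.c043
import Pool.Agent.Lib.MP_0bc52e_nt.K.C.c044
import Pool.Agent.Lib.MP_0bc52e_nt.K.C.c045
import Pool.Agent.Lib.MP_0bc52e_nt.K.C.c046
import Pool.Agent.Lib.MP_0bc52e_nt.K.C.c047
import Pool.Agent.Lib.MP_0bc52e_nt.K.C.c048
import Pool.Agent.Lib.MP_0bc52e_nt.K.C.c049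
import Pool.Agent.Lib.MP_0bc52e_nt.K.C.c050
import Pool.Agent.Lib.MP_0bc52e_nt.K.C.c051
import Pool.Agent.Lib.MP_0bc52e_nt.K.C.c052
import Pool.Agent.Lib.MP_0bc52e_nt.K.C.c053
import Pool.Agent.Lib.MP_0bc52e_nt.K.C.c054
import Pool.Agent.Lib.MP_0bc52e_nt.K.C.c055
import Pool.Agent.Lib.MP_0bc52e_nt.K.C.c056
import Pool.Agent.Lib.MP_0bc52e_nt.K.C.c057
import Pool.Agent.Lib.MP_0bc52e_nt.K.C.c058
import Pool.Agent.Lib.MP_0bc52e_nt.K.C.c059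
import Pool.Agent.Lib.MP_0bc52e_nt.K.C.c060
import Pool.Agent.Lib.MP_0bc52e_nt.K.C.c061
import Pool.Agent.Lib.MP_0bc52e_nt.K.C.c062
import Pool.Agent.Lib.MP_0bc52e_nt.K.C.c063
import Pool.Agent.Lib.MP_0bc52e_nt.K.C.c064
import Pool.Agent.Lib.MP_0bc52e_nt.K.C.c065
import Pool.Agent.Lib.MP_0bc52e_nt.K.C.c066
import Pool.Agent.Lib.MP_0bc52e_nt.K.C.c067
import Pool.Agent.Lib.MP_0bc52e_nt.K.C.c068
import Pool.Agent.Lib.MP_0bc52e_nt.K.C.c069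
import Pool.Agent.Lib.MP_0bc52e_nt.K.C.c070
import Pool.Agent.Lib.MP_0bc52e_nt.K.C.c071
import Pool.Agent.Lib.MP_0bc52e_nt.K.C.c072
import Pool.Agent.Lib.MP_0bc52e_nt.K.C.c073
import Pool.Agent.Lib.MP_0bc52e_nt.K.C.c074
import Pool.Agent.Lib.MP_0bc52e_nt.K.C.c075
import Pool.Agent.Lib.MP_0bc52e_nt.K.C.c076
import Pool.Agent.Lib.MP_0bc52e_nt.K.C.c077

/-! All certificates (MP_0bc52e_nt). -/
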