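import Pool.Agent.Lib.MP_0bc52e_nt.K.AsmL

/-!
The cells and symmetries of the roots (MP_0bc52e_nt).
-/

namespace Pool.Agent.Lib.MP_0bc52e_nt.K

open Pool.Agent.Lib.MP_0bc52e_nt.LC Pool.Agent.Lib.MP_0bc52e_nt.T Pool.Agent.Lib.MP_0bc52e_nt.R

lemma cell_th4 {PP : Set (ℝ × ℝ × ℝ) → Prop} (h : Cls PP) : CellOK PP V_th4 C_th4 :=
  q_cell4 PP V_th4 (-1) (-1) (-1) 1 3 (-1) (-1) 1 (-1) 3 (-1) 1 (-1) (-1) 3 1 (-1) (-1) (-1) 1 0 0 0 1 0 0 0 1 1 1 1 1 4 h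
    (by norm_num) (by norm_num) (by norm_num) (by norm_num) (by norm_num) (by norm_num) (by simp [V_th4])

lemma ck_th4 : ckL V_th4 S_th4 = true := by decide +kernel

lemma cell_th5 {PP : Set (ℝ × ℝ × ℝ) → Prop} (h : Cls PP) : CellOK PP V_th5 C_th5 :=
  q_cell4 PP V_th5 (-1) (-1) (-1) 1 4 (-1) (-1) 1 (-1) 4 (-1) 1 (-2) (-2) 3 2 (-1) (-1) (-2) 1 0 0 0 1 0 0 0 1 1 1 1 1 5 h
    (by norm_num) (by norm_num) (by norm_num) (by norm_num) (by norm_num) (by norm_num) (by simp [V_th5])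

lemma ck_th5 : ckL V_th5 S_th5 = true := by decide +kernel

lemma cell_th7 {PP : Set (ℝ × ℝ × ℝ) → Prop} (h : Cls PP) : CellOK PP V_th7 C_th7 :=
  q_cell4 PP V_th7 (-1) (-1) (-1) 1 6 (-1) (-1) 1 (-2) 5 (-2) 2 (-3) (-3) 4 3 (-1) (-2) (-3) 1 0 0 0 1 0 0 0 1 1 1 1 1 7 h
    (by norm_num) (by norm_num) (by norm_num) (by norm_num) (by norm_num) (by norm_num) (by simp [V_th7])

lemma ck_th7 : ckL V_th7 S_th7 = true := by decide +kernel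

lemma cell_th11 {PP : Set (ℝ × ℝ × ℝ) → Prop} (h : Cls PP) : CellOK PP V_th11 C_th11 :=
  q_cell4 PP V_th11 (-1) (-1) (-1) 1 9 (-2) (-2) 2 (-3) 8 (-3) 3 (-5) (-5) 6 5 (-2) (-3) (-5) 1 0 0 0 1 0 0 0 1 1 1 1 1 11 h
    (by norm_num) (by norm_num) (by norm_num) (by norm_num) (by norm_num) (by norm_num) (by simp [V_th11])

lemma ck_th11 : ckL V_th11 S_th11 = true := by decide +kernel

lemma cell_th13 {PP : Set (ℝ × ℝ × ℝ) → Prop} (h : Cls PP) : CellOK PP V_th13 C_th13 :=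
  q_cell4 PP V_th13 (-1) (-1) (-1) 1 10 (-3) (-3) 3 (-4) 9 (-4) 4 (-5) (-5) 8 5 (-3) (-4) (-5) 1 0 0 0 1 0 0 0 1 1 1 1 1 13 h
    (by norm_num) (by norm_num) (by norm_num) (by norm_num) (by norm_num) (by norm_num) (by simp [V_th13])

lemma ck_th13 : ckL V_th13 S_th13 = true := by decide +kernel

lemma cell_th17 {PP : Set (ℝ × ℝ × ℝ) → Prop} (h : Cls PP) : CellOK PP V_th17 C_th17 :=
  q_cell4 PP V_th17 (-2) (-2) (-1) 2 (-3) (-3) (-10) 3 12 (-5) 6 5 (-7) 10 5 7 (-4) (-5) 3 1 1 (-2) 1 0 0 0 1 0 1 1 1 1 17 h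
    (by norm_num) (by norm_num) (by norm_num) (by norm_num) (by norm_num) (by norm_num) (by simp [V_th17])

lemma ck_th17 : ckL V_th17 S_th17 = true := by decide +kernel

lemma cell_th19 {PP : Set (ℝ × ℝ × ℝ) → Prop} (h : Cls PP) : CellOK PP V_th19 C_th19 :=
  q_cell4 PP V_th19 (-3) (-3) 4 3 (-4) (-4) (-1) 4 14 (-5) (-6) 5 (-7) 12 3 7 1 (-1) 4 (-2) (-1) (-3) 1 0 0 0 1 0 1 1 1 1 19 h
    (by norm_num) (by norm_num) (by norm_num) (by norm_num) (by norm_num) (by norm_num) (by simp [V_th19])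

lemma ck_th19 : ckL V_th19 S_th19 = true := by decide +kernel

lemma cell_th20 {PP : Set (ℝ × ℝ × ℝ) → Prop} (h : Cls PP) : CellOK PP V_th20 C_th20 :=
  q_cell4 PP V_th20 (-6) (-5) (-5) 5 (-2) (-5) (-5) 5 2 15 (-5) 5 6 (-5) 15 5 (-5) 1 2 5 (-2) (-3) 0 1 0 0 0 1 1 1 1 1 20 h
    (by norm_num) (by norm_num) (by norm_num) (by norm_num) (by norm_num) (by norm_num) (by simp [V_th20])

lemma ck_th20 : ckL V_th20 S_th20 = true := by decide +kernel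

lemma cell_b11 {PP : Set (ℝ × ℝ × ℝ) → Prop} (h : Cls PP) : CellOK PP V_b11 C_b11 :=
  cellOK_cons (q_cell4 PP V_b11 (-1) (-1) 1 1 (-1) (-1) (-1) 1 1 0 0 0 0 1 0 0 0 0 1 0 0 (-1) 1 0 0 0 1 0 1 1 2 2 2 h
    (by norm_num) (by norm_num) (by norm_num) (by norm_num) (by norm_num) (by norm_num) (by simp [V_b11])) <|
  cellOK_cons (q_cell4 PP V_b11 (-1) 3 1 1 (-1) 1 (-1) 1 1 (-1) 0 0 0 (-1) 0 0 0 0 1 0 0 (-1) 1 0 0 (-1) (-1) 1 1 1 2 2 2 h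
    (by norm_num) (by norm_num) (by norm_num) (by norm_num) (by norm_num) (by norm_num) (by simp [V_b11])) <|
  cellOK_cons (q_cell4 PP V_b11 3 (-1) 1 1 1 (-1) (-1) 1 (-1) 1 0 0 (-1) 0 0 0 0 0 1 0 0 (-1) 0 1 0 (-1) (-1) 1 1 1 2 2 2 h
    (by norm_num) (by norm_num) (by norm_num) (by norm_num) (by norm_num) (by norm_num) (by simp [V_b11])) <|
  cellOK_cons (q_cell4 PP V_b11 1 1 3 (-1) 1 (-1) (-1) 1 (-1) 1 (-1) 1 (-1) (-1) (-1) 1 0 0 1 1 0 0 0 1 0 (-1) (-1) 1 1 1 1 1 2 h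
    (by norm_num) (by norm_num) (by norm_num) (by norm_num) (by norm_num) (by norm_num) (by simp [V_b11])) <|
  q_cell4 PP V_b11 (-1) (-1) (-3) 1 3 (-1) 1 1 (-1) 3 1 1 (-1) (-1) 1 1 0 0 (-1) 1 0 0 0 1 0 (-1) (-1) 1 1 1 1 1 4 h
    (by norm_num) (by norm_num) (by norm_num) (by norm_num) (by norm_num) (by norm_num) (by simp [V_b11])

lemma ck_b11 : ckL V_b11 S_b11 = true := by decide +kernel

lemma cell_b12 {PP : Set (ℝ × ℝ × ℝ) → Prop} (h : Cls PP) : CellOK PP V_b12 C_b12 :=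
  cellOK_cons (q_cell4 PP V_b12 (-1) (-1) 1 1 (-1) (-1) (-1) 1 1 0 0 0 0 1 0 0 0 0 1 0 0 (-1) 1 0 0 0 1 0 1 1 2 2 2 h
    (by norm_num) (by norm_num) (by norm_num) (by norm_num) (by norm_num) (by norm_num) (by simp [V_b12])) <|
  cellOK_cons (q_cell4 PP V_b12 (-1) 4 1 1 (-1) 0 (-1) 1 1 (-1) 0 0 0 (-1) 0 0 0 0 1 0 0 (-1) 1 0 0 (-1) (-1) 2 1 1 2 2 2 h
    (by norm_num) (by norm_num) (by norm_num) (by norm_num) (by norm_num) (by norm_num) (by simp [V_b12])) <|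
  cellOK_cons (q_cell4 PP V_b12 4 (-1) 1 1 0 (-1) (-1) 1 (-1) 1 0 0 (-1) 0 0 0 0 0 1 0 0 (-1) 0 1 0 (-1) (-1) 2 1 1 2 2 2 h
    (by norm_num) (by norm_num) (by norm_num) (by norm_num) (by norm_num) (by norm_num) (by simp [V_b12])) <|
  cellOK_cons (q_cell4 PP V_b12 2 2 3 (-2) 0 (-1) (-1) 1 (-1) 0 (-1) 1 (-1) (-1) (-1) 1 0 0 1 1 0 0 0 1 0 (-1) (-1) 2 1 1 1 1 1 h
    (by norm_num) (by norm_num) (by norm_num) (by norm_num) (by norm_num) (by norm_num) (by simp [V_b12])) <|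
  q_cell4 PP V_b12 (-2) (-2) (-3) 2 4 (-1) 1 1 (-1) 4 1 1 (-1) (-1) 1 1 0 0 (-1) 1 0 0 0 1 0 (-1) (-1) 2 1 1 1 1 5 h
    (by norm_num) (by norm_num) (by norm_num) (by norm_num) (by norm_num) (by norm_num) (by simp [V_b12])

lemma ck_b12 : ckL V_b12 S_b12 = true := by decide +kernel

lemma cell_b13 {PP : Set (ℝ × ℝ × ℝ) → Prop} (h : Cls PP) : CellOK PP V_b13 C_b13 :=
  cellOK_cons (q_cell4 PP V_b13 (-1) (-1) 1 1 (-1) (-1) (-1) 1 1 0 0 0 0 1 0 0 0 0 1 0 0 (-1) 1 0 0 0 1 0 1 1 2 2 2 h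
    (by norm_num) (by norm_num) (by norm_num) (by norm_num) (by norm_num) (by norm_num) (by simp [V_b13])) <|
  cellOK_cons (q_cell4 PP V_b13 (-1) 5 1 1 (-1) (-1) (-1) 1 1 (-1) 0 0 0 (-1) 0 0 0 0 1 0 0 (-1) 1 0 0 (-1) (-1) 3 1 1 2 2 2 h
    (by norm_num) (by norm_num) (by norm_num) (by norm_num) (by norm_num) (by norm_num) (by simp [V_b13])) <|
  cellOK_cons (q_cell4 PP V_b13 5 (-1) 1 1 (-1) (-1) (-1) 1 (-1) 1 0 0 (-1) 0 0 0 0 0 1 0 0 (-1) 0 1 0 (-1) (-1) 3 1 1 2 2 2 h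
    (by norm_num) (by norm_num) (by norm_num) (by norm_num) (by norm_num) (by norm_num) (by simp [V_b13])) <|
  q_cell4 PP V_b13 (-1) (-1) (-1) 1 5 (-1) 1 1 (-1) 5 1 1 (-1) (-1) 1 1 0 0 (-1) 1 0 0 0 1 0 (-1) (-1) 3 3 1 1 1 6 h
    (by norm_num) (by norm_num) (by norm_num) (by norm_num) (by norm_num) (by norm_num) (by simp [V_b13])

lemma ck_b13 : ckL V_b13 S_b13 = true := by decide +kernel

lemma cell_b14 {PP : Set (ℝ × ℝ × ℝ) → Prop} (h : Cls PP) : CellOK PP V_b14 C_b14 :=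
  cellOK_cons (q_cell4 PP V_b14 (-1) (-1) 1 1 (-1) (-1) (-1) 1 1 0 0 0 0 1 0 0 0 0 1 0 0 (-1) 1 0 0 0 1 0 1 1 2 2 2 h
    (by norm_num) (by norm_num) (by norm_num) (by norm_num) (by norm_num) (by norm_num) (by simp [V_b14])) <|
  cellOK_cons (q_cell4 PP V_b14 (-1) 6 1 1 (-1) (-2) (-1) 1 1 (-1) 0 0 0 (-1) 0 0 0 0 1 0 0 (-1) 1 0 0 (-1) (-1) 4 1 1 2 2 2 h
    (by norm_num) (by norm_num) (by norm_num) (by norm_num) (by norm_num) (by norm_num) (by simp [V_b14])) <|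
  cellOK_cons (q_cell4 PP V_b14 6 (-1) 1 1 (-2) (-1) (-1) 1 (-1) 1 0 0 (-1) 0 0 0 0 0 1 0 0 (-1) 0 1 0 (-1) (-1) 4 1 1 2 2 2 h
    (by norm_num) (by norm_num) (by norm_num) (by norm_num) (by norm_num) (by norm_num) (by simp [V_b14])) <|
  cellOK_cons (q_cell4 PP V_b14 (-4) (-4) (-3) 4 2 1 1 (-1) 1 2 1 (-1) 1 1 1 (-1) 0 0 1 1 0 0 0 1 0 (-1) (-1) 4 1 1 1 1 1 h
    (by norm_num) (by norm_num) (by norm_num) (by norm_num) (by norm_num) (by norm_num) (by simp [V_b14])) <|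
  q_cell4 PP V_b14 (-4) (-4) (-3) 4 6 (-1) 1 1 (-1) 6 1 1 (-1) (-1) 1 1 0 0 (-1) 1 0 0 0 1 0 (-1) (-1) 4 1 1 1 1 7 h
    (by norm_num) (by norm_num) (by norm_num) (by norm_num) (by norm_num) (by norm_num) (by simp [V_b14])

lemma ck_b14 : ckL V_b14 S_b14 = true := by decide +kernel

lemma cell_b15 {PP : Set (ℝ × ℝ × ℝ) → Prop} (h : Cls PP) : CellOK PP V_b15 C_b15 :=
  cellOK_cons (q_cell4 PP V_b15 (-1) (-1) 1 1 (-1) (-1) (-1) 1 1 0 0 0 0 1 0 0 0 0 1 0 0 (-1) 1 0 0 0 1 0 1 1 2 2 2 h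
    (by norm_num) (by norm_num) (by norm_num) (by norm_num) (by norm_num) (by norm_num) (by simp [V_b15])) <|
  cellOK_cons (q_cell4 PP V_b15 (-1) 7 1 1 (-1) (-3) (-1) 1 1 (-1) 0 0 0 (-1) 0 0 0 0 1 0 0 (-1) 1 0 0 (-1) (-1) 5 1 1 2 2 2 h
    (by norm_num) (by norm_num) (by norm_num) (by norm_num) (by norm_num) (by norm_num) (by simp [V_b15])) <|
  cellOK_cons (q_cell4 PP V_b15 7 (-1) 1 1 (-3) (-1) (-1) 1 (-1) 1 0 0 (-1) 0 0 0 0 0 1 0 0 (-1) 0 1 0 (-1) (-1) 5 1 1 2 2 2 h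
    (by norm_num) (by norm_num) (by norm_num) (by norm_num) (by norm_num) (by norm_num) (by simp [V_b15])) <|
  cellOK_cons (q_cell4 PP V_b15 (-5) (-5) (-3) 5 3 1 1 (-1) 1 3 1 (-1) 1 1 1 (-1) 0 0 1 1 0 0 0 1 0 (-1) (-1) 5 1 1 1 1 2 h
    (by norm_num) (by norm_num) (by norm_num) (by norm_num) (by norm_num) (by norm_num) (by simp [V_b15])) <|
  q_cell4 PP V_b15 (-5) (-5) (-3) 5 7 (-1) 1 1 (-1) 7 1 1 (-1) (-1) 1 1 0 0 (-1) 1 0 0 0 1 0 (-1) (-1) 5 1 1 1 1 8 h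
    (by norm_num) (by norm_num) (by norm_num) (by norm_num) (by norm_num) (by norm_num) (by simp [V_b15])

lemma ck_b15 : ckL V_b15 S_b15 = true := by decide +kernel

lemma cell_b21 {PP : Set (ℝ × ℝ × ℝ) → Prop} (h : Cls PP) : CellOK PP V_b21 C_b21 :=
  cellOK_cons (q_cell4 PP V_b21 (-1) (-1) 1 1 (-1) (-1) (-1) 1 1 0 0 0 0 1 0 0 0 0 1 0 0 (-1) 1 0 0 0 1 0 1 1 2 2 2 h
    (by norm_num) (by norm_num) (by norm_num) (by norm_num) (by norm_num) (by norm_num) (by simp [V_b21])) <|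
  cellOK_cons (q_cell4 PP V_b21 (-1) 4 1 1 (-1) 2 (-1) 1 1 (-2) 0 0 0 (-1) 0 0 0 0 1 0 0 (-1) 1 0 0 (-2) (-1) 1 1 1 2 2 2 h
    (by norm_num) (by norm_num) (by norm_num) (by norm_num) (by norm_num) (by norm_num) (by simp [V_b21])) <|
  cellOK_cons (q_cell4 PP V_b21 3 (-2) 2 2 1 (-2) (-2) 2 (-1) 2 0 0 (-1) 0 0 0 0 0 1 0 0 (-1) 0 1 0 (-2) (-1) 1 1 1 2 2 4 h
    (by norm_num) (by norm_num) (by norm_num) (by norm_num) (by norm_num) (by norm_num) (by simp [V_b21])) <|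
  cellOK_cons (q_cell4 PP V_b21 1 1 4 (-1) 1 (-2) (-2) 2 (-1) 2 (-1) 1 (-1) (-1) (-1) 1 0 0 1 1 0 0 0 1 0 (-2) (-1) 1 1 1 1 1 3 h
    (by norm_num) (by norm_num) (by norm_num) (by norm_num) (by norm_num) (by norm_num) (by simp [V_b21])) <|
  q_cell4 PP V_b21 (-1) (-1) (-4) 1 3 (-2) 2 2 (-1) 4 1 1 (-1) (-1) 1 1 0 0 (-1) 1 0 0 0 1 0 (-2) (-1) 1 1 1 1 1 5 h
    (by norm_num) (by norm_num) (by norm_num) (by norm_num) (by norm_num) (by norm_num) (by simp [V_b21])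

lemma ck_b21 : ckL V_b21 S_b21 = true := by decide +kernel

lemma cell_b23 {PP : Set (ℝ × ℝ × ℝ) → Prop} (h : Cls PP) : CellOK PP V_b23 C_b23 :=
  cellOK_cons (q_cell4 PP V_b23 (-1) (-1) 1 1 (-1) (-1) (-1) 1 1 0 0 0 0 1 0 0 0 0 1 0 0 (-1) 1 0 0 0 1 0 1 1 2 2 2 h
    (by norm_num) (by norm_num) (by norm_num) (by norm_num) (by norm_num) (by norm_num) (by simp [V_b23])) <|
  cellOK_cons (q_cell4 PP V_b23 (-1) 6 1 1 (-1) 0 (-1) 1 1 (-2) 0 0 0 (-1) 0 0 0 0 1 0 0 (-1) 1 0 0 (-2) (-1) 3 1 1 2 2 2 h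
    (by norm_num) (by norm_num) (by norm_num) (by norm_num) (by norm_num) (by norm_num) (by simp [V_b23])) <|
  cellOK_cons (q_cell4 PP V_b23 5 (-2) 2 2 (-1) (-2) (-2) 2 (-1) 2 0 0 (-1) 0 0 0 0 0 1 0 0 (-1) 0 1 0 (-2) (-1) 3 1 1 2 2 4 h
    (by norm_num) (by norm_num) (by norm_num) (by norm_num) (by norm_num) (by norm_num) (by simp [V_b23])) <|
  cellOK_cons (q_cell4 PP V_b23 3 3 4 (-3) (-1) (-2) (-2) 2 (-1) 0 (-1) 1 (-1) (-1) (-1) 1 0 0 1 1 0 0 0 1 0 (-2) (-1) 3 1 1 1 1 1 h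
    (by norm_num) (by norm_num) (by norm_num) (by norm_num) (by norm_num) (by norm_num) (by simp [V_b23])) <|
  q_cell4 PP V_b23 (-3) (-3) (-4) 3 5 (-2) 2 2 (-1) 6 1 1 (-1) (-1) 1 1 0 0 (-1) 1 0 0 0 1 0 (-2) (-1) 3 1 1 1 1 7 h
    (by norm_num) (by norm_num) (by norm_num) (by norm_num) (by norm_num) (by norm_num) (by simp [V_b23])

lemma ck_b23 : ckL V_b23 S_b23 = true := by decide +kernel

lemma cell_b25 {PP : Set (ℝ × ℝ × ℝ) → Prop} (h : Cls PP) : CellOK PP V_b25 C_b25 :=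
  cellOK_cons (q_cell4 PP V_b25 (-1) (-1) 1 1 (-1) (-1) (-1) 1 1 0 0 0 0 1 0 0 0 0 1 0 0 (-1) 1 0 0 0 1 0 1 1 2 2 2 h
    (by norm_num) (by norm_num) (by norm_num) (by norm_num) (by norm_num) (by norm_num) (by simp [V_b25])) <|
  cellOK_cons (q_cell4 PP V_b25 (-1) 8 1 1 (-1) (-2) (-1) 1 1 (-2) 0 0 0 (-1) 0 0 0 0 1 0 0 (-1) 1 0 0 (-2) (-1) 5 1 1 2 2 2 h
    (by norm_num) (by norm_num) (by norm_num) (by norm_num) (by norm_num) (by norm_num) (by simp [V_b25])) <|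
  cellOK_cons (q_cell4 PP V_b25 7 (-2) 2 2 (-3) (-2) (-2) 2 (-1) 2 0 0 (-1) 0 0 0 0 0 1 0 0 (-1) 0 1 0 (-2) (-1) 5 1 1 2 2 4 h
    (by norm_num) (by norm_num) (by norm_num) (by norm_num) (by norm_num) (by norm_num) (by simp [V_b25])) <|
  cellOK_cons (q_cell4 PP V_b25 (-5) (-5) (-4) 5 3 2 2 (-2) 1 2 1 (-1) 1 1 1 (-1) 0 0 1 1 0 0 0 1 0 (-2) (-1) 5 1 1 1 1 1 h
    (by norm_num) (by norm_num) (by norm_num) (by norm_num) (by norm_num) (by norm_num) (by simp [V_b25])) <|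
  q_cell4 PP V_b25 (-5) (-5) (-4) 5 7 (-2) 2 2 (-1) 8 1 1 (-1) (-1) 1 1 0 0 (-1) 1 0 0 0 1 0 (-2) (-1) 5 1 1 1 1 9 h
    (by norm_num) (by norm_num) (by norm_num) (by norm_num) (by norm_num) (by norm_num) (by simp [V_b25])

lemma ck_b25 : ckL V_b25 S_b25 = true := by decide +kernel

lemma cell_b27 {PP : Set (ℝ × ℝ × ℝ) → Prop} (h : Cls PP) : CellOK PP V_b27 C_b27 :=
  cellOK_cons (q_cell4 PP V_b27 (-1) (-1) 1 1 (-1) (-1) (-1) 1 1 0 0 0 0 1 0 0 0 0 1 0 0 (-1) 1 0 0 0 1 0 1 1 2 2 2 h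
    (by norm_num) (by norm_num) (by norm_num) (by norm_num) (by norm_num) (by norm_num) (by simp [V_b27])) <|
  cellOK_cons (q_cell4 PP V_b27 (-1) 10 1 1 (-1) (-4) (-1) 1 1 (-2) 0 0 0 (-1) 0 0 0 0 1 0 0 (-1) 1 0 0 (-2) (-1) 7 1 1 2 2 2 h
    (by norm_num) (by norm_num) (by norm_num) (by norm_num) (by norm_num) (by norm_num) (by simp [V_b27])) <|
  cellOK_cons (q_cell4 PP V_b27 9 (-2) 2 2 (-5) (-2) (-2) 2 (-1) 2 0 0 (-1) 0 0 0 0 0 1 0 0 (-1) 0 1 0 (-2) (-1) 7 1 1 2 2 4 h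
    (by norm_num) (by norm_num) (by norm_num) (by norm_num) (by norm_num) (by norm_num) (by simp [V_b27])) <|
  cellOK_cons (q_cell4 PP V_b27 (-7) (-7) (-4) 7 5 2 2 (-2) 1 4 1 (-1) 1 1 1 (-1) 0 0 1 1 0 0 0 1 0 (-2) (-1) 7 1 1 1 1 3 h
    (by norm_num) (by norm_num) (by norm_num) (by norm_num) (by norm_num) (by norm_num) (by simp [V_b27])) <|
  q_cell4 PP V_b27 (-7) (-7) (-4) 7 9 (-2) 2 2 (-1) 10 1 1 (-1) (-1) 1 1 0 0 (-1) 1 0 0 0 1 0 (-2) (-1) 7 1 1 1 1 11 h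
    (by norm_num) (by norm_num) (by norm_num) (by norm_num) (by norm_num) (by norm_num) (by simp [V_b27])

lemma ck_b27 : ckL V_b27 S_b27 = true := by decide +kernel

lemma cell_b31 {PP : Set (ℝ × ℝ × ℝ) → Prop} (h : Cls PP) : CellOK PP V_b31 C_b31 :=
  cellOK_cons (q_cell4 PP V_b31 (-1) (-1) 1 1 (-1) (-1) (-1) 1 1 0 0 0 0 1 0 0 0 0 1 0 0 (-1) 1 0 0 0 1 0 1 1 2 2 2 h
    (by norm_num) (by norm_num) (by norm_num) (by norm_num) (by norm_num) (by norm_num) (by simp [V_b31])) <|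
  cellOK_cons (q_cell4 PP V_b31 (-2) 5 2 2 (-2) 3 (-2) 2 2 (-3) 0 0 0 (-1) 0 0 0 0 1 0 0 (-1) 1 0 0 (-3) (-2) 1 1 1 2 2 4 h
    (by norm_num) (by norm_num) (by norm_num) (by norm_num) (by norm_num) (by norm_num) (by simp [V_b31])) <|
  cellOK_cons (q_cell4 PP V_b31 4 (-3) 3 3 2 (-3) (-3) 3 (-2) 3 0 0 (-1) 0 0 0 0 0 1 0 0 (-1) 0 1 0 (-3) (-2) 1 1 1 2 2 6 h
    (by norm_num) (by norm_num) (by norm_num) (by norm_num) (by norm_num) (by norm_num) (by simp [V_b31])) <|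
  cellOK_cons (q_cell4 PP V_b31 1 1 6 (-1) 2 (-3) (-3) 3 (-2) 3 (-2) 2 (-1) (-1) (-1) 1 0 0 1 1 0 0 0 1 0 (-3) (-2) 1 1 1 1 1 5 h
    (by norm_num) (by norm_num) (by norm_num) (by norm_num) (by norm_num) (by norm_num) (by simp [V_b31])) <|
  q_cell4 PP V_b31 (-1) (-1) (-6) 1 4 (-3) 3 3 (-2) 5 2 2 (-1) (-1) 1 1 0 0 (-1) 1 0 0 0 1 0 (-3) (-2) 1 1 1 1 1 7 h
    (by norm_num) (by norm_num) (by norm_num) (by norm_num) (by norm_num) (by norm_num) (by simp [V_b31])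

lemma ck_b31 : ckL V_b31 S_b31 = true := by decide +kernel

lemma cell_b35 {PP : Set (ℝ × ℝ × ℝ) → Prop} (h : Cls PP) : CellOK PP V_b35 C_b35 :=
  cellOK_cons (q_cell4 PP V_b35 (-1) (-1) 1 1 (-1) (-1) (-1) 1 1 0 0 0 0 1 0 0 0 0 1 0 0 (-1) 1 0 0 0 1 0 1 1 2 2 2 h
    (by norm_num) (by norm_num) (by norm_num) (by norm_num) (by norm_num) (by norm_num) (by simp [V_b35])) <|
  cellOK_cons (q_cell4 PP V_b35 (-2) 9 2 2 (-2) (-1) (-2) 2 2 (-3) 0 0 0 (-1) 0 0 0 0 1 0 0 (-1) 1 0 0 (-3) (-2) 5 1 1 2 2 4 h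
    (by norm_num) (by norm_num) (by norm_num) (by norm_num) (by norm_num) (by norm_num) (by simp [V_b35])) <|
  cellOK_cons (q_cell4 PP V_b35 8 (-3) 3 3 (-2) (-3) (-3) 3 (-2) 3 0 0 (-1) 0 0 0 0 0 1 0 0 (-1) 0 1 0 (-3) (-2) 5 1 1 2 2 6 h
    (by norm_num) (by norm_num) (by norm_num) (by norm_num) (by norm_num) (by norm_num) (by simp [V_b35])) <|
  cellOK_cons (q_cell4 PP V_b35 5 5 6 (-5) (-2) (-3) (-3) 3 (-2) (-1) (-2) 2 (-1) (-1) (-1) 1 0 0 1 1 0 0 0 1 0 (-3) (-2) 5 1 1 1 1 1 h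
    (by norm_num) (by norm_num) (by norm_num) (by norm_num) (by norm_num) (by norm_num) (by simp [V_b35])) <|
  q_cell4 PP V_b35 (-5) (-5) (-6) 5 8 (-3) 3 3 (-2) 9 2 2 (-1) (-1) 1 1 0 0 (-1) 1 0 0 0 1 0 (-3) (-2) 5 1 1 1 1 11 h
    (by norm_num) (by norm_num) (by norm_num) (by norm_num) (by norm_num) (by norm_num) (by simp [V_b35])

lemma ck_b35 : ckL V_b35 S_b35 = true := by decide +kernel

lemma cell_b37 {PP : Set (ℝ × ℝ × ℝ) → Prop} (h : Cls PP) : CellOK PP V_b37 C_b37 :=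
  cellOK_cons (q_cell4 PP V_b37 (-1) (-1) 1 1 (-1) (-1) (-1) 1 1 0 0 0 0 1 0 0 0 0 1 0 0 (-1) 1 0 0 0 1 0 1 1 2 2 2 h
    (by norm_num) (by norm_num) (by norm_num) (by norm_num) (by norm_num) (by norm_num) (by simp [V_b37])) <|
  cellOK_cons (q_cell4 PP V_b37 (-2) 11 2 2 (-2) (-3) (-2) 2 2 (-3) 0 0 0 (-1) 0 0 0 0 1 0 0 (-1) 1 0 0 (-3) (-2) 7 1 1 2 2 4 h
    (by norm_num) (by norm_num) (by norm_num) (by norm_num) (by norm_num) (by norm_num) (by simp [V_b37])) <|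
  cellOK_cons (q_cell4 PP V_b37 10 (-3) 3 3 (-4) (-3) (-3) 3 (-2) 3 0 0 (-1) 0 0 0 0 0 1 0 0 (-1) 0 1 0 (-3) (-2) 7 1 1 2 2 6 h
    (by norm_num) (by norm_num) (by norm_num) (by norm_num) (by norm_num) (by norm_num) (by simp [V_b37])) <|
  cellOK_cons (q_cell4 PP V_b37 (-7) (-7) (-6) 7 4 3 3 (-3) 2 3 2 (-2) 1 1 1 (-1) 0 0 1 1 0 0 0 1 0 (-3) (-2) 7 1 1 1 1 1 h
    (by norm_num) (by norm_num) (by norm_num) (by norm_num) (by norm_num) (by norm_num) (by simp [V_b37])) <|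
  q_cell4 PP V_b37 (-7) (-7) (-6) 7 10 (-3) 3 3 (-2) 11 2 2 (-1) (-1) 1 1 0 0 (-1) 1 0 0 0 1 0 (-3) (-2) 7 1 1 1 1 13 h
    (by norm_num) (by norm_num) (by norm_num) (by norm_num) (by norm_num) (by norm_num) (by simp [V_b37])

lemma ck_b37 : ckL V_b37 S_b37 = true := by decide +kernel

lemma cell_b311 {PP : Set (ℝ × ℝ × ℝ) → Prop} (h : Cls PP) : CellOK PP V_b311 C_b311 :=
  cellOK_cons (q_cell4 PP V_b311 (-1) (-1) 1 1 (-1) (-1) (-1) 1 1 0 0 0 0 1 0 0 0 0 1 0 0 (-1) 1 0 0 0 1 0 1 1 2 2 2 h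
    (by norm_num) (by norm_num) (by norm_num) (by norm_num) (by norm_num) (by norm_num) (by simp [V_b311])) <|
  cellOK_cons (q_cell4 PP V_b311 (-2) 15 2 2 (-2) (-7) (-2) 2 2 (-3) 0 0 0 (-1) 0 0 0 0 1 0 0 (-1) 1 0 0 (-3) (-2) 11 1 1 2 2 4 h
    (by norm_num) (by norm_num) (by norm_num) (by norm_num) (by norm_num) (by norm_num) (by simp [V_b311])) <|
  cellOK_cons (q_cell4 PP V_b311 14 (-3) 3 3 (-8) (-3) (-3) 3 (-2) 3 0 0 (-1) 0 0 0 0 0 1 0 0 (-1) 0 1 0 (-3) (-2) 11 1 1 2 2 6 h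
    (by norm_num) (by norm_num) (by norm_num) (by norm_num) (by norm_num) (by norm_num) (by simp [V_b311])) <|
  cellOK_cons (q_cell4 PP V_b311 (-11) (-11) (-6) 11 8 3 3 (-3) 2 7 2 (-2) 1 1 1 (-1) 0 0 1 1 0 0 0 1 0 (-3) (-2) 11 1 1 1 1 5 h
    (by norm_num) (by norm_num) (by norm_num) (by norm_num) (by norm_num) (by norm_num) (by simp [V_b311])) <|
  q_cell4 PP V_b311 (-11) (-11) (-6) 11 14 (-3) 3 3 (-2) 15 2 2 (-1) (-1) 1 1 0 0 (-1) 1 0 0 0 1 0 (-3) (-2) 11 1 1 1 1 17 h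
    (by norm_num) (by norm_num) (by norm_num) (by norm_num) (by norm_num) (by norm_num) (by simp [V_b311])

lemma ck_b311 : ckL V_b311 S_b311 = true := by decide +kernel

lemma cell_bi3 {PP : Set (ℝ × ℝ × ℝ) → Prop} (h : Cls PP) : CellOK PP V_bi3 C_bi3 :=
  cellOK_cons (q_cell4 PP V_bi3 (-3) (-1) 3 3 (-3) 1 (-3) 3 3 (-1) 0 0 0 1 0 0 0 0 1 0 0 (-1) 1 0 0 1 3 1 1 1 2 2 6 h
    (by norm_num) (by norm_num) (by norm_num) (by norm_num) (by norm_num) (by norm_num) (by simp [V_bi3])) <|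
  cellOK_cons (q_cell4 PP V_bi3 (-3) 5 3 3 (-3) 1 (-3) 3 3 (-2) 0 0 0 (-1) 0 0 0 0 1 0 0 (-1) 1 0 0 (-2) (-3) 2 1 1 2 2 6 h
    (by norm_num) (by norm_num) (by norm_num) (by norm_num) (by norm_num) (by norm_num) (by simp [V_bi3])) <|
  cellOK_cons (q_cell4 PP V_bi3 15 (-7) 3 3 (-3) 1 (-3) 3 (-3) 2 0 0 (-3) 1 0 0 0 0 1 0 0 (-1) 1 3 1 (-2) (-3) 2 1 1 2 2 6 h
    (by norm_num) (by norm_num) (by norm_num) (by norm_num) (by norm_num) (by norm_num) (by simp [V_bi3])) <|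
  q_cell4 PP V_bi3 (-3) 1 (-3) 3 15 (-7) 3 3 (-3) 5 3 3 (-3) (-1) 3 3 0 0 (-1) 1 0 0 1 3 1 (-2) (-3) 2 3 1 1 1 18 h
    (by norm_num) (by norm_num) (by norm_num) (by norm_num) (by norm_num) (by norm_num) (by simp [V_bi3])

lemma ck_bi3 : ckL V_bi3 S_bi3 = true := by decide +kernel

lemma cell_WU1 {PP : Set (ℝ × ℝ × ℝ) → Prop} (h : Cls PP) : CellOK PP V_WU1 C_WU1 :=
  q_cell4 PP V_WU1 2 (-1) (-1) 1 (-1) 2 (-1) 1 (-1) (-1) (-1) 1 0 0 1 0 1 0 0 0 1 0 (-1) (-1) 0 0 0 1 1 1 1 3 3 h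
    (by norm_num) (by norm_num) (by norm_num) (by norm_num) (by norm_num) (by norm_num) (by simp [V_WU1])

lemma ck_WU1 : ckL V_WU1 S_WU1 = true := by decide +kernel

lemma blk_WU1 : S_WU1.all blk = true := by decide +kernel

lemma cell_WUh {PP : Set (ℝ × ℝ × ℝ) → Prop} (h : Cls PP) : CellOK PP V_WUh C_WUh :=
  q_cell4 PP V_WUh 2 (-1) (-1) 1 (-1) 2 (-1) 1 (-1) (-1) (-1) 1 0 0 1 0 1 0 0 0 1 0 (-1) (-1) 0 0 0 1 1 1 1 3 3 h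
    (by norm_num) (by norm_num) (by norm_num) (by norm_num) (by norm_num) (by norm_num) (by simp [V_WUh])

lemma cell_WH1 {PP : Set (ℝ × ℝ × ℝ) → Prop} (h : Cls PP) : CellOK PP V_WH1 C_WH1 :=
  q_cell4 PP V_WH1 6 (-3) (-4) 3 (-3) 6 2 3 (-3) (-3) (-1) 3 0 0 1 0 1 0 0 0 1 0 (-1) (-1) 0 1 (-1) 3 1 1 1 3 9 h
    (by norm_num) (by norm_num) (by norm_num) (by norm_num) (by norm_num) (by norm_num) (by simp [V_WH1])

lemma cell_WHh {PP : Set (ℝ × ℝ × ℝ) → Prop} (h : Cls PP) : CellOK PP V_WHh C_WHh :=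
  q_cell4 PP V_WHh 6 (-3) (-4) 3 (-3) 6 2 3 (-3) (-3) (-1) 3 0 0 1 0 1 0 0 0 1 0 (-1) (-1) 0 1 (-1) 3 1 1 1 3 9 h
    (by norm_num) (by norm_num) (by norm_num) (by norm_num) (by norm_num) (by norm_num) (by simp [V_WHh])

lemma cell_TU1 {PP : Set (ℝ × ℝ × ℝ) → Prop} (h : Cls PP) : CellOK PP V_TU1 C_TU1 :=
  q_cell4 PP V_TU1 2 1 (-1) 1 (-2) 1 (-1) 1 0 (-1) (-1) 1 0 0 1 0 1 1 0 (-1) 1 0 0 (-1) 0 0 0 1 1 1 2 4 4 h
    (by norm_num) (by norm_num) (by norm_num) (by norm_num) (by norm_num) (by norm_num) (by simp [V_TU1])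

lemma ck_TU1 : ckL V_TU1 S_TU1 = true := by decide +kernel

lemma blk_TU1 : S_TU1.all blk = true := by decide +kernel

lemma cell_TUh {PP : Set (ℝ × ℝ × ℝ) → Prop} (h : Cls PP) : CellOK PP V_TUh C_TUh :=
  q_cell4 PP V_TUh 2 1 (-1) 1 (-2) 1 (-1) 1 0 (-1) (-1) 1 0 0 1 0 1 1 0 (-1) 1 0 0 (-1) 0 0 0 1 1 1 2 4 4 h
    (by norm_num) (by norm_num) (by norm_num) (by norm_num) (by norm_num) (by norm_num) (by simp [V_TUh])

lemma cell_TH1 {PP : Set (ℝ × ℝ × ℝ) → Prop} (h : Cls PP) : CellOK PP V_TH1 C_TH1 :=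
  q_cell4 PP V_TH1 4 2 (-3) 2 (-4) 2 1 2 0 (-2) (-1) 2 0 0 1 0 1 1 0 (-1) 1 0 0 (-1) 0 1 0 2 1 1 2 4 8 h
    (by norm_num) (by norm_num) (by norm_num) (by norm_num) (by norm_num) (by norm_num) (by simp [V_TH1])

lemma cell_THh {PP : Set (ℝ × ℝ × ℝ) → Prop} (h : Cls PP) : CellOK PP V_THh C_THh :=
  q_cell4 PP V_THh 4 2 (-3) 2 (-4) 2 1 2 0 (-2) (-1) 2 0 0 1 0 1 1 0 (-1) 1 0 0 (-1) 0 1 0 2 1 1 2 4 8 h
    (by norm_num) (by norm_num) (by norm_num) (by norm_num) (by norm_num) (by norm_num) (by simp [V_THh])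

lemma cell_DU1 {PP : Set (ℝ × ℝ × ℝ) → Prop} (h : Cls PP) : CellOK PP V_DU1 C_DU1 :=
  cellOK_cons (q_cell4 PP V_DU1 1 (-1) (-1) 1 (-1) (-1) (-1) 1 0 1 0 0 0 0 1 0 1 0 0 (-1) 0 0 0 1 0 0 0 1 1 1 2 2 2 h
    (by norm_num) (by norm_num) (by norm_num) (by norm_num) (by norm_num) (by norm_num) (by simp [V_DU1])) <|
  cellOK_cons (q_cell4 PP V_DU1 1 1 (-1) 1 (-1) 1 (-1) 1 0 (-1) 0 0 0 0 1 0 1 0 0 (-1) 0 0 0 (-1) 0 0 0 1 1 1 2 2 2 h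
    (by norm_num) (by norm_num) (by norm_num) (by norm_num) (by norm_num) (by norm_num) (by simp [V_DU1])) <|
  cellOK_cons (q_cell4 PP V_DU1 1 0 0 0 (-1) 1 (-1) 1 (-1) (-1) (-1) 1 0 0 1 0 1 0 0 0 1 0 0 (-1) 0 0 0 1 2 1 1 2 2 h
    (by norm_num) (by norm_num) (by norm_num) (by norm_num) (by norm_num) (by norm_num) (by simp [V_DU1])) <|
  q_cell4 PP V_DU1 (-1) 0 0 0 1 1 (-1) 1 1 (-1) (-1) 1 0 0 1 0 (-1) 0 0 0 1 0 0 (-1) 0 0 0 1 2 1 1 2 2 h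
    (by norm_num) (by norm_num) (by norm_num) (by norm_num) (by norm_num) (by norm_num) (by simp [V_DU1])

lemma ck_DU1 : ckL V_DU1 S_DU1 = true := by decide +kernel

lemma blk_DU1 : S_DU1.all blk = true := by decide +kernel

lemma cell_DUh {PP : Set (ℝ × ℝ × ℝ) → Prop} (h : Cls PP) : CellOK PP V_DUh C_DUh :=
  cellOK_cons (q_cell4 PP V_DUh 1 (-1) (-1) 1 (-1) (-1) (-1) 1 0 1 0 0 0 0 1 0 1 0 0 (-1) 0 0 0 1 0 0 0 1 1 1 2 2 2 h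
    (by norm_num) (by norm_num) (by norm_num) (by norm_num) (by norm_num) (by norm_num) (by simp [V_DUh])) <|
  cellOK_cons (q_cell4 PP V_DUh 1 1 (-1) 1 (-1) 1 (-1) 1 0 (-1) 0 0 0 0 1 0 1 0 0 (-1) 0 0 0 (-1) 0 0 0 1 1 1 2 2 2 h
    (by norm_num) (by norm_num) (by norm_num) (by norm_num) (by norm_num) (by norm_num) (by simp [V_DUh])) <|
  cellOK_cons (q_cell4 PP V_DUh 1 0 0 0 (-1) 1 (-1) 1 (-1) (-1) (-1) 1 0 0 1 0 1 0 0 0 1 0 0 (-1) 0 0 0 1 2 1 1 2 2 h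
    (by norm_num) (by norm_num) (by norm_num) (by norm_num) (by norm_num) (by norm_num) (by simp [V_DUh])) <|
  q_cell4 PP V_DUh (-1) 0 0 0 1 1 (-1) 1 1 (-1) (-1) 1 0 0 1 0 (-1) 0 0 0 1 0 0 (-1) 0 0 0 1 2 1 1 2 2 h
    (by norm_num) (by norm_num) (by norm_num) (by norm_num) (by norm_num) (by norm_num) (by simp [V_DUh])

lemma cell_DH1 {PP : Set (ℝ × ℝ × ℝ) → Prop} (h : Cls PP) : CellOK PP V_DH1 C_DH1 :=
  cellOK_cons (q_cell4 PP V_DH1 2 (-2) (-1) 2 (-2) (-2) 1 2 0 2 (-1) 0 0 0 1 0 1 0 0 (-1) 0 0 0 1 0 1 1 2 1 1 2 2 4 h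
    (by norm_num) (by norm_num) (by norm_num) (by norm_num) (by norm_num) (by norm_num) (by simp [V_DH1])) <|
  cellOK_cons (q_cell4 PP V_DH1 2 2 (-3) 2 (-2) 2 (-1) 2 0 (-2) 1 0 0 0 1 0 1 0 0 (-1) 0 0 0 (-1) 0 1 1 2 1 1 2 2 4 h
    (by norm_num) (by norm_num) (by norm_num) (by norm_num) (by norm_num) (by norm_num) (by simp [V_DH1])) <|
  cellOK_cons (q_cell4 PP V_DH1 2 0 (-1) 0 (-2) 2 (-1) 2 (-2) (-2) 1 2 0 0 1 0 1 0 0 0 1 0 0 (-1) 0 1 1 2 2 1 1 2 4 h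
    (by norm_num) (by norm_num) (by norm_num) (by norm_num) (by norm_num) (by norm_num) (by simp [V_DH1])) <|
  q_cell4 PP V_DH1 (-2) 0 1 0 2 2 (-3) 2 2 (-2) (-1) 2 0 0 1 0 (-1) 0 0 0 1 0 0 (-1) 0 1 1 2 2 1 1 2 4 h
    (by norm_num) (by norm_num) (by norm_num) (by norm_num) (by norm_num) (by norm_num) (by simp [V_DH1])

lemma cell_DHh {PP : Set (ℝ × ℝ × ℝ) → Prop} (h : Cls PP) : CellOK PP V_DHh C_DHh :=
  cellOK_cons (q_cell4 PP V_DHh 2 (-2) (-1) 2 (-2) (-2) 1 2 0 2 (-1) 0 0 0 1 0 1 0 0 (-1) 0 0 0 1 0 1 1 2 1 1 2 2 4 h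
    (by norm_num) (by norm_num) (by norm_num) (by norm_num) (by norm_num) (by norm_num) (by simp [V_DHh])) <|
  cellOK_cons (q_cell4 PP V_DHh 2 2 (-3) 2 (-2) 2 (-1) 2 0 (-2) 1 0 0 0 1 0 1 0 0 (-1) 0 0 0 (-1) 0 1 1 2 1 1 2 2 4 h
    (by norm_num) (by norm_num) (by norm_num) (by norm_num) (by norm_num) (by norm_num) (by simp [V_DHh])) <|
  cellOK_cons (q_cell4 PP V_DHh 2 0 (-1) 0 (-2) 2 (-1) 2 (-2) (-2) 1 2 0 0 1 0 1 0 0 0 1 0 0 (-1) 0 1 1 2 2 1 1 2 4 h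
    (by norm_num) (by norm_num) (by norm_num) (by norm_num) (by norm_num) (by norm_num) (by simp [V_DHh])) <|
  q_cell4 PP V_DHh (-2) 0 1 0 2 2 (-3) 2 2 (-2) (-1) 2 0 0 1 0 (-1) 0 0 0 1 0 0 (-1) 0 1 1 2 2 1 1 2 4 h
    (by norm_num) (by norm_num) (by norm_num) (by norm_num) (by norm_num) (by norm_num) (by simp [V_DHh])

end Pool.Agent.Lib.MP_0bc52e_nt.K
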