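import Mathlib.Data.Int.Basic

/-!
A checker for subdivision certificates, written for evaluation in the kernel (MP_0bc52e_nt).
All functions are given by recursors, so that the kernel evaluates them fast.
-/

noncomputable section

namespace Pool.Agent.Lib.MP_0bc52e_nt.K

/-- An integer vector. -/
inductive P3
  | mk (x y z : Int)

/-- An integer matrix, by rows. -/
inductive M3
  | mk (a1 a2 a3 b1 b2 b3 c1 c2 c3 : Int)

/-- The linear form `a x + b y + c z + d N`. -/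
inductive F4
  | mk (a b c d : Int)

/-- The family of the points `(t1 m1 + b1, t2 m2 + b2, t3 m3 + b3)`; the last argument is `0` if only `m3 = 0` counts. -/
inductive Fam
  | mk (t1 t2 t3 b1 b2 b3 : Int) (dim : Nat)

/-- `f n`, with `n` evaluated first. -/
def st {α : Type} (n : Nat) (f : Nat → α) : α := Nat.rec (f 0) (fun k _ => f (Nat.succ k)) n

/-- `f i`, with `i` evaluated first. -/
def si {α : Type} (i : Int) (f : Int → α) : α :=
  Int.rec (fun n => st n (fun m => f (Int.ofNat m))) (fun n => st n (fun m => f (Int.negSucc m))) i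

/-- Choice by `n = 0`, `n = 1`, `n = 2`, `n ≥ 3`. -/
def sel {α : Type} (n : Nat) (a b c d : α) : α :=
  Nat.rec a (fun k _ => Nat.rec b (fun k' _ => Nat.rec c (fun _ _ => d) k') k) n

/-- `m - n`. -/
def sb (m n : Nat) : Int := Nat.rec (Int.ofNat (Nat.sub m n)) (fun k _ => Int.negSucc k) (Nat.sub n m)

/-- `-n`. -/
def ngn (n : Nat) : Int := Nat.rec (Int.ofNat 0) (fun k _ => Int.negSucc k) n

/-- `-a`. -/
def ng (a : Int) : Int := Int.rec (fun n => ngn n) (fun n => Int.ofNat (Nat.succ n)) a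

/-- `a * b`. -/
def mu (a b : Int) : Int :=
  Int.rec (fun m => Int.rec (fun n => Int.ofNat (Nat.mul m n)) (fun n => ngn (Nat.mul m (Nat.succ n))) b)
    (fun m => Int.rec (fun n => ngn (Nat.mul (Nat.succ m) n)) (fun n => Int.ofNat (Nat.mul (Nat.succ m) (Nat.succ n))) b) a

/-- `a + b`. -/
def ad (a b : Int) : Int :=
  Int.rec (fun m => Int.rec (fun n => Int.ofNat (Nat.add m n)) (fun n => sb m (Nat.succ n)) b)
    (fun m => Int.rec (fun n => sb n (Nat.succ m)) (fun n => Int.negSucc (Nat.succ (Nat.add m n))) b) a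

/-- `0 ≤ a`. -/
def nn (a : Int) : Bool := Int.rec (fun _ => true) (fun _ => false) a

/-- `0 < a`. -/
def ps (a : Int) : Bool := Int.rec (fun n => Nat.rec false (fun _ _ => true) n) (fun _ => false) a

/-- `a = b`. -/
def eqi (a b : Int) : Bool :=
  Int.rec (fun m => Int.rec (fun n => Nat.beq m n) (fun _ => false) b)
    (fun m => Int.rec (fun _ => false) (fun n => Nat.beq m n) b) a

/-- Conjunction. -/
def an (a b : Bool) : Bool := Bool.rec false b a

/-- The least value of `c * x` for `lo ≤ x ≤ hi`. -/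
def mn (c lo hi : Int) : Int := Int.rec (fun _ => mu c lo) (fun _ => mu c hi) c

/-- `a * x + b * y + c * z`. -/
def dt (a b c x y z : Int) : Int := ad (mu a x) (ad (mu b y) (mu c z))

/-- The goals: boxes still to be treated. `o`: residues `u` in a box; `x`: points of a family (for the configuration `V` and the
residue `(u1, u2, u3)`) in a box of homogeneous coordinates. -/
inductive G
  | nil
  | bad
  | o (a1 b1 a2 b2 a3 b3 : Int) (l : G)
  | x (V : List P3) (u1 u2 u3 : Int) (f : Fam) (dl : Nat) (a0 b0 a1 b1 a2 b2 a3 b3 : Int) (l : G)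

/-- `l` if `b`, else `bad`. -/
def gd (b : Bool) (l : G) : G := Bool.rec G.bad l b

/-- The `n`-th element, with a default. -/
def nth {α : Type} (df : α) (l : List α) : Nat → α :=
  List.rec (fun _ => df) (fun a _ ih n => Nat.rec a (fun k _ => ih k) n) l

/-! ### residues -/

/-- One form of a cell is nonnegative on the box. `k`, `N`, `p` may carry scale factors; `w1 w2 w3` is the negative of `z`. -/
def okF (k N p w1 w2 w3 a1 b1 a2 b2 a3 b3 : Int) (f : F4) : Bool :=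
  F4.rec (fun c1 c2 c3 d =>
    nn (ad (mu k (ad (mn c1 a1 b1) (ad (mn c2 a2 b2) (mn c3 a3 b3)))) (ad (mu d N) (mu p (dt c1 c2 c3 w1 w2 w3))))) f

/-- All forms of a cell. -/
def okS (k N p w1 w2 w3 a1 b1 a2 b2 a3 b3 : Int) (l : List F4) : Bool :=
  List.rec true (fun f _ ih => an (okF k N p w1 w2 w3 a1 b1 a2 b2 a3 b3 f) ih) l

/-- The split of an `o` box. -/
def spO (dl : Nat) (a1 b1 a2 b2 a3 b3 : Int) (l : G) (ax m : Nat) : G :=
  sel ax (G.o a1 (Int.ofNat m) a2 b2 a3 b3 (G.o (Int.ofNat (Nat.add m dl)) b1 a2 b2 a3 b3 l))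
    (G.o a1 b1 a2 (Int.ofNat m) a3 b3 (G.o a1 b1 (Int.ofNat (Nat.add m dl)) b2 a3 b3 l))
    (G.o a1 b1 a2 b2 a3 (Int.ofNat m) (G.o a1 b1 a2 b2 (Int.ofNat (Nat.add m dl)) b3 l))
    G.bad

/-- The kill of an `o` box. -/
def klO (al be ga q : Int) (cells : List (List F4)) (a1 b1 a2 b2 a3 b3 : Int) (d : Nat) (k : Int) : Bool :=
  an (ps k) (an (ps (ad q (ng k)))
    (okS (mu al k) (mu be (ad q (ng k))) ga (sb 512 (Nat.mod (Nat.div d 1024) 1024))
      (sb 512 (Nat.mod (Nat.div d 1048576) 1024)) (sb 512 (Nat.mod (Nat.div d 1073741824) 1024))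
      a1 b1 a2 b2 a3 b3 (nth [F4.mk 0 0 0 (-1)] cells (Nat.div d 1099511627776))))

/-- The box is one point. -/
def pt1 (a1 b1 a2 b2 a3 b3 : Int) : Bool := an (eqi a1 b1) (an (eqi a2 b2) (eqi a3 b3))

/-- The boxes that cover a family: one near box and the cones. -/
def pushF (V : List P3) (u1 u2 u3 : Int) (L : Int) (M : Int) (h : Int) (l : G) (f : Fam) : G :=
  Fam.rec (fun _ _ _ _ _ _ dim =>
    Nat.rec
      (G.x V u1 u2 u3 f 1 1 1 (ng L) L (ng L) L 0 0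
        (G.x V u1 u2 u3 f 0 0 h M M (ng M) M 0 0
        (G.x V u1 u2 u3 f 0 0 h (ng M) (ng M) (ng M) M 0 0
        (G.x V u1 u2 u3 f 0 0 h (ng M) M M M 0 0
        (G.x V u1 u2 u3 f 0 0 h (ng M) M (ng M) (ng M) 0 0 l)))))
      (fun _ _ =>
        G.x V u1 u2 u3 f 1 1 1 (ng L) L (ng L) L (ng L) L
          (G.x V u1 u2 u3 f 0 0 h M M (ng M) M (ng M) M
          (G.x V u1 u2 u3 f 0 0 h (ng M) (ng M) (ng M) M (ng M) M
          (G.x V u1 u2 u3 f 0 0 h (ng M) M M M (ng M) M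
          (G.x V u1 u2 u3 f 0 0 h (ng M) M (ng M) (ng M) (ng M) M
          (G.x V u1 u2 u3 f 0 0 h (ng M) M (ng M) M M M
          (G.x V u1 u2 u3 f 0 0 h (ng M) M (ng M) M (ng M) (ng M) l)))))))
      dim) f

/-- All families of a nonempty list. -/
def pushL (V : List P3) (u1 u2 u3 : Int) (L : Int) (M : Int) (h : Int) (l : G) (fs : List Fam) : G :=
  List.rec G.bad (fun f fs' _ => List.rec l (fun f _ ih => pushF V u1 u2 u3 L M h ih f) (f :: fs')) fs

/-- An `o` box that is one point: treat the families of a list. The digit gives the list and the size `L` of the near box. -/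
def alO (V0 : List P3) (ofams : List (List Fam)) (a1 b1 a2 b2 a3 b3 : Int) (l : G) (d : Nat) : G :=
  gd (pt1 a1 b1 a2 b2 a3 b3)
    (st (Nat.mod (Nat.div d 1024) 256) (fun L =>
      pushL V0 a1 a2 a3 (Int.ofNat L) (Int.ofNat (Nat.mul 256 (Nat.succ L))) 256 l
        (nth [] ofams (Nat.mod (Nat.div d 4) 256))))

/-- Residue modulo `q`, by comparison with multiples (`q > 0`). -/
def md (a q : Int) : Int := Int.rec (fun m => Int.rec (fun n => Int.ofNat (Nat.mod m n)) (fun _ => 0) q)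
  (fun m => Int.rec (fun n => sb n (Nat.succ (Nat.mod m n))) (fun _ => 0) q) a

/-- The code number of a residue vector. -/
def cod (q a1 a2 a3 : Int) : Int := ad (mu (ad (mu a1 q) a2) q) a3

/-- An `o` box that is one point, whose image under a symmetry has a smaller code. -/
def syO (q : Int) (syms : List M3) (a1 b1 a2 b2 a3 b3 : Int) (l : G) (d : Nat) : G :=
  gd (an (pt1 a1 b1 a2 b2 a3 b3)
    (M3.rec (fun x1 x2 x3 y1 y2 y3 z1 z2 z3 =>
      ps (ad (cod q a1 a2 a3) (ng (cod q (md (dt x1 x2 x3 a1 a2 a3) q) (md (dt y1 y2 y3 a1 a2 a3) q)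
        (md (dt z1 z2 z3 a1 a2 a3) q))))) (nth (M3.mk 1 0 0 0 1 0 0 0 1) syms (Nat.div d 4)))) l

/-- One step for an `o` box. -/
def stO (al be ga q : Int) (dl : Nat) (cells : List (List F4)) (V0 : List P3) (ofams : List (List Fam)) (syms : List M3)
    (a1 b1 a2 b2 a3 b3 : Int) (l : G) (d : Nat) : G :=
  sel (Nat.mod d 4)
    (st (Nat.mod (Nat.div d 4) 4) (fun ax => st (Nat.sub (Nat.div d 16) 1048576)
      (spO dl a1 b1 a2 b2 a3 b3 l ax)))
    (gd (st (Nat.mod (Nat.div d 4) 256) (fun k => klO al be ga q cells a1 b1 a2 b2 a3 b3 d (Int.ofNat k))) l)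
    (Nat.rec G.bad (fun _ _ => alO V0 ofams a1 b1 a2 b2 a3 b3 l d) dl)
    (Nat.rec G.bad (fun _ _ => syO q syms a1 b1 a2 b2 a3 b3 l d) dl)

/-! ### points -/

/-- One form of a shadow is nonnegative on the box; `(n1, n2, n3)` is the normal, `(q1, q2, q3) / N` the point in the new polytope. -/
def okG (N q1 q2 q3 : Int) (t1 t2 t3 e1 e2 e3 : Int) (a0 b0 a1 b1 a2 b2 a3 b3 : Int) (n1 n2 n3 : Int) : Bool :=
  nn (ad (mu N (ad (mn (mu t1 n1) a1 b1) (ad (mn (mu t2 n2) a2 b2) (mn (mu t3 n3) a3 b3))))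
    (si (dt n1 n2 n3 (ad (mu N e1) (ng q1)) (ad (mu N e2) (ng q2)) (ad (mu N e3) (ng q3))) (fun c => mn c a0 b0)))

/-- The kill of an `x` box, with the vectors `q - N v` for the three chosen points of the configuration. -/
def kl3 (N q1 q2 q3 : Int) (t1 t2 t3 e1 e2 e3 : Int) (a0 b0 a1 b1 a2 b2 a3 b3 : Int)
    (A1 A2 A3 B1 B2 B3 C1 C2 C3 : Int) : Bool :=
  si (ad (mu B2 C3) (ng (mu B3 C2))) fun n1 => si (ad (mu B3 C1) (ng (mu B1 C3))) fun n2 =>
  si (ad (mu B1 C2) (ng (mu B2 C1))) fun n3 =>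
  an (ps (dt A1 A2 A3 n1 n2 n3)) (an (okG N q1 q2 q3 t1 t2 t3 e1 e2 e3 a0 b0 a1 b1 a2 b2 a3 b3 n1 n2 n3)
  (an (si (ad (mu C2 A3) (ng (mu C3 A2))) fun n1 => si (ad (mu C3 A1) (ng (mu C1 A3))) fun n2 =>
      si (ad (mu C1 A2) (ng (mu C2 A1))) fun n3 => okG N q1 q2 q3 t1 t2 t3 e1 e2 e3 a0 b0 a1 b1 a2 b2 a3 b3 n1 n2 n3)
    (si (ad (mu A2 B3) (ng (mu A3 B2))) fun n1 => si (ad (mu A3 B1) (ng (mu A1 B3))) fun n2 =>
      si (ad (mu A1 B2) (ng (mu A2 B1))) fun n3 => okG N q1 q2 q3 t1 t2 t3 e1 e2 e3 a0 b0 a1 b1 a2 b2 a3 b3 n1 n2 n3)))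

/-- The vector `q - N v`, evaluated. -/
def qv (N q1 q2 q3 : Int) (v : P3) (f : Int → Int → Int → Bool) : Bool :=
  P3.rec (fun x y z => si (ad q1 (ng (mu N x))) fun X => si (ad q2 (ng (mu N y))) fun Y => si (ad q3 (ng (mu N z))) fun Z => f X Y Z) v

/-- The kill of an `x` box. -/
def kl2 (V : List P3) (t1 t2 t3 e1 e2 e3 : Int) (a0 b0 a1 b1 a2 b2 a3 b3 : Int) (d : Nat) (N q1 q2 q3 : Int) : Bool :=
  qv N q1 q2 q3 (nth (P3.mk 0 0 0) V (Nat.mod (Nat.div d 1099511627776) 16)) fun A1 A2 A3 =>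
  qv N q1 q2 q3 (nth (P3.mk 0 0 0) V (Nat.mod (Nat.div d 17592186044416) 16)) fun B1 B2 B3 =>
  qv N q1 q2 q3 (nth (P3.mk 0 0 0) V (Nat.div d 281474976710656)) fun C1 C2 C3 =>
  kl3 N q1 q2 q3 t1 t2 t3 e1 e2 e3 a0 b0 a1 b1 a2 b2 a3 b3 A1 A2 A3 B1 B2 B3 C1 C2 C3

/-- The kill of an `x` box. -/
def klX (q : Int) (V : List P3) (u1 u2 u3 : Int) (f : Fam) (a0 b0 a1 b1 a2 b2 a3 b3 : Int) (d : Nat) (k : Int) : Bool :=
  an (ps k) (si (ad q (ng k)) fun N => an (ps N)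
    (si (ad (mu k u1) (mu q (sb 512 (Nat.mod (Nat.div d 1024) 1024)))) fun q1 =>
    si (ad (mu k u2) (mu q (sb 512 (Nat.mod (Nat.div d 1048576) 1024)))) fun q2 =>
    si (ad (mu k u3) (mu q (sb 512 (Nat.mod (Nat.div d 1073741824) 1024)))) fun q3 =>
    Fam.rec (fun t1 t2 t3 e1 e2 e3 _ => kl2 V t1 t2 t3 e1 e2 e3 a0 b0 a1 b1 a2 b2 a3 b3 d N q1 q2 q3) f))

/-- The split of an `x` box. -/
def spX (V : List P3) (u1 u2 u3 : Int) (f : Fam) (dl : Nat) (a0 b0 a1 b1 a2 b2 a3 b3 : Int) (l : G) (ax : Nat) (m m' : Int) : G :=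
  sel ax
    (G.x V u1 u2 u3 f dl a0 m a1 b1 a2 b2 a3 b3 (G.x V u1 u2 u3 f dl m' b0 a1 b1 a2 b2 a3 b3 l))
    (G.x V u1 u2 u3 f dl a0 b0 a1 m a2 b2 a3 b3 (G.x V u1 u2 u3 f dl a0 b0 m' b1 a2 b2 a3 b3 l))
    (G.x V u1 u2 u3 f dl a0 b0 a1 b1 a2 m a3 b3 (G.x V u1 u2 u3 f dl a0 b0 a1 b1 m' b2 a3 b3 l))
    (G.x V u1 u2 u3 f dl a0 b0 a1 b1 a2 b2 a3 m (G.x V u1 u2 u3 f dl a0 b0 a1 b1 a2 b2 m' b3 l))

/-- The classes modulo `2`. -/
def clf (c : Nat) : Fam := Fam.mk 2 2 2 (Int.ofNat (Nat.mod c 2)) (Int.ofNat (Nat.mod (Nat.div c 2) 2))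
  (Int.ofNat (Nat.div c 4)) 1

/-- An `x` box that is one point: add it to the configuration and treat a class modulo `2`. -/
def alX (V : List P3) (u1 u2 u3 : Int) (f : Fam) (a1 b1 a2 b2 a3 b3 : Int) (l : G) (d : Nat) : G :=
  gd (pt1 a1 b1 a2 b2 a3 b3)
    (Fam.rec (fun t1 t2 t3 e1 e2 e3 _ =>
      si (ad (mu t1 a1) e1) fun x => si (ad (mu t2 a2) e2) fun y => si (ad (mu t3 a3) e3) fun z =>
      st (Nat.mod (Nat.div d 1024) 256) (fun L =>
        pushF (P3.mk x y z :: V) u1 u2 u3 (Int.ofNat L) (Int.ofNat (Nat.mul 256 (Nat.succ L))) 256 l (clf (Nat.mod (Nat.div d 4) 8)))) f)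

/-- One step for an `x` box. -/
def stX (q : Int) (V : List P3) (u1 u2 u3 : Int) (f : Fam) (dl : Nat) (a0 b0 a1 b1 a2 b2 a3 b3 : Int) (l : G) (d : Nat) : G :=
  sel (Nat.mod d 4)
    (si (sb (Nat.div d 16) 1048576) fun m => si (ad m (Int.ofNat dl)) fun m' =>
      spX V u1 u2 u3 f dl a0 b0 a1 b1 a2 b2 a3 b3 l (Nat.mod (Nat.div d 4) 4) m m')
    (gd (klX q V u1 u2 u3 f a0 b0 a1 b1 a2 b2 a3 b3 d (Int.ofNat (Nat.mod (Nat.div d 4) 256))) l)
    (Nat.rec G.bad (fun _ _ => alX V u1 u2 u3 f a1 b1 a2 b2 a3 b3 l d) dl)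
    G.bad

/-! ### the loop -/

/-- Next chunk of code. -/
def pop (ih : Nat → List Nat → G → Bool) (cs : List Nat) (g : G) : Bool :=
  List.rec false (fun c cs _ => st c (fun c => ih c cs g)) cs

/-- One digit of code. -/
def dig (ih : Nat → List Nat → G → Bool) (c : Nat) (cs : List Nat) (f : Nat → G) (g : G) : Bool :=
  Nat.rec (pop ih cs g) (fun _ _ =>
    st (Nat.div c 4503599627370496) (fun c' => ih c' cs (st (Nat.mod c 4503599627370496) f))) c

/-- The loop. -/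
def loop (al be ga q : Int) (dl : Nat) (cells : List (List F4)) (V0 : List P3) (ofams : List (List Fam)) (syms : List M3) :
    Nat → Nat → List Nat → G → Bool :=
  Nat.rec (fun _ _ _ => false) (fun _ ih c cs g =>
    G.rec true false
      (fun a1 b1 a2 b2 a3 b3 l _ => dig ih c cs (stO al be ga q dl cells V0 ofams syms a1 b1 a2 b2 a3 b3 l) (G.o a1 b1 a2 b2 a3 b3 l))
      (fun V u1 u2 u3 f dl a0 b0 a1 b1 a2 b2 a3 b3 l _ => dig ih c cs (stX q V u1 u2 u3 f dl a0 b0 a1 b1 a2 b2 a3 b3 l)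
        (G.x V u1 u2 u3 f dl a0 b0 a1 b1 a2 b2 a3 b3 l)) g)

end Pool.Agent.Lib.MP_0bc52e_nt.K

end
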