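import Pool.Agent.Lib.MP_0bc52e_nt.K.D.D13
import Pool.Agent.Lib.MP_0bc52e_nt.K.D.D17
import Pool.Agent.Lib.MP_0bc52e_nt.K.D.D19
import Pool.Agent.Lib.MP_0bc52e_nt.K.D.D23
import Pool.Agent.Lib.MP_0bc52e_nt.K.D.D29
import Pool.Agent.Lib.MP_0bc52e_nt.K.D.D31
import Pool.Agent.Lib.MP_0bc52e_nt.K.D.D37
import Pool.Agent.Lib.MP_0bc52e_nt.K.D.D41
import Pool.Agent.Lib.MP_0bc52e_nt.K.D.D43
import Pool.Agent.Lib.MP_0bc52e_nt.K.D.D47
import Pool.Agent.Lib.MP_0bc52e_nt.K.D.D53
import Pool.Agent.Lib.MP_0bc52e_nt.K.D.D59
import Pool.Agent.Lib.MP_0bc52e_nt.K.D.D61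
import Pool.Agent.Lib.MP_0bc52e_nt.K.D.D67
import Pool.Agent.Lib.MP_0bc52e_nt.K.D.D71
import Pool.Agent.Lib.MP_0bc52e_nt.K.D.D73
import Pool.Agent.Lib.MP_0bc52e_nt.K.D.D79
import Pool.Agent.Lib.MP_0bc52e_nt.K.D.D83
import Pool.Agent.Lib.MP_0bc52e_nt.K.D.D89
import Pool.Agent.Lib.MP_0bc52e_nt.K.D.D97
import Pool.Agent.Lib.MP_0bc52e_nt.K.D.D101
import Pool.Agent.Lib.MP_0bc52e_nt.K.D.D103
import Pool.Agent.Lib.MP_0bc52e_nt.K.D.D107
import Pool.Agent.Lib.MP_0bc52e_nt.K.D.D109
import Pool.Agent.Lib.MP_0bc52e_nt.K.D.D113
import Pool.Agent.Lib.MP_0bc52e_nt.K.D.D127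
import Pool.Agent.Lib.MP_0bc52e_nt.K.D.D131
import Pool.Agent.Lib.MP_0bc52e_nt.K.D.D137
import Pool.Agent.Lib.MP_0bc52e_nt.K.D.D139
import Pool.Agent.Lib.MP_0bc52e_nt.K.D.D149
import Pool.Agent.Lib.MP_0bc52e_nt.K.D.D151
import Pool.Agent.Lib.MP_0bc52e_nt.K.D.D157

/-!
All certificates together (MP_0bc52e_nt).
-/

namespace Pool.Agent.Lib.MP_0bc52e_nt.K

open Pool.Agent.Lib.MP_0bc52e_nt.LC Pool.Agent.Lib.MP_0bc52e_nt.T Pool.Agent.Lib.MP_0bc52e_nt.R

theorem dead_all : ∀ p : ℕ, p.Prime → 13 ≤ p → p ≤ 157 → DeadAll p := by
  intro p hp h1 h2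
  interval_cases p
  · exact dead_13
  · exact absurd hp (by norm_num)
  · exact absurd hp (by norm_num)
  · exact absurd hp (by norm_num)
  · exact dead_17
  · exact absurd hp (by norm_num)
  · exact dead_19
  · exact absurd hp (by norm_num)
  · exact absurd hp (by norm_num)
  · exact absurd hp (by norm_num)
  · exact dead_23
  · exact absurd hp (by norm_num)
  · exact absurd hp (by norm_num)
  · exact absurd hp (by norm_num)
  · exact absurd hp (by norm_num)
  · exact absurd hp (by norm_num)
  · exact dead_29
  · exact absurd hp (by norm_num)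
  · exact dead_31
  · exact absurd hp (by norm_num)
  · exact absurd hp (by norm_num)
  · exact absurd hp (by norm_num)
  · exact absurd hp (by norm_num)
  · exact absurd hp (by norm_num)
  · exact dead_37
  · exact absurd hp (by norm_num)
  · exact absurd hp (by norm_num)
  · exact absurd hp (by norm_num)
  · exact dead_41
  · exact absurd hp (by norm_num)
  · exact dead_43
  · exact absurd hp (by norm_num)
  · exact absurd hp (by norm_num)
  · exact absurd hp (by norm_num)
  · exact dead_47
  · exact absurd hp (by norm_num)
  · exact absurd hp (by norm_num)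
  · exact absurd hp (by norm_num)
  · exact absurd hp (by norm_num)
  · exact absurd hp (by norm_num)
  · exact dead_53
  · exact absurd hp (by norm_num)
  · exact absurd hp (by norm_num)
  · exact absurd hp (by norm_num)
  · exact absurd hp (by norm_num)
  · exact absurd hp (by norm_num)
  · exact dead_59
  · exact absurd hp (by norm_num)
  · exact dead_61
  · exact absurd hp (by norm_num)
  · exact absurd hp (by norm_num)
  · exact absurd hp (by norm_num)
  · exact absurd hp (by norm_num)
  · exact absurd hp (by norm_num)
  · exact dead_67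
  · exact absurd hp (by norm_num)
  · exact absurd hp (by norm_num)
  · exact absurd hp (by norm_num)
  · exact dead_71
  · exact absurd hp (by norm_num)
  · exact dead_73
  · exact absurd hp (by norm_num)
  · exact absurd hp (by norm_num)
  · exact absurd hp (by norm_num)
  · exact absurd hp (by norm_num)
  · exact absurd hp (by norm_num)
  · exact dead_79
  · exact absurd hp (by norm_num)
  · exact absurd hp (by norm_num)
  · exact absurd hp (by norm_num)
  · exact dead_83
  · exact absurd hp (by norm_num)
  · exact absurd hp (by norm_num)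
  · exact absurd hp (by norm_num)
  · exact absurd hp (by norm_num)
  · exact absurd hp (by norm_num)
  · exact dead_89
  · exact absurd hp (by norm_num)
  · exact absurd hp (by norm_num)
  · exact absurd hp (by norm_num)
  · exact absurd hp (by norm_num)
  · exact absurd hp (by norm_num)
  · exact absurd hp (by norm_num)
  · exact absurd hp (by norm_num)
  · exact dead_97
  · exact absurd hp (by norm_num)
  · exact absurd hp (by norm_num)
  · exact absurd hp (by norm_num)
  · exact dead_101
  · exact absurd hp (by norm_num)
  · exact dead_103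
  · exact absurd hp (by norm_num)
  · exact absurd hp (by norm_num)
  · exact absurd hp (by norm_num)
  · exact dead_107
  · exact absurd hp (by norm_num)
  · exact dead_109
  · exact absurd hp (by norm_num)
  · exact absurd hp (by norm_num)
  · exact absurd hp (by norm_num)
  · exact dead_113
  · exact absurd hp (by norm_num)
  · exact absurd hp (by norm_num)
  · exact absurd hp (by norm_num)
  · exact absurd hp (by norm_num)
  · exact absurd hp (by norm_num)
  · exact absurd hp (by norm_num)
  · exact absurd hp (by norm_num)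
  · exact absurd hp (by norm_num)
  · exact absurd hp (by norm_num)
  · exact absurd hp (by norm_num)
  · exact absurd hp (by norm_num)
  · exact absurd hp (by norm_num)
  · exact absurd hp (by norm_num)
  · exact dead_127
  · exact absurd hp (by norm_num)
  · exact absurd hp (by norm_num)
  · exact absurd hp (by norm_num)
  · exact dead_131
  · exact absurd hp (by norm_num)
  · exact absurd hp (by norm_num)
  · exact absurd hp (by norm_num)
  · exact absurd hp (by norm_num)
  · exact absurd hp (by norm_num)
  · exact dead_137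
  · exact absurd hp (by norm_num)
  · exact dead_139
  · exact absurd hp (by norm_num)
  · exact absurd hp (by norm_num)
  · exact absurd hp (by norm_num)
  · exact absurd hp (by norm_num)
  · exact absurd hp (by norm_num)
  · exact absurd hp (by norm_num)
  · exact absurd hp (by norm_num)
  · exact absurd hp (by norm_num)
  · exact absurd hp (by norm_num)
  · exact dead_149
  · exact absurd hp (by norm_num)
  · exact dead_151
  · exact absurd hp (by norm_num)
  · exact absurd hp (by norm_num)
  · exact absurd hp (by norm_num)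
  · exact absurd hp (by norm_num)
  · exact absurd hp (by norm_num)
  · exact dead_157

end Pool.Agent.Lib.MP_0bc52e_nt.K
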