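import Pool.Agent.Lib.MP_0bc52e_nt.R.DefsR
import Pool.Agent.Lib.MP_0bc52e_nt.K.Chk

/-!
The meaning of the goals of the checker `K/Chk.lean` (MP_0bc52e_nt).
-/

noncomputable section

namespace Pool.Agent.Lib.MP_0bc52e_nt.K

open Pool.Agent.Lib.MP_0bc52e_nt.LC Pool.Agent.Lib.MP_0bc52e_nt.T Pool.Agent.Lib.MP_0bc52e_nt.R

deriving instance DecidableEq for P3

/-- The coordinates of a vector. -/
def P3.v (a : P3) : ℤ × ℤ × ℤ := P3.rec (fun x y z => (x, y, z)) a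

/-- The value of a form at `(x, N)`. -/
def F4.ev (f : F4) (x : ℤ × ℤ × ℤ) (N : ℤ) : ℤ :=
  F4.rec (fun a b c d => a * x.1 + b * x.2.1 + c * x.2.2 + d * N) f

/-- The constant coefficient of a form. -/
def F4.d0 (f : F4) : ℤ := F4.rec (fun _ _ _ d => d) f

/-- The value of a matrix at a vector. -/
def M3.ap (g : M3) (u : ℤ × ℤ × ℤ) : ℤ × ℤ × ℤ :=
  M3.rec (fun a1 a2 a3 b1 b2 b3 c1 c2 c3 => (a1 * u.1 + a2 * u.2.1 + a3 * u.2.2, b1 * u.1 + b2 * u.2.1 + b3 * u.2.2,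
    c1 * u.1 + c2 * u.2.1 + c3 * u.2.2)) g

/-- The point of a family with parameters `m1, m2, m3`. -/
def Fam.pt (f : Fam) (m1 m2 m3 : ℤ) : P3 :=
  Fam.rec (fun t1 t2 t3 b1 b2 b3 _ => P3.mk (t1 * m1 + b1) (t2 * m2 + b2) (t3 * m3 + b3)) f

/-- The last parameter is to be `0` for a family of dimension two. -/
def Fam.ok (f : Fam) (m3 : ℤ) : Prop := Fam.rec (fun _ _ _ _ _ _ dim => dim = 0 → m3 = 0) f

/-- The residue `u` is alive for `Q` and the modulus `p`: for `0 < k < p` no point `k u - p z`, `z` integer, is in `(p - k) • Q`. -/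
def Alv (Q : Set (ℝ × ℝ × ℝ)) (p : ℤ) (u : ℤ × ℤ × ℤ) : Prop :=
  ∀ k : ℤ, 0 < k → k < p → ∀ z : ℤ × ℤ × ℤ, ∀ y ∈ Q, ((p - k : ℤ) : ℝ) • y ≠ ip (k • u - p • z)

/-- No polytope of the class `PP` that contains the points of `V` is alive at `u`. -/
def Dd (PP : Set (ℝ × ℝ × ℝ) → Prop) (p : ℤ) (V : List P3) (u : ℤ × ℤ × ℤ) : Prop :=
  ∀ Q, PP Q → (∀ v ∈ V, ip v.v ∈ Q) → ¬ Alv Q p u

/-- The integer `x` is in the interval `[a, b]`, scaled: `a κ ≤ x ≤ b κ`. -/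
def Bt (κ a b x : ℤ) : Prop := a * κ ≤ x ∧ x ≤ b * κ

/-- The meaning of an `x` goal: for the integer vectors `(m1, m2, m3)` such that `M (1, m1, m2, m3)` is in `κ` times the box, the
configuration with the point of the family added is dead at `u`. For `dl = 1` only `κ = M = 1` counts. -/
def GX (PP : Set (ℝ × ℝ × ℝ) → Prop) (p : ℤ) (V : List P3) (u : ℤ × ℤ × ℤ) (f : Fam) (dl : ℕ)
    (a0 b0 a1 b1 a2 b2 a3 b3 : ℤ) : Prop :=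
  ∀ m1 m2 m3 κ M : ℤ, 0 < κ → 0 < M → (dl = 0 ∨ dl = 1 ∧ κ = 1 ∧ M = 1) →
    Bt κ a0 b0 M → Bt κ a1 b1 (M * m1) → Bt κ a2 b2 (M * m2) → Bt κ a3 b3 (M * m3) → Dd PP p (f.pt m1 m2 m3 :: V) u

/-- The meaning of an `o` goal: the residues `u` with `M u` in `κ` times the box, that are in the domain `D`, are dead, if all residues
of the domain with smaller code number are. -/
def GO (PP : Set (ℝ × ℝ × ℝ) → Prop) (p κ M : ℤ) (D : ℤ × ℤ × ℤ → Prop) (V : List P3) (a1 b1 a2 b2 a3 b3 : ℤ) : Prop :=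
  ∀ u : ℤ × ℤ × ℤ, D u → Bt κ a1 b1 (M * u.1) → Bt κ a2 b2 (M * u.2.1) → Bt κ a3 b3 (M * u.2.2) →
    (∀ w : ℤ × ℤ × ℤ, D w → cod p w.1 w.2.1 w.2.2 < cod p u.1 u.2.1 u.2.2 → Dd PP p V w) → Dd PP p V u

/-- The meaning of a list of goals. -/
def All (PP : Set (ℝ × ℝ × ℝ) → Prop) (p κ M : ℤ) (D : ℤ × ℤ × ℤ → Prop) (V0 : List P3) (g : G) : Prop :=
  G.rec True False (fun a1 b1 a2 b2 a3 b3 _ ih => GO PP p κ M D V0 a1 b1 a2 b2 a3 b3 ∧ ih)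
    (fun V u1 u2 u3 f dl a0 b0 a1 b1 a2 b2 a3 b3 _ ih => GX PP p V (u1, u2, u3) f dl a0 b0 a1 b1 a2 b2 a3 b3 ∧ ih) g

/-- The class of polytopes: convex, with all classes modulo `2`, containing `0`. -/
def Cls (PP : Set (ℝ × ℝ × ℝ) → Prop) : Prop := ∀ Q, PP Q → Convex ℝ Q ∧ PC3 Q ∧ ip (0, 0, 0) ∈ Q

/-- The cells are cells for `V0`: nonnegative forms at `(x, N)` give a point of `N • hull V0`. -/
def CellOK (PP : Set (ℝ × ℝ × ℝ) → Prop) (V0 : List P3) (cells : List (List F4)) : Prop :=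
  ∀ F ∈ cells, ∀ (x : ℤ × ℤ × ℤ) (N : ℤ), 0 < N → (∀ f ∈ F, 0 ≤ f.ev x N) →
    ∀ Q, PP Q → (∀ v ∈ V0, ip v.v ∈ Q) → ∃ y ∈ Q, (N : ℝ) • y = ip x

/-- Every polytope of the class has a point in one of the families of each list. -/
def FamOK (PP : Set (ℝ × ℝ × ℝ) → Prop) (ofams : List (List Fam)) : Prop :=
  ∀ fs ∈ ofams, ∀ Q, PP Q → ∃ f ∈ fs, ∃ m1 m2 m3 : ℤ, f.ok m3 ∧ ip (f.pt m1 m2 m3).v ∈ Q

/-- The symmetries: they carry polytopes of the class, with `V0`, to such ones, and keep the domain. -/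
def SymOK (PP : Set (ℝ × ℝ × ℝ) → Prop) (p : ℤ) (D : ℤ × ℤ × ℤ → Prop) (V0 : List P3) (syms : List M3) : Prop :=
  ∀ g ∈ syms, (∀ u, D u → D ((g.ap u).1 % p, (g.ap u).2.1 % p, (g.ap u).2.2 % p)) ∧
    ∀ Q, PP Q → (∀ v ∈ V0, ip v.v ∈ Q) → ∃ Q', PP Q' ∧ (∀ v ∈ V0, ip v.v ∈ Q') ∧ ∀ u, Alv Q p u → Alv Q' p (g.ap u)

/-! ### roots -/

/-- The vector as a `P3`. -/
def toP (v : ℤ × ℤ × ℤ) : P3 := P3.mk v.1 v.2.1 v.2.2

/-- The identity matrix. -/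
def I3 : M3 := M3.mk 1 0 0 0 1 0 0 0 1

/-- Integer polytopes that meet all classes modulo `2` and contain the origin. -/
def PP0 (Q : Set (ℝ × ℝ × ℝ)) : Prop := IsLP3 Q ∧ PC3 Q ∧ ip (0, 0, 0) ∈ Q

/-- Moreover, with an integer point at level `-1`. -/
def PP1 (Q : Set (ℝ × ℝ × ℝ)) : Prop := PP0 Q ∧ ∃ x y : ℤ, ip (x, y, -1) ∈ Q

/-- `x` is under a deepest hole of the base `b`, at level `-3` (`b = 0`) or `-2`. -/
def Ho (b : Fin 3) (x : ℤ × ℤ × ℤ) : Prop :=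
  (b = 0 ∧ x.2.2 = -3 ∧ (((3 : ℤ) ∣ x.1 - 1 ∧ (3 : ℤ) ∣ x.2.1 + 1) ∨ ((3 : ℤ) ∣ x.1 + 1 ∧ (3 : ℤ) ∣ x.2.1 - 1))) ∨
  (b = 1 ∧ x.2.2 = -2 ∧ ¬ (2 : ℤ) ∣ x.1 ∧ (2 : ℤ) ∣ x.2.1) ∨
  (b = 2 ∧ x.2.2 = -2 ∧ ¬ (2 : ℤ) ∣ x.1 ∧ ¬ (2 : ℤ) ∣ x.2.1)

/-- Moreover, with such an integer point. -/
def PPh (b : Fin 3) (Q : Set (ℝ × ℝ × ℝ)) : Prop := PP0 Q ∧ ∃ x, Ho b x ∧ ip x ∈ Q

/-- The hole point of a base. -/
def hp : Fin 3 → ℤ × ℤ × ℤ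
  | 0 => (1, -1, 3)
  | 1 => (1, 0, 2)
  | 2 => (1, 1, 2)

/-- The unit pyramid over a base. -/
def VU (b : Fin 3) : List P3 := (Base b ++ [(0, 0, 1)]).map toP

/-- The hole pyramid over a base. -/
def VH (b : Fin 3) : List P3 := (Base b ++ [hp b]).map toP

/-- All residues with last coordinate `r` are dead. -/
def Sd (PP : Set (ℝ × ℝ × ℝ) → Prop) (p : ℤ) (V : List P3) (r : ℤ) : Prop := ∀ u1 u2 : ℤ, Dd PP p V (u1, u2, r)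

/-- The reduced residues with last coordinate in one of the intervals of a list. -/
def DA (p : ℤ) (L : List (ℤ × ℤ)) (u : ℤ × ℤ × ℤ) : Prop :=
  (0 ≤ u.1 ∧ u.1 < p) ∧ (0 ≤ u.2.1 ∧ u.2.1 < p) ∧ (0 ≤ u.2.2 ∧ u.2.2 < p) ∧ ∃ e ∈ L, e.1 ≤ u.2.2 ∧ u.2.2 ≤ e.2

/-- `r` is in one of the intervals. -/
def inl (L : List (ℤ × ℤ)) (r : ℤ) : Bool := L.any (fun e => decide (e.1 ≤ r ∧ r ≤ e.2))

/-- Every residue `r` is in `L` or `-r` is in `L'`. -/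
def cov (p : ℕ) (L L' : List (ℤ × ℤ)) : Bool :=
  (List.range p).all (fun r => inl L r || inl L' (((p - r) % p : ℕ) : ℤ))

/-- The families: the classes modulo `2`. -/
def of0 : List (List Fam) := [[.mk 2 2 2 0 0 0 1], [.mk 2 2 2 1 0 0 1], [.mk 2 2 2 0 1 0 1], [.mk 2 2 2 1 1 0 1],
  [.mk 2 2 2 0 0 1 1], [.mk 2 2 2 1 0 1 1], [.mk 2 2 2 0 1 1 1], [.mk 2 2 2 1 1 1 1]]

/-- The family of the points at level `-1`. -/
def of1 : List (List Fam) := [[.mk 1 1 0 0 0 (-1) 0]]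

/-- The families of the points under a hole. -/
def ofh : Fin 3 → List (List Fam)
  | 0 => [[.mk 3 3 0 1 (-1) (-3) 0, .mk 3 3 0 (-1) 1 (-3) 0]]
  | 1 => [[.mk 2 2 0 1 0 (-2) 0]]
  | 2 => [[.mk 2 2 0 1 1 (-2) 0]]

/-- The matrix `h` is inverse to `g`, of determinant `±1`, and permutes the points of `V`. -/
def ckS (V : List P3) (g h : M3) : Bool :=
  M3.casesOn g fun a1 a2 a3 b1 b2 b3 c1 c2 c3 => M3.casesOn h fun x1 x2 x3 y1 y2 y3 z1 z2 z3 =>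
  decide (x1 * a1 + x2 * b1 + x3 * c1 = 1 ∧ x1 * a2 + x2 * b2 + x3 * c2 = 0 ∧ x1 * a3 + x2 * b3 + x3 * c3 = 0 ∧
    y1 * a1 + y2 * b1 + y3 * c1 = 0 ∧ y1 * a2 + y2 * b2 + y3 * c2 = 1 ∧ y1 * a3 + y2 * b3 + y3 * c3 = 0 ∧
    z1 * a1 + z2 * b1 + z3 * c1 = 0 ∧ z1 * a2 + z2 * b2 + z3 * c2 = 0 ∧ z1 * a3 + z2 * b3 + z3 * c3 = 1 ∧
    (x1 * (y2 * z3 - y3 * z2) - x2 * (y1 * z3 - y3 * z1) + x3 * (y1 * z2 - y2 * z1) = 1 ∨
      x1 * (y2 * z3 - y3 * z2) - x2 * (y1 * z3 - y3 * z1) + x3 * (y1 * z2 - y2 * z1) = -1) ∧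
    ∀ v ∈ V, P3.mk (x1 * v.v.1 + x2 * v.v.2.1 + x3 * v.v.2.2) (y1 * v.v.1 + y2 * v.v.2.1 + y3 * v.v.2.2)
      (z1 * v.v.1 + z2 * v.v.2.1 + z3 * v.v.2.2) ∈ V)

/-- Every matrix of the list has an inverse in the list. -/
def ckL (V : List P3) (syms : List M3) : Bool := syms.all (fun g => syms.any (fun h => ckS V g h))

/-- The matrix acts on the first two coordinates only. -/
def blk (g : M3) : Bool :=
  M3.casesOn g fun _ _ a3 _ _ b3 c1 c2 c3 => decide (a3 = 0 ∧ b3 = 0 ∧ c1 = 0 ∧ c2 = 0 ∧ c3 = 1)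

/-- Everything that the certificates say about the modulus `p`. -/
def DeadAll (p : ℕ) : Prop :=
  (∀ R ∈ Theta, ∀ u, Dd PP0 p (R.map toP) u) ∧ (∀ R ∈ Beta, ∀ u, Dd PP0 p (R.map toP) u) ∧
  ∀ b : Fin 3, (∀ r, Sd PP1 p (VU b) r ∨ Sd PP1 p (VU b) (-r)) ∧
    (∀ r, Sd (PPh b) p (VU b) r ∨ Sd PP1 p (VH b) (-r)) ∧ (∀ r, Sd (PPh b) p (VH b) r ∨ Sd (PPh b) p (VH b) (-r))

end Pool.Agent.Lib.MP_0bc52e_nt.K

end
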