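import Pool.Agent.Lib.MP_0bc52e_nt.LC.All
import Pool.Agent.Lib.MP_0bc52e_nt.K.All
import Pool.Agent.Lib.MP_0bc52e_nt.K.Main

/-!
# MP_0bc52e_nt: the main theorem with the primes up to `11`, from the certificates
-/

open scoped Pointwise
open MeasureTheory

namespace Pool.Agent.Lib.MP_0bc52e_nt.K

open Pool.Agent.Lib.MP_0bc52e_nt.LC Pool.Agent.Lib.MP_0bc52e_nt.T Pool.Agent.Lib.MP_0bc52e_nt.R

/-- Everything except the certificates. -/
theorem main13 (h_dead : ∀ p : ℕ, p.Prime → 13 ≤ p → p ≤ 157 → DeadAll p) : S_main13 :=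
  p_main13 h_dead K.q_fin T.q_N T.q_TH LC.q_occ LC.q_famcrit LC.q_famint LC.q_T3lp LC.q_T3pc
    LC.q_T3crit LC.q_T3zeq

/-- The form of the hand-in. -/
theorem faces13 (h_dead : ∀ p : ℕ, p.Prime → 13 ≤ p → p ≤ 157 → DeadAll p) :
    ∀ P : Set (Fin 3 → ℝ), IsIntegerPolytope P → IsFullDimensional P →
      ((∃ h : ℕ, 1 < h ∧ OccursAt P h) ↔
        (∃ c : Fin 3 → ℤ, ∀ x : Fin 3 → ℤ, (fun i => (x i : ℝ)) ∈ P →
          ¬ ∀ i, (2 : ℤ) ∣ x i - c i) ∨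
        (∃ c : Fin 3 → ℤ, ∀ x : Fin 3 → ℤ, (fun i => (x i : ℝ)) ∈ (2 : ℝ) • P →
          ¬ ∀ i, (3 : ℤ) ∣ x i - c i) ∨
        (∃ o : Fin 3 → ℤ, ∀ x : Fin 3 → ℤ,
          ((fun i => (x i : ℝ)) ∈ (3 : ℝ) • P → ¬ ∀ i, (5 : ℤ) ∣ x i - 3 * o i) ∧
          ((fun i => (x i : ℝ)) ∈ (4 : ℝ) • P → ¬ ∀ i, (5 : ℤ) ∣ x i - 4 * o i)) ∨
        (∃ c s t : ℤ, Odd c ∧ 3 ≤ |c| ∧ s ≤ t ∧
          IntegerEquivalent P (convexHull ℝ ({![0, 0, 0], ![0, 2, (c : ℝ)], ![1, 0, 0],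
            ![1, 0, 1], ![1, 1, 0], ![1, 1, 1], ![0, 1, (s : ℝ)],
            ![0, 1, (t : ℝ)]} : Set (Fin 3 → ℝ)))) ∨
        (volume P ≤ ENNReal.ofReal (8 * 10 ^ 9) ∧ ∃ q : ℕ, (q = 7 ∨ q = 11) ∧
          ∃ o : Fin 3 → ℤ, ∀ j : ℕ, 0 < j → j < q →
            ∀ x : Fin 3 → ℤ, (fun i => (x i : ℝ)) ∈ (j : ℝ) • P →
              ¬ ∀ i, (q : ℤ) ∣ x i - j * o i)) := by
  intro P hP hfull
  have hmain := main13 h_dead P hP hfull
  constructor
  · intro hocc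
    by_cases hvol : volume P ≤ ENNReal.ofReal (8 * 10 ^ 9)
    · rcases hmain.1 hocc with ⟨q, hq, hq11, hC⟩ | hF
      · have h2 := hq.two_le
        interval_cases q
        · exact Or.inl (criterion_two_iff.1 hC)
        · exact Or.inr (Or.inl (criterion_three_iff.1 hC))
        · exact absurd hq (by decide)
        · exact Or.inr (Or.inr (Or.inl ((LC.q_five P).1 hC)))
        · exact absurd hq (by decide)
        · exact Or.inr (Or.inr (Or.inr (Or.inr ⟨hvol, 7, Or.inl rfl, hC⟩)))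
        · exact absurd hq (by decide)
        · exact absurd hq (by decide)
        · exact absurd hq (by decide)
        · exact Or.inr (Or.inr (Or.inr (Or.inr ⟨hvol, 11, Or.inr rfl, hC⟩)))
      · exact Or.inr (Or.inr (Or.inr (Or.inl hF)))
    · have hlong := LC.q_mink P hP (not_le.1 hvol)
      rcases (LC.q_long P hP hfull hlong).1 hocc with h | h | h | h
      · exact Or.inl h
      · exact Or.inr (Or.inl h)
      · exact Or.inr (Or.inr (Or.inl h))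
      · exact Or.inr (Or.inr (Or.inr (Or.inl h)))
  · rintro (h | h | h | h | ⟨_, q, hq, hC⟩)
    · exact hmain.2 (Or.inl ⟨2, Nat.prime_two, by norm_num, criterion_two_iff.2 h⟩)
    · exact hmain.2 (Or.inl ⟨3, Nat.prime_three, by norm_num, criterion_three_iff.2 h⟩)
    · exact hmain.2 (Or.inl ⟨5, Nat.prime_five, by norm_num, (LC.q_five P).2 h⟩)
    · exact hmain.2 (Or.inr h)
    · rcases hq with rfl | rfl
      · exact hmain.2 (Or.inl ⟨7, by norm_num, by norm_num, hC⟩)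
      · exact hmain.2 (Or.inl ⟨11, by norm_num, by norm_num, hC⟩)

end Pool.Agent.Lib.MP_0bc52e_nt.K
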