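import Pool.Agent.Lib.MP_0bc52e_nt.K.Defs

/-!
Soundness of the checker of `K/Chk.lean` (MP_0bc52e_nt): statements, with their proofs in the docstrings.

The checker runs through a list of goals `g : G` and a code. `All PP p κ M D V0 g` is the meaning of the list (`K/Defs.lean`).
The main statement is [loop]: if the loop returns `true`, then `All` holds.
-/

namespace Pool.Agent.Lib.MP_0bc52e_nt.K

open Pool.Agent.Lib.MP_0bc52e_nt.LC Pool.Agent.Lib.MP_0bc52e_nt.T Pool.Agent.Lib.MP_0bc52e_nt.R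

/-! ## A. The arithmetic functions -/

/-- [op1] Proof. `st`: cases on `n`. `si`: cases on the integer, then `st`. `sb m n`: `Nat.rec` on `n - m` (truncated): if it is `0`, `n ≤ m` and `Int.ofNat (m - n) = m - n`; if it is `k + 1`, `Int.negSucc k = -(k + 1) = m - n`. `ngn`: cases on `n`. `ng`: cases.
`mu`, `ad`: cases on both integers; `Int.ofNat m = m`, `Int.negSucc m = -(m + 1)` (`Int.negSucc_eq`), then `ring`/`omega` (unfold with `show`; all are definitions by recursors, so each case holds by `rfl` up to these rewritings). -/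
def S_op1 : Prop :=
  (∀ (α : Type) (n : ℕ) (f : ℕ → α), st n f = f n) ∧ (∀ (α : Type) (i : ℤ) (f : ℤ → α), si i f = f i) ∧
  (∀ m n : ℕ, sb m n = (m : ℤ) - n) ∧ (∀ n : ℕ, ngn n = -(n : ℤ)) ∧ (∀ a : ℤ, ng a = -a) ∧
  (∀ a b : ℤ, mu a b = a * b) ∧ (∀ a b : ℤ, ad a b = a + b)

/-- [op2] Proof. By cases, as in [op1]. `mn c lo hi` is `c * lo` for `c ≥ 0` and `c * hi` for `c < 0` (use [op1] for `mu`). `md a q` for `q > 0`: `q = ofNat n`, `n > 0`; for `a = ofNat m`: `Int.ofNat (m % n) = a % q`; for `a = negSucc m`: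
`sb n (m % n + 1) = n - (m % n + 1) = a % q` (`Int.negSucc_emod`). `sel`: by evaluation; for `n ≥ 3` write `n = k + 3`. -/
def S_op2 : Prop :=
  (∀ a : ℤ, nn a = true ↔ 0 ≤ a) ∧ (∀ a : ℤ, ps a = true ↔ 0 < a) ∧ (∀ a b : ℤ, eqi a b = true ↔ a = b) ∧
  (∀ a b : Bool, an a b = true ↔ a = true ∧ b = true) ∧ (∀ c lo hi : ℤ, mn c lo hi = if 0 ≤ c then c * lo else c * hi) ∧
  (∀ a b c x y z : ℤ, dt a b c x y z = a * x + b * y + c * z) ∧ (∀ a q : ℤ, 0 < q → md a q = a % q) ∧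
  (∀ q a1 a2 a3 : ℤ, cod q a1 a2 a3 = (a1 * q + a2) * q + a3) ∧
  (∀ (α : Type) (a b c d : α), sel 0 a b c d = a ∧ sel 1 a b c d = b ∧ sel 2 a b c d = c ∧ ∀ k, sel (k + 3) a b c d = d) ∧
  (∀ l : G, gd true l = l ∧ gd false l = G.bad)

/-- [nth] Proof. Induction on the list, generalizing `n`: `nth df [] n = df`, `nth df (a :: l) 0 = a`, `nth df (a :: l) (n + 1) = nth df l n` (all by `rfl`). -/
def S_nth : Prop := ∀ (α : Type) (df : α) (l : List α) (n : ℕ), nth df l n ∈ l ∨ nth df l n = df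

/-- [mnle] Proof. [op2] for `mn`. If `0 ≤ c`: `c * lo * κ = c * (lo * κ) ≤ c * X`. If `c < 0`: `c * hi * κ = c * (hi * κ) ≤ c * X` as `X ≤ hi * κ`. -/
def S_mnle : Prop := ∀ c lo hi κ X : ℤ, Bt κ lo hi X → mn c lo hi * κ ≤ c * X

/-! ## B. Residues -/

/-- [okS] Proof. Induction on the list; `okF` by [op1], [op2]. -/
def S_okS : Prop := ∀ (k N p w1 w2 w3 a1 b1 a2 b2 a3 b3 : ℤ) (l : List F4), okS k N p w1 w2 w3 a1 b1 a2 b2 a3 b3 l = true →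
  ∀ c1 c2 c3 d : ℤ, F4.mk c1 c2 c3 d ∈ l → 0 ≤ k * (mn c1 a1 b1 + mn c2 a2 b2 + mn c3 a3 b3) + d * N + p * (c1 * w1 + c2 * w2 + c3 * w3)

/-- [klP] The kill of a box of residues, for one modulus. Uses [op1], [op2], [nth], [mnle], [okS]. Proof. Unfold `klO`: `0 < k`, `0 < q - k =: N`, and `okS` holds with the numbers `k, N, q`, some integers `w1, w2, w3` (the negatives of `z`), and a cell `F` that is either in `cells` or the default `[F4.mk 0 0 0 (-1)]`.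
The default is impossible: [okS] gives `0 ≤ -N`. Let `Q` be in the class, containing the points of `V0`, and `z = (-w1, -w2, -w3)`, `X = k • u - q • z`. For `f = F4.mk c1 c2 c3 d ∈ F`: `f.ev X N = k (c · u) + q (c · w) + d N ≥ k (mn c1 a1 b1 + ...) + q (c · w) + d N ≥ 0` by [mnle] (`κ = 1`) and `k > 0`.
So `CellOK` gives `y ∈ Q` with `N • y = ip X`, contrary to `Alv Q q u` for this `k` and `z`. -/
def S_klP : Prop := ∀ (PP : Set (ℝ × ℝ × ℝ) → Prop) (q : ℤ) (V0 : List P3) (cells : List (List F4)) (a1 b1 a2 b2 a3 b3 : ℤ) (d : ℕ) (k : ℤ),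
  CellOK PP V0 cells → klO 1 1 q q cells a1 b1 a2 b2 a3 b3 d k = true →
  ∀ u : ℤ × ℤ × ℤ, Bt 1 a1 b1 u.1 → Bt 1 a2 b2 u.2.1 → Bt 1 a3 b3 u.2.2 → Dd PP q V0 u

/-- [klU] The same for all moduli `p ≥ P0` at once. Uses [op1], [op2], [nth], [mnle], [okS]. Proof. Unfold `klO` with `al = P0`, `be = M`, `ga = P0 * M`, `q = P0`: `0 < k < P0`, and for all `f = F4.mk c1 c2 c3 d` of the cell `F`
`0 ≤ P0 k (mn c1 a1 b1 + ...) + d M (P0 - k) + P0 M (c · w)`; the default cell is impossible (`0 ≤ -M (P0 - k)`). Let `Q` be in the class, containing `V0`, `z = -w`, `x = k • u - p • z`, `X = P0 • x`, `N = p (P0 - k) > 0`. As `M u` is in `p` times the box, [mnle] (`κ = p`) gives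
`M f.ev X N = P0 k (c · (M u)) + P0 M p (c · w) + d M p (P0 - k) ≥ p (P0 k (mn c1 a1 b1 + ...) + P0 M (c · w) + d M (P0 - k)) ≥ 0`, so `f.ev X N ≥ 0`. `CellOK` gives `y ∈ Q` with `N • y = P0 • ip x`. Let `t = p (P0 - k) / (P0 (p - k))`; `0 < t ≤ 1` since
`P0 (p - k) - p (P0 - k) = k (p - P0) ≥ 0`. The point `t • y = t • y + (1 - t) • 0` is in `Q` (convex, contains the origin) and `(p - k) • (t • y) = (p (P0 - k) / P0) • y = ip x`: contrary to `Alv Q p u`. -/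
def S_klU : Prop := ∀ (PP : Set (ℝ × ℝ × ℝ) → Prop) (P0 M p : ℤ) (V0 : List P3) (cells : List (List F4)) (a1 b1 a2 b2 a3 b3 : ℤ) (d : ℕ) (k : ℤ),
  Cls PP → CellOK PP V0 cells → 0 < M → P0 ≤ p → klO P0 M (P0 * M) P0 cells a1 b1 a2 b2 a3 b3 d k = true →
  ∀ u : ℤ × ℤ × ℤ, Bt p a1 b1 (M * u.1) → Bt p a2 b2 (M * u.2.1) → Bt p a3 b3 (M * u.2.2) → Dd PP p V0 u

/-- [GOs] Splitting a goal. Proof. For `dl = 0`: `M * u.1 ≤ m * κ` or `m * κ ≤ M * u.1`. For `dl = 1`, `κ = M = 1`: `u.1 ≤ m` or `m + 1 ≤ u.1`. Apply the first or the second hypothesis. -/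
def S_GOs : Prop := ∀ (PP : Set (ℝ × ℝ × ℝ) → Prop) (p κ M : ℤ) (D : ℤ × ℤ × ℤ → Prop) (V : List P3) (a1 b1 a2 b2 a3 b3 m : ℤ) (dl : ℕ),
  (dl = 0 ∨ dl = 1 ∧ κ = 1 ∧ M = 1) →
  (GO PP p κ M D V a1 m a2 b2 a3 b3 → GO PP p κ M D V (m + dl) b1 a2 b2 a3 b3 → GO PP p κ M D V a1 b1 a2 b2 a3 b3) ∧
  (GO PP p κ M D V a1 b1 a2 m a3 b3 → GO PP p κ M D V a1 b1 (m + dl) b2 a3 b3 → GO PP p κ M D V a1 b1 a2 b2 a3 b3) ∧
  (GO PP p κ M D V a1 b1 a2 b2 a3 m → GO PP p κ M D V a1 b1 a2 b2 (m + dl) b3 → GO PP p κ M D V a1 b1 a2 b2 a3 b3)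

/-- [spO] Uses [op2] (`sel`), [GOs]. Proof. `ax = 0, 1, 2`: the list of goals is the two halves, then `l`; `Int.ofNat m = m`, `Int.ofNat (m + dl) = m + dl`; [GOs]. `ax ≥ 3`: `G.bad`, whose meaning is `False`. -/
def S_spO : Prop := ∀ (PP : Set (ℝ × ℝ × ℝ) → Prop) (p κ M : ℤ) (D : ℤ × ℤ × ℤ → Prop) (V0 : List P3) (a1 b1 a2 b2 a3 b3 : ℤ) (l : G) (ax m dl : ℕ),
  (dl = 0 ∨ dl = 1 ∧ κ = 1 ∧ M = 1) → All PP p κ M D V0 (spO dl a1 b1 a2 b2 a3 b3 l ax m) →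
  GO PP p κ M D V0 a1 b1 a2 b2 a3 b3 ∧ All PP p κ M D V0 l

/-- [per] Being alive depends only on the residues. Proof. Let `u' = u + p t`. If `(p - k) • y = ip (k • u' - p • z)`, then `k • u' - p • z = k • u - p • (z - k • t)`: contradiction to `Alv Q p u` for `z - k • t`. -/
def S_per : Prop := ∀ (PP : Set (ℝ × ℝ × ℝ) → Prop) (p : ℤ) (V : List P3) (u u' : ℤ × ℤ × ℤ), p ∣ u'.1 - u.1 → p ∣ u'.2.1 - u.2.1 → p ∣ u'.2.2 - u.2.2 →
  (∀ Q, Alv Q p u → Alv Q p u') ∧ (Dd PP p V u' → Dd PP p V u)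

/-! ## C. Points -/

/-- [cover] The boxes of `pushF` cover the family. Proof. Let `m` be an integer vector, `m3 = 0` if `dim = 0`. If `|m1|, |m2|, |m3| ≤ L`: the first goal with `κ = M' = 1` (in the case `dim = 0` the last interval is `[0, 0]`). Otherwise let `m_i` be a coordinate with the largest absolute value `κ = |m_i| ≥ L + 1`
(in the case `dim = 0`, `i ≠ 3`), and `M' = M = h (L + 1)`: `0 * κ ≤ M' ≤ h * κ`, `M' m_i = ± M κ`, and `-M κ ≤ M' m_j ≤ M κ` for the other coordinates; this is the goal of the cone of `i` and the sign of `m_i` (`dl = 0`). Here `ng M = -M` by [op1]. All goals of `pushF` are followed by `l`. -/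
def S_pushF : Prop := ∀ (PP : Set (ℝ × ℝ × ℝ) → Prop) (p κ₀ M₀ : ℤ) (D : ℤ × ℤ × ℤ → Prop) (V0 V : List P3) (u1 u2 u3 L M h : ℤ) (l : G) (f : Fam),
  0 ≤ L → 0 < h → M = h * (L + 1) → All PP p κ₀ M₀ D V0 (pushF V u1 u2 u3 L M h l f) →
  (∀ m1 m2 m3 : ℤ, f.ok m3 → Dd PP p (f.pt m1 m2 m3 :: V) (u1, u2, u3)) ∧ All PP p κ₀ M₀ D V0 l

/-- [pushL] Uses [pushF]. Proof. For the empty list the goal is `G.bad`. Otherwise induction on the list. -/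
def S_pushL : Prop := ∀ (PP : Set (ℝ × ℝ × ℝ) → Prop) (p κ₀ M₀ : ℤ) (D : ℤ × ℤ × ℤ → Prop) (V0 V : List P3) (u1 u2 u3 L M h : ℤ) (l : G) (fs : List Fam),
  0 ≤ L → 0 < h → M = h * (L + 1) → All PP p κ₀ M₀ D V0 (pushL V u1 u2 u3 L M h l fs) →
  fs ≠ [] ∧ (∀ f ∈ fs, ∀ m1 m2 m3 : ℤ, f.ok m3 → Dd PP p (f.pt m1 m2 m3 :: V) (u1, u2, u3)) ∧ All PP p κ₀ M₀ D V0 l

/-- [alO] Uses [op1], [op2], [nth], [pushL]. Proof. Unfold `alO`: the box is one point (`a1 = b1`, ...; otherwise `G.bad`), so `u = (a1, a2, a3)`. With `L` a natural number and `M = 256 (L + 1)`, [pushL] gives a nonempty list `fs`, which is in `ofams` by [nth] (it is not the default `[]`), such that for `f ∈ fs` and all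
admissible `m` the configuration with `f.pt m` added is dead at `u`. Let `Q` be in the class, containing `V0`, alive at `u`. By `FamOK` there are `f ∈ fs` and `m` with `ip (f.pt m).v ∈ Q`: contradiction. -/
def S_alO : Prop := ∀ (PP : Set (ℝ × ℝ × ℝ) → Prop) (p : ℤ) (D : ℤ × ℤ × ℤ → Prop) (V0 : List P3) (ofams : List (List Fam)) (a1 b1 a2 b2 a3 b3 : ℤ) (l : G) (d : ℕ),
  FamOK PP ofams → All PP p 1 1 D V0 (alO V0 ofams a1 b1 a2 b2 a3 b3 l d) →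
  GO PP p 1 1 D V0 a1 b1 a2 b2 a3 b3 ∧ All PP p 1 1 D V0 l

/-- [syO] Uses [op1], [op2], [nth], [per]. Proof. Unfold `syO`: the box is one point, `u = (a1, a2, a3)`, and for a matrix `g` of the list `I3 :: syms` ([nth]) the vector `w = g u mod q` has smaller code number. `D w` by `SymOK`. So, by the hypothesis of `GO`, `V0` is dead at `w`, and at `g u` ([per]). Let `Q` be in the class,
containing `V0`, alive at `u`; `SymOK` gives `Q'`, alive at `g u`: contradiction. -/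
def S_syO : Prop := ∀ (PP : Set (ℝ × ℝ × ℝ) → Prop) (q : ℤ) (D : ℤ × ℤ × ℤ → Prop) (V0 : List P3) (syms : List M3) (a1 b1 a2 b2 a3 b3 : ℤ) (l : G) (d : ℕ),
  0 < q → SymOK PP q D V0 (I3 :: syms) → All PP q 1 1 D V0 (syO q syms a1 b1 a2 b2 a3 b3 l d) →
  GO PP q 1 1 D V0 a1 b1 a2 b2 a3 b3 ∧ All PP q 1 1 D V0 l

/-- [stP] One step for a box of residues, one modulus. Uses [op1], [op2], [klP], [spO], [alO], [syO]. Proof. `d % 4` is `0` (split, `dl = 1`), `1` (kill: `gd` gives `G.bad` if the check fails), `2` (a point), `3` (a symmetry); `Nat.rec _ _ 1` reduces to the second branch. -/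
def S_stP : Prop := ∀ (PP : Set (ℝ × ℝ × ℝ) → Prop) (q : ℤ) (D : ℤ × ℤ × ℤ → Prop) (V0 : List P3) (cells : List (List F4)) (ofams : List (List Fam)) (syms : List M3)
  (a1 b1 a2 b2 a3 b3 : ℤ) (l : G) (d : ℕ), 0 < q → CellOK PP V0 cells → FamOK PP ofams → SymOK PP q D V0 (I3 :: syms) →
  All PP q 1 1 D V0 (stO 1 1 q q 1 cells V0 ofams syms a1 b1 a2 b2 a3 b3 l d) → GO PP q 1 1 D V0 a1 b1 a2 b2 a3 b3 ∧ All PP q 1 1 D V0 l

/-- [stU] One step for a box of residues, all moduli `p ≥ P0`. Uses [op1], [op2], [klU], [spO]. Proof. As [stP] with `dl = 0`: the digits `2` and `3` give `G.bad`. -/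
def S_stU : Prop := ∀ (PP : Set (ℝ × ℝ × ℝ) → Prop) (P0 M p : ℤ) (D : ℤ × ℤ × ℤ → Prop) (V0 : List P3) (cells : List (List F4)) (ofams : List (List Fam)) (syms : List M3)
  (a1 b1 a2 b2 a3 b3 : ℤ) (l : G) (d : ℕ), Cls PP → CellOK PP V0 cells → 0 < M → P0 ≤ p →
  All PP p p M D V0 (stO P0 M (P0 * M) P0 0 cells V0 ofams syms a1 b1 a2 b2 a3 b3 l d) → GO PP p p M D V0 a1 b1 a2 b2 a3 b3 ∧ All PP p p M D V0 l

/-- [sh] The shadow. Proof. Let `Y = N x - q`, `Δ = A · (B × C) > 0` and `μ₁ = n₁ · Y`, `μ₂ = n₂ · Y`, `μ₃ = n₃ · Y` with `n₁ = B × C`, `n₂ = C × A`, `n₃ = A × B`, all `≥ 0`. Cramer's rule (an identity of polynomials, `ring`): `Δ Y = μ₁ A + μ₂ B + μ₃ C`. Insert `A = q - N a`, ...: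
`Δ (N x - q) = (μ₁ + μ₂ + μ₃) q - N (μ₁ a + μ₂ b + μ₃ c)`, so `(Δ + μ₁ + μ₂ + μ₃) q = N (Δ x + μ₁ a + μ₂ b + μ₃ c)`. The point `y = (Δ x + μ₁ a + μ₂ b + μ₃ c) / (Δ + μ₁ + μ₂ + μ₃)` is in `Q` (convex) and `N • y = q`. -/
def S_sh : Prop := ∀ (Q : Set (ℝ × ℝ × ℝ)) (x a b c q A B C : ℤ × ℤ × ℤ) (N : ℤ), Convex ℝ Q → ip x ∈ Q → ip a ∈ Q → ip b ∈ Q → ip c ∈ Q → 0 < N →
  A = q - N • a → B = q - N • b → C = q - N • c → 0 < A.1 * (B.2.1 * C.2.2 - B.2.2 * C.2.1) + A.2.1 * (B.2.2 * C.1 - B.1 * C.2.2) + A.2.2 * (B.1 * C.2.1 - B.2.1 * C.1) →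
  0 ≤ (B.2.1 * C.2.2 - B.2.2 * C.2.1) * (N * x.1 - q.1) + (B.2.2 * C.1 - B.1 * C.2.2) * (N * x.2.1 - q.2.1) + (B.1 * C.2.1 - B.2.1 * C.1) * (N * x.2.2 - q.2.2) →
  0 ≤ (C.2.1 * A.2.2 - C.2.2 * A.2.1) * (N * x.1 - q.1) + (C.2.2 * A.1 - C.1 * A.2.2) * (N * x.2.1 - q.2.1) + (C.1 * A.2.1 - C.2.1 * A.1) * (N * x.2.2 - q.2.2) →
  0 ≤ (A.2.1 * B.2.2 - A.2.2 * B.2.1) * (N * x.1 - q.1) + (A.2.2 * B.1 - A.1 * B.2.2) * (N * x.2.1 - q.2.1) + (A.1 * B.2.1 - A.2.1 * B.1) * (N * x.2.2 - q.2.2) →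
  ∃ y ∈ Q, (N : ℝ) • y = ip q

/-- [okG] Uses [op1], [op2], [mnle]. Proof. `okG` says `0 ≤ N (mn (t1 n1) a1 b1 + mn (t2 n2) a2 b2 + mn (t3 n3) a3 b3) + mn c a0 b0` with `c = n1 (N e1 - q1) + n2 (N e2 - q2) + n3 (N e3 - q3)`. Multiply by `κ > 0` and use [mnle] for `M m1, M m2, M m3` and `M`:
`0 ≤ N (t1 n1 M m1 + t2 n2 M m2 + t3 n3 M m3) + c M = M (n1 (N (t1 m1 + e1) - q1) + ...)`; divide by `M`. -/
def S_okG : Prop := ∀ N q1 q2 q3 t1 t2 t3 e1 e2 e3 a0 b0 a1 b1 a2 b2 a3 b3 n1 n2 n3 m1 m2 m3 κ M : ℤ, 0 < N → 0 < κ → 0 < M →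
  okG N q1 q2 q3 t1 t2 t3 e1 e2 e3 a0 b0 a1 b1 a2 b2 a3 b3 n1 n2 n3 = true →
  Bt κ a0 b0 M → Bt κ a1 b1 (M * m1) → Bt κ a2 b2 (M * m2) → Bt κ a3 b3 (M * m3) →
  0 ≤ n1 * (N * (t1 * m1 + e1) - q1) + n2 * (N * (t2 * m2 + e2) - q2) + n3 * (N * (t3 * m3 + e3) - q3)

/-- [klX] The kill of a box of points. Uses [op1], [op2], [nth], [sh], [okG]. Proof. Unfold `klX, kl2, qv, kl3` (remove all `si` by [op1]): `0 < k`, `0 < N = q - k`, there are integers `w1, w2, w3` with `qi = k ui + q wi`, three vectors `a, b, c`, each of them in the list `V` or zero ([nth]), `A = (q1, q2, q3) - N a`, ..., `0 < A · (B × C)`, and three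
checks `okG`. Let `Q` be in the class, containing the points of the list `f.pt m :: V`; it contains the origin. By [okG] the hypotheses of [sh] hold for `x = f.pt m`, so there is `y ∈ Q` with `N • y = ip (q1, q2, q3)`, and `(q1, q2, q3) = k • u - q • z` with `z = -w`: contrary to `Alv Q q u`. -/
def S_klX : Prop := ∀ (PP : Set (ℝ × ℝ × ℝ) → Prop) (q : ℤ) (V : List P3) (u1 u2 u3 : ℤ) (f : Fam) (a0 b0 a1 b1 a2 b2 a3 b3 : ℤ) (d : ℕ) (k : ℤ), Cls PP →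
  klX q V u1 u2 u3 f a0 b0 a1 b1 a2 b2 a3 b3 d k = true → ∀ m1 m2 m3 κ M : ℤ, 0 < κ → 0 < M → Bt κ a0 b0 M → Bt κ a1 b1 (M * m1) →
  Bt κ a2 b2 (M * m2) → Bt κ a3 b3 (M * m3) → Dd PP q (f.pt m1 m2 m3 :: V) (u1, u2, u3)

/-- [spX] Uses [op2] (`sel`). Proof. The four axes: for `dl = 0`, `X ≤ m κ` or `m κ ≤ X` for `X = M, M m1, M m2, M m3`. For `dl = 1` (`κ = M = 1`): `X ≤ m` or `m + 1 ≤ X`. If `dl ≥ 2`, `GX` holds trivially, and `All l` is the last part of the hypothesis. -/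
def S_spX : Prop := ∀ (PP : Set (ℝ × ℝ × ℝ) → Prop) (p κ₀ M₀ : ℤ) (D : ℤ × ℤ × ℤ → Prop) (V0 V : List P3) (u1 u2 u3 : ℤ) (f : Fam) (dl : ℕ)
  (a0 b0 a1 b1 a2 b2 a3 b3 : ℤ) (l : G) (ax : ℕ) (m : ℤ), All PP p κ₀ M₀ D V0 (spX V u1 u2 u3 f dl a0 b0 a1 b1 a2 b2 a3 b3 l ax m (m + dl)) → ax < 4 →
  GX PP p V (u1, u2, u3) f dl a0 b0 a1 b1 a2 b2 a3 b3 ∧ All PP p κ₀ M₀ D V0 l

/-- [clf] Proof. `PC3 Q` for the class `(c % 2, c / 2 % 2, c / 4)` gives an integer point `(x, y, z)` of `Q` with `x = c % 2 + 2 m1` and so on. -/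
def S_clf : Prop := ∀ (Q : Set (ℝ × ℝ × ℝ)) (c : ℕ), PC3 Q → ∃ m1 m2 m3 : ℤ, (clf c).ok m3 ∧ ip ((clf c).pt m1 m2 m3).v ∈ Q

/-- [alX] Uses [op1], [op2], [pushF], [clf]. Proof. Unfold `alX`: the box is one point, `m = (a1, a2, a3)` (as `dl = 1`: `κ = M = 1`), and [pushF] for the list `f.pt a1 a2 a3 :: V` and the family `clf c`: with any point of this family added the configuration is dead at `u`. A polytope `Q` of the class that contains `f.pt a1 a2 a3 :: V` contains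
a point of the family `clf c` ([clf]), so it is not alive at `u`. -/
def S_alX : Prop := ∀ (PP : Set (ℝ × ℝ × ℝ) → Prop) (p κ₀ M₀ : ℤ) (D : ℤ × ℤ × ℤ → Prop) (V0 V : List P3) (u1 u2 u3 : ℤ) (f : Fam) (a0 b0 a1 b1 a2 b2 a3 b3 : ℤ) (l : G) (d : ℕ),
  Cls PP → All PP p κ₀ M₀ D V0 (alX V u1 u2 u3 f a1 b1 a2 b2 a3 b3 l d) →
  GX PP p V (u1, u2, u3) f 1 a0 b0 a1 b1 a2 b2 a3 b3 ∧ All PP p κ₀ M₀ D V0 l

/-- [stX] One step for a box of points. Uses [op1], [op2], [klX], [spX], [alX]. Proof. `d % 4` is `0` (split), `1` (kill), `2` (a point; for `dl = 0` this is `G.bad`, for `dl = k + 1`: if `dl = 1` use [alX]; if `dl ≥ 2`, `GX` is trivial and `All l` follows as in [alX]), `3` (`G.bad`). In the split the axis is `(d / 4) % 4 < 4`. -/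
def S_stX : Prop := ∀ (PP : Set (ℝ × ℝ × ℝ) → Prop) (q κ₀ M₀ : ℤ) (D : ℤ × ℤ × ℤ → Prop) (V0 V : List P3) (u1 u2 u3 : ℤ) (f : Fam) (dl : ℕ)
  (a0 b0 a1 b1 a2 b2 a3 b3 : ℤ) (l : G) (d : ℕ), Cls PP → All PP q κ₀ M₀ D V0 (stX q V u1 u2 u3 f dl a0 b0 a1 b1 a2 b2 a3 b3 l d) →
  GX PP q V (u1, u2, u3) f dl a0 b0 a1 b1 a2 b2 a3 b3 ∧ All PP q κ₀ M₀ D V0 l

/-! ## D. The loop -/

/-- [loop] Uses [op1]. Proof. Induction on `fuel`, for all `c, cs, g`. `fuel = 0`: the value is `false`. `fuel = n + 1`: cases on `g`. `nil`: `True`. `bad`: the value is `false`. `o ...`: `dig` with `c = 0` is `pop`: `false` for the empty list of codes, otherwise the loop with the same goals and less fuel; for `c = k + 1` it is the loop for `stO ... (c % 2 ^ 52)`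
(remove `st` by [op1]), so `All (stO ...)` by induction and the first hypothesis gives `All g`. `x ...`: in the same way with `stX` and the second hypothesis. -/
def S_loop : Prop := ∀ (PP : Set (ℝ × ℝ × ℝ) → Prop) (al be ga q : ℤ) (dl : ℕ) (cells : List (List F4)) (V0 : List P3) (ofams : List (List Fam)) (syms : List M3)
  (p κ M : ℤ) (D : ℤ × ℤ × ℤ → Prop),
  (∀ (a1 b1 a2 b2 a3 b3 : ℤ) (l : G) (d : ℕ), All PP p κ M D V0 (stO al be ga q dl cells V0 ofams syms a1 b1 a2 b2 a3 b3 l d) →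
    GO PP p κ M D V0 a1 b1 a2 b2 a3 b3 ∧ All PP p κ M D V0 l) →
  (∀ (V : List P3) (u1 u2 u3 : ℤ) (f : Fam) (dl : ℕ) (a0 b0 a1 b1 a2 b2 a3 b3 : ℤ) (l : G) (d : ℕ), All PP p κ M D V0 (stX q V u1 u2 u3 f dl a0 b0 a1 b1 a2 b2 a3 b3 l d) →
    GX PP p V (u1, u2, u3) f dl a0 b0 a1 b1 a2 b2 a3 b3 ∧ All PP p κ M D V0 l) →
  ∀ (fuel c : ℕ) (cs : List ℕ) (g : G), loop al be ga q dl cells V0 ofams syms fuel c cs g = true → All PP p κ M D V0 g

/-- [noX] A list without `x` goals. Proof. For the uniform trees: the steps `stO` with `dl = 0` never produce `x` goals, but [loop] asks for all goals. Here the second hypothesis of [loop] is replaced by: the list `g` has no `x` goals. Proof as for [loop], with the additional invariant that there are no `x` goals (`spO` and `gd` keep it; `stO` with `dl = 0`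
is `spO` or `gd _ l` or `G.bad`). Uses [op1], [op2]. -/
def S_loopU : Prop := ∀ (PP : Set (ℝ × ℝ × ℝ) → Prop) (al be ga q : ℤ) (cells : List (List F4)) (V0 : List P3) (ofams : List (List Fam)) (syms : List M3)
  (p κ M : ℤ) (D : ℤ × ℤ × ℤ → Prop),
  (∀ (a1 b1 a2 b2 a3 b3 : ℤ) (l : G) (d : ℕ), All PP p κ M D V0 (stO al be ga q 0 cells V0 ofams syms a1 b1 a2 b2 a3 b3 l d) →
    GO PP p κ M D V0 a1 b1 a2 b2 a3 b3 ∧ All PP p κ M D V0 l) →
  ∀ (fuel c : ℕ) (cs : List ℕ) (g : G), (G.rec True True (fun _ _ _ _ _ _ _ ih => ih) (fun _ _ _ _ _ _ _ _ _ _ _ _ _ _ _ _ => False) g : Prop) →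
    loop al be ga q 0 cells V0 ofams syms fuel c cs g = true → All PP p κ M D V0 g

/-- [coreP] One modulus. Uses [stP], [stX], [loop]. -/
def S_coreP : Prop := ∀ (PP : Set (ℝ × ℝ × ℝ) → Prop) (q : ℤ) (D : ℤ × ℤ × ℤ → Prop) (V0 : List P3) (cells : List (List F4)) (ofams : List (List Fam)) (syms : List M3),
  0 < q → Cls PP → CellOK PP V0 cells → FamOK PP ofams → SymOK PP q D V0 (I3 :: syms) →
  ∀ (fuel c : ℕ) (cs : List ℕ) (g : G), loop 1 1 q q 1 cells V0 ofams syms fuel c cs g = true → All PP q 1 1 D V0 g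

/-- [coreU] All moduli `p ≥ P0`. Uses [stU], [loopU]. -/
def S_coreU : Prop := ∀ (PP : Set (ℝ × ℝ × ℝ) → Prop) (P0 M p : ℤ) (D : ℤ × ℤ × ℤ → Prop) (V0 : List P3) (cells : List (List F4)) (ofams : List (List Fam)) (syms : List M3),
  Cls PP → CellOK PP V0 cells → 0 < M → P0 ≤ p →
  ∀ (fuel c : ℕ) (cs : List ℕ) (g : G), (G.rec True True (fun _ _ _ _ _ _ _ ih => ih) (fun _ _ _ _ _ _ _ _ _ _ _ _ _ _ _ _ => False) g : Prop) →
    loop P0 M (P0 * M) P0 0 cells V0 ofams syms fuel c cs g = true → All PP p p M D V0 g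

/-- [sd] From goals to dead residues, one modulus. Uses [op2] (`cod`), [per]. Proof. First all `u` with `DA p L u` are dead, by strong induction on the natural number `(cod p u).toNat` (`cod p u = (u.1 p + u.2.1) p + u.2.2 ≥ 0` for reduced residues): `u` is in the box of the interval `e` that contains `u.2.2`, and the hypothesis of
`GO` is the induction hypothesis. For `0 ≤ r < p` in an interval and any `u1, u2`: the reduced residues `(u1 % p, u2 % p, r)`; [per]. -/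
def S_sd : Prop := ∀ (PP : Set (ℝ × ℝ × ℝ) → Prop) (p : ℤ) (V : List P3) (L : List (ℤ × ℤ)), 0 < p →
  (∀ e ∈ L, GO PP p 1 1 (DA p L) V 0 (p - 1) 0 (p - 1) e.1 e.2) → ∀ r : ℤ, 0 ≤ r → r < p → inl L r = true → Sd PP p V r

/-- [sdU] The same, uniformly. Uses [op2] (`cod`), [per]. Proof. First all `u` with `0 ≤ u_i ≤ p` are dead, by strong induction on `(cod p u).toNat` (nonnegative); such `u` satisfies `0 * p ≤ M * u_i ≤ M * p`. For any `u` take the reduced residues `u_i % p` and use [per]. -/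
def S_sdU : Prop := ∀ (PP : Set (ℝ × ℝ × ℝ) → Prop) (p M : ℤ) (V : List P3), 0 < p → 0 < M →
  GO PP p p M (fun u => (0 ≤ u.1 ∧ u.1 ≤ p) ∧ (0 ≤ u.2.1 ∧ u.2.1 ≤ p) ∧ (0 ≤ u.2.2 ∧ u.2.2 ≤ p)) V 0 M 0 M 0 M → ∀ u, Dd PP p V u

/-- [sdA] Uses [sd]. Proof. `L = [(0, p - 1)]`; for any `u`, `u.2.2 % p` is in the interval; [per] for the last coordinate. -/
def S_sdA : Prop := ∀ (PP : Set (ℝ × ℝ × ℝ) → Prop) (p : ℤ) (V : List P3), 0 < p →
  GO PP p 1 1 (DA p [(0, p - 1)]) V 0 (p - 1) 0 (p - 1) 0 (p - 1) → ∀ u, Dd PP p V u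

/-- [cov] Uses [per]. Proof. Let `r0 = (r % p).toNat < p`. By `cov` (`List.all_eq_true`, `List.mem_range`) `inl L r0` or `inl L' ((p - r0) % p)`; `r ≡ r0`, `-r ≡ (p - r0) % p` modulo `p`; [per] for the last coordinate. -/
def S_cov : Prop := ∀ (PP PP' : Set (ℝ × ℝ × ℝ) → Prop) (p : ℕ) (V V' : List P3) (L L' : List (ℤ × ℤ)), 0 < p → cov p L L' = true →
  (∀ r : ℤ, 0 ≤ r → r < p → inl L r = true → Sd PP p V r) → (∀ r : ℤ, 0 ≤ r → r < p → inl L' r = true → Sd PP' p V' r) →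
  ∀ r : ℤ, Sd PP p V r ∨ Sd PP' p V' (-r)

/-! ## E. The hypotheses -/

/-- [cls] Proof. `IsLP3 Q` gives `Convex ℝ Q` (`convex_convexHull`). -/
def S_cls : Prop := Cls PP0 ∧ Cls PP1 ∧ ∀ b, Cls (PPh b)

/-- [fam] Proof. `of0`: `PC3` for the eight classes (`x = b1 + 2 m1`, ...). `of1`: the point `(x, y, -1)` with `m1 = x`, `m2 = y`, `m3 = 0`. `ofh`: from `Ho b x`, by cases on `b`: `x.1 = 1 + 3 m1`, `x.2.1 = -1 + 3 m2`, or `x.1 = -1 + 3 m1`, `x.2.1 = 1 + 3 m2`; for `b = 1`: `x.1 = 1 + 2 m1`, `x.2.1 = 2 m2`; for `b = 2`: `x.1 = 1 + 2 m1`,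
`x.2.1 = 1 + 2 m2`; `m3 = 0`. -/
def S_fam : Prop := FamOK PP0 of0 ∧ FamOK PP1 of1 ∧ ∀ b, FamOK (PPh b) (ofh b)

/-- [cell4] Cells from barycentric coordinates. Proof. Let `Fi = fi.ev x N ≥ 0` and `λi = Ei Fi / D ≥ 0`. The identities give `∑ Ei Fi = D N`, `∑ Ei Fi wi = D x` (linear combinations of the sixteen equations with coefficients `x.1, x.2.1, x.2.2, N`). So `y = ∑ (λi / N) wi ∈ Q` (convex combination) and `N • y = ip x`. -/
def S_cell4 : Prop := ∀ (PP : Set (ℝ × ℝ × ℝ) → Prop) (V0 : List P3) (a0 b0 c0 d0 a1 b1 c1 d1 a2 b2 c2 d2 a3 b3 c3 d3 x0 y0 z0 x1 y1 z1 x2 y2 z2 x3 y3 z3 E0 E1 E2 E3 D : ℤ),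
  Cls PP → 0 < D → (0 ≤ E0 ∧ 0 ≤ E1 ∧ 0 ≤ E2 ∧ 0 ≤ E3) →
  (E0 * a0 + E1 * a1 + E2 * a2 + E3 * a3 = 0 ∧ E0 * b0 + E1 * b1 + E2 * b2 + E3 * b3 = 0 ∧ E0 * c0 + E1 * c1 + E2 * c2 + E3 * c3 = 0 ∧ E0 * d0 + E1 * d1 + E2 * d2 + E3 * d3 = D) →
  (E0 * a0 * x0 + E1 * a1 * x1 + E2 * a2 * x2 + E3 * a3 * x3 = D ∧ E0 * b0 * x0 + E1 * b1 * x1 + E2 * b2 * x2 + E3 * b3 * x3 = 0 ∧
    E0 * c0 * x0 + E1 * c1 * x1 + E2 * c2 * x2 + E3 * c3 * x3 = 0 ∧ E0 * d0 * x0 + E1 * d1 * x1 + E2 * d2 * x2 + E3 * d3 * x3 = 0) →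
  (E0 * a0 * y0 + E1 * a1 * y1 + E2 * a2 * y2 + E3 * a3 * y3 = 0 ∧ E0 * b0 * y0 + E1 * b1 * y1 + E2 * b2 * y2 + E3 * b3 * y3 = D ∧
    E0 * c0 * y0 + E1 * c1 * y1 + E2 * c2 * y2 + E3 * c3 * y3 = 0 ∧ E0 * d0 * y0 + E1 * d1 * y1 + E2 * d2 * y2 + E3 * d3 * y3 = 0) →
  (E0 * a0 * z0 + E1 * a1 * z1 + E2 * a2 * z2 + E3 * a3 * z3 = 0 ∧ E0 * b0 * z0 + E1 * b1 * z1 + E2 * b2 * z2 + E3 * b3 * z3 = 0 ∧
    E0 * c0 * z0 + E1 * c1 * z1 + E2 * c2 * z2 + E3 * c3 * z3 = D ∧ E0 * d0 * z0 + E1 * d1 * z1 + E2 * d2 * z2 + E3 * d3 * z3 = 0) →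
  (P3.mk x0 y0 z0 ∈ V0 ∧ P3.mk x1 y1 z1 ∈ V0 ∧ P3.mk x2 y2 z2 ∈ V0 ∧ P3.mk x3 y3 z3 ∈ V0) →
  CellOK PP V0 [[F4.mk a0 b0 c0 d0, F4.mk a1 b1 c1 d1, F4.mk a2 b2 c2 d2, F4.mk a3 b3 c3 d3]]

/-- [frQ] Frames that fix the origin. Uses [fr1], [fr2] of `T/StmN.lean` (`T.S_fr1`, `T.S_fr2`). Proof. `PP0`: [fr2] for `IsLP3` and `PC3`, and `f 0 = 0`. `Alv`: `f v = v.1 a + v.2.1 b + v.2.2 c` for the integer vectors `a, b, c` (as `f 0 = 0`, the translation vanishes), so `f` is linear and `f (ip w)` is an integer vector for integer `w`. If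
`y ∈ f ⁻¹' Q` and `(p - k) • y = ip (k • w - p • z)`, then `(p - k) • f y = f (ip (k • w - p • z)) = ip (k • u - p • z')` where `f (ip z) = ip z'`: contrary to `Alv Q p u`. -/
def S_frQ : Prop := ∀ f, IsFr f → f (ip (0, 0, 0)) = ip (0, 0, 0) → ∀ Q, (PP0 Q → PP0 (f ⁻¹' Q)) ∧
  ∀ (p : ℤ) (u w : ℤ × ℤ × ℤ), f (ip w) = ip u → Alv Q p u → Alv (f ⁻¹' Q) p w

/-- [sym0] Uses [frQ]. Proof. The domain: `0 ≤ _ % p < p`, and the only interval is `[0, p - 1]`. For `g ∈ I3 :: syms` there is `h` in the list with `ckS V g h`: `h g = 1`, `det h = ±1` and `h` maps the points of `V` to points of `V` (for `g = I3` take the `h` that the list gives for it, as `I3 ∈ syms`, or simply `Q' = Q`: `I3.ap u = u`). Let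
`f v = h v`, a frame that fixes the origin, `Q' = f ⁻¹' Q`. `PP0 Q'` by [frQ]; for `v ∈ V`: `f (ip v.v) = ip w.v` with `w ∈ V`, in `Q`. `f (ip (g u)) = ip (h g u) = ip u`, so `Alv Q' p (g u)` by [frQ]. -/
def S_sym0 : Prop := ∀ (V : List P3) (syms : List M3) (p : ℤ), 0 < p → ckL V syms = true →
  SymOK PP0 p (DA p [(0, p - 1)]) V (I3 :: syms)

/-- [sym1] Uses [frQ]. Proof. As [sym0]. `blk g`: `(g u).2.2 = u.2.2`, so the last coordinate of the reduced residue is unchanged, and the domain `DA p L` is preserved for any `L`. `PP1`: let `(x, y, -1) ∈ Q`; `w = g (x, y, -1)` has last coordinate `-1` and `f (ip w) = ip (h g (x, y, -1)) = ip (x, y, -1)`. -/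
def S_sym1 : Prop := ∀ (V : List P3) (syms : List M3) (p : ℤ) (L : List (ℤ × ℤ)), 0 < p → ckL V syms = true → syms.all blk = true →
  SymOK PP1 p (DA p L) V (I3 :: syms)

/-- [symI] Proof. `I3.ap u = u`, `Q' = Q`; for reduced residues `u.1 % p = u.1` and so on. -/
def S_symI : Prop := ∀ (PP : Set (ℝ × ℝ × ℝ) → Prop) (V : List P3) (p : ℤ) (L : List (ℤ × ℤ)), SymOK PP p (DA p L) V [I3, I3]

/-! ## F. Assembly -/

/-- [alv] From the criterion. Proof. `Cr Q p`: `Crit3 Q p a b c`. Take `u = (-a, -b, -c)`. If `0 < k < p`, `y ∈ Q` and `(p - k) • y = ip (k • u - p • z)`, then for `h = p - k` (a natural number, `0 < h < p`) the integer point `k • u - p • z` is `h • y` and `≡ k u = -(k a, k b, k c) ≡ h (a, b, c)` modulo `p`: contradiction. -/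
def S_alv : Prop := ∀ (Q : Set (ℝ × ℝ × ℝ)) (p : ℕ), Cr Q p → ∃ u, Alv Q p u

/-- [frH] Frames for a hole point (`s = 1` or `s = -1`). Proof. `b = 0`, `x ≡ (1, -1)` modulo `3`: `f v = (v.1 + α v.2.2, v.2.1 + β v.2.2, s v.2.2)` with `α = (x.1 - 1)/3`, `β = (x.2.1 + 1)/3`. `b = 0`, `x ≡ (-1, 1)`: `f v = (v.2.1 + α v.2.2, v.1 + β v.2.2, s v.2.2)` with `α = (x.1 + 1)/3`, `β = (x.2.1 - 1)/3` (it exchanges
`(1, 0, 0)` and `(0, 1, 0)`, and fixes `(-1, -1, 0)`). `b = 1`: `f v = (v.1 + α v.2.2, v.2.1 + β v.2.2, s v.2.2)`, `α = (x.1 - 1)/2`, `β = x.2.1/2`. `b = 2`: the same with `α = (x.1 - 1)/2`, `β = (x.2.1 - 1)/2`. In all cases `f (ip (hp b)) = ip x`, the base is mapped to itself, the last coordinate is multiplied by `s`. The last claim: for `y` with last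
coordinate `-s` the preimage is an integer vector with last coordinate `-1`. For `y` with last coordinate `-s m` (`m = 3` for `b = 0`, `m = 2` otherwise) with the residues of a hole, the preimage `w` has last coordinate `-m`, and `(y.1, y.2.1) = (w.1, w.2.1) - m (α, β)` (or exchanged), so it has the residues of a hole: `Ho b w`. -/
def S_frH : Prop := ∀ (b : Fin 3) (s : ℤ) (x : ℤ × ℤ × ℤ), (s = 1 ∨ s = -1) → Ho b (x.1, x.2.1, -s * x.2.2) → ∃ f, IsFr f ∧ f (ip (0, 0, 0)) = ip (0, 0, 0) ∧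
  (∀ v ∈ Base b, ∃ w ∈ Base b, f (ip v) = ip w) ∧ f (ip (hp b)) = ip x ∧ (∀ u w : ℤ × ℤ × ℤ, f (ip w) = ip u → u.2.2 = s * w.2.2) ∧
  (∀ u : ℤ × ℤ × ℤ, ∃ w : ℤ × ℤ × ℤ, f (ip w) = ip u) ∧ ∀ y w : ℤ × ℤ × ℤ, f (ip w) = ip y → Ho b (y.1, y.2.1, s * y.2.2) → Ho b w

/-- [frU] The same for a point of level `s`. Proof. `f v = (v.1 + x.1 v.2.2, v.2.1 + x.2.1 v.2.2, s v.2.2)`. It fixes the base, `f (0, 0, 1) = x`. For `y` with last coordinate `-s m`, `m ∈ {2, 3}`: the preimage `w` has last coordinate `-m` and `(y.1, y.2.1) = (w.1, w.2.1) - m (x.1, x.2.1)`. -/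
def S_frU : Prop := ∀ (b : Fin 3) (s : ℤ) (x : ℤ × ℤ × ℤ), (s = 1 ∨ s = -1) → x.2.2 = s → ∃ f, IsFr f ∧ f (ip (0, 0, 0)) = ip (0, 0, 0) ∧
  (∀ v ∈ Base b, f (ip v) = ip v) ∧ f (ip (0, 0, 1)) = ip x ∧ (∀ u w : ℤ × ℤ × ℤ, f (ip w) = ip u → u.2.2 = s * w.2.2) ∧
  (∀ u : ℤ × ℤ × ℤ, ∃ w : ℤ × ℤ × ℤ, f (ip w) = ip u) ∧ ∀ y w : ℤ × ℤ × ℤ, f (ip w) = ip y → Ho b (y.1, y.2.1, s * y.2.2) → Ho b w

/-- [Afin] The planar roots. Uses [frQ], [frH], [frU]. Proof. Let `Q` be alive at `u`, `r = u.2.2`. `Hl b x 1` means `x.2.2 = 1` or `Ho b (x.1, x.2.1, -x.2.2)`; `Hl b y (-1)` means `y.2.2 = -1` or `Ho b y`.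
(1) `x.2.2 = 1`, `y.2.2 = -1`. If `Sd PP1 p (VU b) r`: the frame `f` of [frU] for `x, s = 1`; `Q' = f ⁻¹' Q` contains `VU b` (the base is fixed and `f (0, 0, 1) = x`), `PP1 Q'`: the preimage of `y` has last coordinate `-1`; `Q'` is alive at `w` with `f w = u`, `w.2.2 = r`: contradiction. If `Sd PP1 p (VU b) (-r)`: the frame of [frU] for `y, s = -1`;
the preimage of `x` has last coordinate `-1`, `w.2.2 = -r`.
(2) `x.2.2 = 1`, `Ho b y`. If `Sd (PPh b) p (VU b) r`: [frU] for `x`, `s = 1`, and the preimage of `y` satisfies `Ho b`. If `Sd PP1 p (VH b) (-r)`: [frH] for `y`, `s = -1`; the preimage of `x` has last coordinate `-1`; the base is permuted, so `VH b` is in `Q'`.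
(3) `Ho b (x.1, x.2.1, -x.2.2)`, `y.2.2 = -1`: by the second hypothesis for `-r`: `Sd (PPh b) p (VU b) (-r)`: [frU] for `y`, `s = -1`, and the preimage of `x` satisfies `Ho b`; or `Sd PP1 p (VH b) r`: [frH] for `x`, `s = 1`, the preimage of `y` has last coordinate `-1`.
(4) Both are hole points: `Sd (PPh b) p (VH b) r`: [frH] for `x`, `s = 1`, the preimage of `y` satisfies `Ho b`; or with `-r`: [frH] for `y`, `s = -1`, and the preimage of `x`. -/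
def S_Afin : Prop := ∀ (b : Fin 3) (p : ℤ) (Q : Set (ℝ × ℝ × ℝ)), PP0 Q → (∀ v ∈ Base b, ip v ∈ Q) → (∃ x, Hl b x 1 ∧ ip x ∈ Q) → (∃ y, Hl b y (-1) ∧ ip y ∈ Q) →
  (∀ r, Sd PP1 p (VU b) r ∨ Sd PP1 p (VU b) (-r)) → (∀ r, Sd (PPh b) p (VU b) r ∨ Sd PP1 p (VH b) (-r)) →
  (∀ r, Sd (PPh b) p (VH b) r ∨ Sd (PPh b) p (VH b) (-r)) → ∀ u, ¬ Alv Q p u

/-- [orig] The origin is in the hull of every root. Proof. For each list give the weights: e.g. for `(-1, -1, -1), (1, 0, 0), (0, 1, 0), (0, 0, 1)` all weights are `1/4`; in general the weights are, up to a common factor, `|det|` of the three others. For `Beta`: `(0, 0, 1)` and `(0, 0, -1)`, weights `1/2`. For the bases: `0`: `1/3` each; `1`: `1/4, 1/4, 1/2`;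
`2`: the midpoint of `(1, 0, 0)` and `(-1, 0, 0)`. -/
def S_orig : Prop := ∀ Q : Set (ℝ × ℝ × ℝ), Convex ℝ Q → ((∃ R ∈ Theta, ∀ v ∈ R, ip v ∈ Q) ∨ (∃ R ∈ Beta, ∀ v ∈ R, ip v ∈ Q) ∨ ∃ b : Fin 3, ∀ v ∈ Base b, ip v ∈ Q) →
  ip (0, 0, 0) ∈ Q

/-- [fin] Uses [alv], [Afin], [orig], `T.S_fr2` and the root theorem (`R.S_roots`). Proof. `¬ Hollow P` gives `v` with `Inn P (ip v)`; the root theorem gives a frame `f`; `Q = f ⁻¹' P` is an integer polytope with all classes and the criterion ([fr2]), contains the origin ([orig]): `PP0 Q`; [alv] gives `u` with `Alv Q p u`. A root in `Theta` or `Beta`: `Dd PP0 p (R.map toP) u`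
(`(toP v).v = v`). A planar root: [Afin]. -/
def S_fin : Prop := ∀ p : ℕ, DeadAll p → ∀ P : Set (ℝ × ℝ × ℝ), IsLP3 P → PC3 P → ¬ Hollow P → ¬ Cr P p

end Pool.Agent.Lib.MP_0bc52e_nt.K
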