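import Pool.Agent.Lib.MP_0bc52e_nt.K.Cells
import Pool.Agent.Lib.MP_0bc52e_nt.K.CAll

/-!
The uniform certificates (MP_0bc52e_nt).
-/

namespace Pool.Agent.Lib.MP_0bc52e_nt.K

open Pool.Agent.Lib.MP_0bc52e_nt.LC Pool.Agent.Lib.MP_0bc52e_nt.T Pool.Agent.Lib.MP_0bc52e_nt.R

lemma u_th11 {p : ℤ} (h : 67 ≤ p) : ∀ u, Dd PP0 p V_th11 u := by
  have hM : (0 : ℤ) < 65536 := by norm_num
  have hp : (0 : ℤ) < p := by linarith
  have g0 : GO PP0 p p 65536 (DU p) V_th11 0 65536 0 65536 0 65536 := goU (cell_th11 q_cls.1) hM h k_th11_U0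
  exact endU hp hM g0

lemma u_th13 {p : ℤ} (h : 67 ≤ p) : ∀ u, Dd PP0 p V_th13 u := by
  have hM : (0 : ℤ) < 65536 := by norm_num
  have hp : (0 : ℤ) < p := by linarith
  have g0 : GO PP0 p p 65536 (DU p) V_th13 0 65536 0 65536 0 65536 := goU (cell_th13 q_cls.1) hM h k_th13_U0
  exact endU hp hM g0

lemma u_th17 {p : ℤ} (h : 67 ≤ p) : ∀ u, Dd PP0 p V_th17 u := by
  have hM : (0 : ℤ) < 65536 := by norm_num
  have hp : (0 : ℤ) < p := by linarith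
  have g0 : GO PP0 p p 65536 (DU p) V_th17 0 65536 0 65536 0 65536 := goU (cell_th17 q_cls.1) hM h k_th17_U0
  exact endU hp hM g0

lemma u_th19 {p : ℤ} (h : 67 ≤ p) : ∀ u, Dd PP0 p V_th19 u := by
  have hM : (0 : ℤ) < 65536 := by norm_num
  have hp : (0 : ℤ) < p := by linarith
  have g0 : GO PP0 p p 65536 (DU p) V_th19 0 65536 0 65536 0 65536 := goU (cell_th19 q_cls.1) hM h k_th19_U0
  exact endU hp hM g0

lemma u_th20 {p : ℤ} (h : 67 ≤ p) : ∀ u, Dd PP0 p V_th20 u := by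
  have hM : (0 : ℤ) < 65536 := by norm_num
  have hp : (0 : ℤ) < p := by linarith
  have g0 : GO PP0 p p 65536 (DU p) V_th20 0 65536 0 65536 0 65536 := goU (cell_th20 q_cls.1) hM h k_th20_U0
  exact endU hp hM g0

lemma u_th4 {p : ℤ} (h : 67 ≤ p) : ∀ u, Dd PP0 p V_th4 u := by
  have hM : (0 : ℤ) < 65536 := by norm_num
  have hp : (0 : ℤ) < p := by linarith
  have g0 : GO PP0 p p 65536 (DU p) V_th4 0 8192 0 65536 0 65536 := goU (cell_th4 q_cls.1) hM h k_th4_U0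
  have g1 : GO PP0 p p 65536 (DU p) V_th4 8192 16384 0 65536 0 65536 := goU (cell_th4 q_cls.1) hM h k_th4_U1
  have g2 : GO PP0 p p 65536 (DU p) V_th4 16384 24576 0 65536 0 65536 := goU (cell_th4 q_cls.1) hM h k_th4_U2
  have g3 : GO PP0 p p 65536 (DU p) V_th4 24576 32768 0 65536 0 65536 := goU (cell_th4 q_cls.1) hM h k_th4_U3
  have g4 : GO PP0 p p 65536 (DU p) V_th4 32768 40960 0 65536 0 65536 := goU (cell_th4 q_cls.1) hM h k_th4_U4
  have g5 : GO PP0 p p 65536 (DU p) V_th4 40960 49152 0 65536 0 65536 := goU (cell_th4 q_cls.1) hM h k_th4_U5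
  have g6 : GO PP0 p p 65536 (DU p) V_th4 49152 57344 0 65536 0 65536 := goU (cell_th4 q_cls.1) hM h k_th4_U6
  have g7 : GO PP0 p p 65536 (DU p) V_th4 57344 65536 0 65536 0 65536 := goU (cell_th4 q_cls.1) hM h k_th4_U7
  exact endU hp hM (goJ (goJ (goJ (goJ (goJ (goJ (goJ g0 g1) g2) g3) g4) g5) g6) g7)

lemma u_th5 {p : ℤ} (h : 67 ≤ p) : ∀ u, Dd PP0 p V_th5 u := by
  have hM : (0 : ℤ) < 65536 := by norm_num
  have hp : (0 : ℤ) < p := by linarith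
  have g0 : GO PP0 p p 65536 (DU p) V_th5 0 16384 0 65536 0 65536 := goU (cell_th5 q_cls.1) hM h k_th5_U0
  have g1 : GO PP0 p p 65536 (DU p) V_th5 16384 32768 0 65536 0 65536 := goU (cell_th5 q_cls.1) hM h k_th5_U1
  have g2 : GO PP0 p p 65536 (DU p) V_th5 32768 49152 0 65536 0 65536 := goU (cell_th5 q_cls.1) hM h k_th5_U2
  have g3 : GO PP0 p p 65536 (DU p) V_th5 49152 65536 0 65536 0 65536 := goU (cell_th5 q_cls.1) hM h k_th5_U3
  exact endU hp hM (goJ (goJ (goJ g0 g1) g2) g3)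

lemma u_th7 {p : ℤ} (h : 67 ≤ p) : ∀ u, Dd PP0 p V_th7 u := by
  have hM : (0 : ℤ) < 65536 := by norm_num
  have hp : (0 : ℤ) < p := by linarith
  have g0 : GO PP0 p p 65536 (DU p) V_th7 0 65536 0 65536 0 65536 := goU (cell_th7 q_cls.1) hM h k_th7_U0
  exact endU hp hM g0

lemma u_b11 {p : ℤ} (h : 67 ≤ p) : ∀ u, Dd PP0 p V_b11 u := by
  have hM : (0 : ℤ) < 65536 := by norm_num
  have hp : (0 : ℤ) < p := by linarith
  have g0 : GO PP0 p p 65536 (DU p) V_b11 0 65536 0 65536 0 65536 := goU (cell_b11 q_cls.1) hM h k_b11_U0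
  exact endU hp hM g0

lemma u_b12 {p : ℤ} (h : 67 ≤ p) : ∀ u, Dd PP0 p V_b12 u := by
  have hM : (0 : ℤ) < 65536 := by norm_num
  have hp : (0 : ℤ) < p := by linarith
  have g0 : GO PP0 p p 65536 (DU p) V_b12 0 65536 0 65536 0 65536 := goU (cell_b12 q_cls.1) hM h k_b12_U0
  exact endU hp hM g0

lemma u_b13 {p : ℤ} (h : 73 ≤ p) : ∀ u, Dd PP0 p V_b13 u := by
  have hM : (0 : ℤ) < 65536 := by norm_num
  have hp : (0 : ℤ) < p := by linarith
  have g0 : GO PP0 p p 65536 (DU p) V_b13 0 32768 0 65536 0 65536 := goU (cell_b13 q_cls.1) hM h k_b13_U0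
  have g1 : GO PP0 p p 65536 (DU p) V_b13 32768 65536 0 65536 0 65536 := goU (cell_b13 q_cls.1) hM h k_b13_U1
  exact endU hp hM (goJ g0 g1)

lemma u_b14 {p : ℤ} (h : 67 ≤ p) : ∀ u, Dd PP0 p V_b14 u := by
  have hM : (0 : ℤ) < 65536 := by norm_num
  have hp : (0 : ℤ) < p := by linarith
  have g0 : GO PP0 p p 65536 (DU p) V_b14 0 65536 0 65536 0 65536 := goU (cell_b14 q_cls.1) hM h k_b14_U0
  exact endU hp hM g0

lemma u_b15 {p : ℤ} (h : 67 ≤ p) : ∀ u, Dd PP0 p V_b15 u := by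
  have hM : (0 : ℤ) < 65536 := by norm_num
  have hp : (0 : ℤ) < p := by linarith
  have g0 : GO PP0 p p 65536 (DU p) V_b15 0 65536 0 65536 0 65536 := goU (cell_b15 q_cls.1) hM h k_b15_U0
  exact endU hp hM g0

lemma u_b21 {p : ℤ} (h : 67 ≤ p) : ∀ u, Dd PP0 p V_b21 u := by
  have hM : (0 : ℤ) < 65536 := by norm_num
  have hp : (0 : ℤ) < p := by linarith
  have g0 : GO PP0 p p 65536 (DU p) V_b21 0 65536 0 65536 0 65536 := goU (cell_b21 q_cls.1) hM h k_b21_U0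
  exact endU hp hM g0

lemma u_b23 {p : ℤ} (h : 67 ≤ p) : ∀ u, Dd PP0 p V_b23 u := by
  have hM : (0 : ℤ) < 65536 := by norm_num
  have hp : (0 : ℤ) < p := by linarith
  have g0 : GO PP0 p p 65536 (DU p) V_b23 0 65536 0 65536 0 65536 := goU (cell_b23 q_cls.1) hM h k_b23_U0
  exact endU hp hM g0

lemma u_b25 {p : ℤ} (h : 67 ≤ p) : ∀ u, Dd PP0 p V_b25 u := by
  have hM : (0 : ℤ) < 65536 := by norm_num
  have hp : (0 : ℤ) < p := by linarith
  have g0 : GO PP0 p p 65536 (DU p) V_b25 0 65536 0 65536 0 65536 := goU (cell_b25 q_cls.1) hM h k_b25_U0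
  exact endU hp hM g0

lemma u_b27 {p : ℤ} (h : 67 ≤ p) : ∀ u, Dd PP0 p V_b27 u := by
  have hM : (0 : ℤ) < 65536 := by norm_num
  have hp : (0 : ℤ) < p := by linarith
  have g0 : GO PP0 p p 65536 (DU p) V_b27 0 65536 0 65536 0 65536 := goU (cell_b27 q_cls.1) hM h k_b27_U0
  exact endU hp hM g0

lemma u_b311 {p : ℤ} (h : 67 ≤ p) : ∀ u, Dd PP0 p V_b311 u := by
  have hM : (0 : ℤ) < 65536 := by norm_num
  have hp : (0 : ℤ) < p := by linarith
  have g0 : GO PP0 p p 65536 (DU p) V_b311 0 65536 0 65536 0 65536 := goU (cell_b311 q_cls.1) hM h k_b311_U0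
  exact endU hp hM g0

lemma u_b31 {p : ℤ} (h : 67 ≤ p) : ∀ u, Dd PP0 p V_b31 u := by
  have hM : (0 : ℤ) < 65536 := by norm_num
  have hp : (0 : ℤ) < p := by linarith
  have g0 : GO PP0 p p 65536 (DU p) V_b31 0 65536 0 65536 0 65536 := goU (cell_b31 q_cls.1) hM h k_b31_U0
  exact endU hp hM g0

lemma u_b35 {p : ℤ} (h : 67 ≤ p) : ∀ u, Dd PP0 p V_b35 u := by
  have hM : (0 : ℤ) < 65536 := by norm_num
  have hp : (0 : ℤ) < p := by linarith
  have g0 : GO PP0 p p 65536 (DU p) V_b35 0 65536 0 65536 0 65536 := goU (cell_b35 q_cls.1) hM h k_b35_U0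
  exact endU hp hM g0

lemma u_b37 {p : ℤ} (h : 67 ≤ p) : ∀ u, Dd PP0 p V_b37 u := by
  have hM : (0 : ℤ) < 65536 := by norm_num
  have hp : (0 : ℤ) < p := by linarith
  have g0 : GO PP0 p p 65536 (DU p) V_b37 0 65536 0 65536 0 65536 := goU (cell_b37 q_cls.1) hM h k_b37_U0
  exact endU hp hM g0

lemma u_bi3 {p : ℤ} (h : 67 ≤ p) : ∀ u, Dd PP0 p V_bi3 u := by
  have hM : (0 : ℤ) < 65536 := by norm_num
  have hp : (0 : ℤ) < p := by linarith
  have g0 : GO PP0 p p 65536 (DU p) V_bi3 0 65536 0 65536 0 65536 := goU (cell_bi3 q_cls.1) hM h k_bi3_U0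
  exact endU hp hM g0

end Pool.Agent.Lib.MP_0bc52e_nt.K
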